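import Mathlib

/-!
# A one-dimensional lemma: families with affine supergradients
-/

open MeasureTheory Set Filter Topology

namespace Pool.Agent.H30.Sccp

section

variable {B g : ℝ → ℝ}

/-- `g` is a supergradient selection of `B` on `[0,1]`. -/
def SuperGrad (B g : ℝ → ℝ) : Prop :=
  ∀ s ∈ Icc (0 : ℝ) 1, ∀ s' ∈ Icc (0 : ℝ) 1, B s' ≤ B s + (s' - s) * g s

lemma SuperGrad.antitoneOn (h : SuperGrad B g) : AntitoneOn g (Icc 0 1) := by
  intro s hs s' hs' hss
  rcases hss.eq_or_lt with rfl | hlt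
  · exact le_rfl
  have h1 := h s hs s' hs'
  have h2 := h s' hs' s hs
  have : (s' - s) * g s' ≤ (s' - s) * g s := by linarith
  exact le_of_mul_le_mul_left this (by linarith)

lemma SuperGrad.abs_le (h : SuperGrad B g) :
    ∀ s ∈ Icc (0 : ℝ) 1, |g s| ≤ |g 0| + |g 1| := by
  intro s hs
  have h0 : (0 : ℝ) ∈ Icc (0 : ℝ) 1 := ⟨le_rfl, zero_le_one⟩
  have h1 : (1 : ℝ) ∈ Icc (0 : ℝ) 1 := ⟨zero_le_one, le_rfl⟩
  have a := h.antitoneOn h0 hs hs.1
  have b := h.antitoneOn hs h1 hs.2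
  rw [_root_.abs_le]
  constructor
  · have := neg_abs_le (g 1); have := abs_nonneg (g 0); linarith
  · have := le_abs_self (g 0); have := abs_nonneg (g 1); linarith

lemma SuperGrad.lip (h : SuperGrad B g) :
    ∀ s ∈ Icc (0 : ℝ) 1, ∀ s' ∈ Icc (0 : ℝ) 1, |B s' - B s| ≤ (|g 0| + |g 1|) * |s' - s| := by
  intro s hs s' hs'
  have h1 := h s hs s' hs'
  have h2 := h s' hs' s hs
  have e1 : (s' - s) * g s ≤ (|g 0| + |g 1|) * |s' - s| := by
    calc (s' - s) * g s ≤ |(s' - s) * g s| := le_abs_self _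
      _ = |s' - s| * |g s| := abs_mul _ _
      _ ≤ |s' - s| * (|g 0| + |g 1|) := mul_le_mul_of_nonneg_left (h.abs_le s hs) (abs_nonneg _)
      _ = _ := mul_comm _ _
  have e2 : (s - s') * g s' ≤ (|g 0| + |g 1|) * |s' - s| := by
    calc (s - s') * g s' ≤ |(s - s') * g s'| := le_abs_self _
      _ = |s' - s| * |g s'| := by rw [abs_mul, abs_sub_comm]
      _ ≤ |s' - s| * (|g 0| + |g 1|) := mul_le_mul_of_nonneg_left (h.abs_le s' hs') (abs_nonneg _)
      _ = _ := mul_comm _ _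
  rw [_root_.abs_le]
  constructor <;> linarith

lemma SuperGrad.continuousOn (h : SuperGrad B g) : ContinuousOn B (Icc 0 1) := by
  intro s hs
  rw [Metric.continuousWithinAt_iff]
  intro ε hε
  have hK : 0 ≤ |g 0| + |g 1| := by positivity
  refine ⟨ε / (|g 0| + |g 1| + 1), by positivity, fun x hx hd => ?_⟩
  rw [Real.dist_eq] at hd ⊢
  have := h.lip s hs x hx
  calc |B x - B s| ≤ (|g 0| + |g 1|) * |x - s| := this
    _ ≤ (|g 0| + |g 1| + 1) * |x - s| := by nlinarith [abs_nonneg (x - s)]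
    _ < (|g 0| + |g 1| + 1) * (ε / (|g 0| + |g 1| + 1)) :=
        mul_lt_mul_of_pos_left hd (by positivity)
    _ = ε := by field_simp

lemma SuperGrad.hasDerivAt (h : SuperGrad B g) {s : ℝ} (hs : s ∈ Ioo (0 : ℝ) 1)
    (hc : ContinuousWithinAt g (Icc 0 1) s) : HasDerivAt B (g s) s := by
  have hsI : s ∈ Icc (0 : ℝ) 1 := ⟨hs.1.le, hs.2.le⟩
  have hnh : Icc (0 : ℝ) 1 ∈ 𝓝 s := Icc_mem_nhds hs.1 hs.2
  have hc' : ContinuousAt g s := hc.continuousAt hnh
  rw [hasDerivAt_iff_isLittleO, Asymptotics.isLittleO_iff]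
  intro ε hε
  have h1 : ∀ᶠ x in 𝓝 s, |g x - g s| < ε := by
    have := Metric.continuousAt_iff.mp hc' ε hε
    obtain ⟨δ, hδ, hh⟩ := this
    filter_upwards [Metric.ball_mem_nhds s hδ] with x hx
    have := hh (Metric.mem_ball.mp hx)
    rwa [Real.dist_eq] at this
  filter_upwards [h1, hnh] with x hx hxI
  have a1 := h s hsI x hxI
  have a2 := h x hxI s hsI
  rw [Real.norm_eq_abs, Real.norm_eq_abs, smul_eq_mul, _root_.abs_le]
  -- (x - s) * g x ≤ B x - B s ≤ (x - s) * g s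
  have b1 : (x - s) * g x ≤ B x - B s := by linarith
  have b2 : B x - B s ≤ (x - s) * g s := by linarith
  have b3 : |(x - s) * (g x - g s)| ≤ ε * |x - s| := by
    rw [abs_mul, mul_comm ε]
    exact mul_le_mul_of_nonneg_left hx.le (abs_nonneg _)
  have b4 := (_root_.abs_le.mp b3).1
  have b5 : 0 ≤ ε * |x - s| := by positivity
  constructor
  · nlinarith
  · linarith

end

/-- Three functions whose supergradients are given by one affine function of the value have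
constant ratio of differences. -/
lemma ratio_const {B : Fin 3 → ℝ → ℝ} {P Q : ℝ → ℝ}
    (h : ∀ k, SuperGrad (B k) (fun s => P s + B k s * Q s))
    (hlt : ∀ s ∈ Icc (0 : ℝ) 1, B 0 s < B 1 s) :
    (B 2 1 - B 0 1) * (B 1 0 - B 0 0) = (B 2 0 - B 0 0) * (B 1 1 - B 0 1) := by
  classical
  set g : Fin 3 → ℝ → ℝ := fun k s => P s + B k s * Q s with hg
  let bad : Set ℝ := ⋃ k, {x | x ∈ Icc (0 : ℝ) 1 ∧ ¬ ContinuousWithinAt (g k) (Icc 0 1) x}
  have hbad : bad.Countable :=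
    countable_iUnion (fun k => (h k).antitoneOn.countable_not_continuousWithinAt)
  let R : ℝ → ℝ := fun s => (B 2 s - B 0 s) / (B 1 s - B 0 s)
  have hRc : ContinuousOn R (Icc 0 1) := by
    apply ContinuousOn.div
    · exact (h 2).continuousOn.sub (h 0).continuousOn
    · exact (h 1).continuousOn.sub (h 0).continuousOn
    · intro s hs
      have := hlt s hs
      exact (sub_pos.mpr this).ne'
  have hder : ∀ x ∈ Ioo (0 : ℝ) 1 \ bad, HasDerivAt R ((fun _ => (0 : ℝ)) x) x := by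
    intro x hx
    have hxI : x ∈ Icc (0 : ℝ) 1 := ⟨hx.1.1.le, hx.1.2.le⟩
    have hcont : ∀ k, ContinuousWithinAt (g k) (Icc 0 1) x := by
      intro k
      by_contra hcon
      exact hx.2 (mem_iUnion.mpr ⟨k, hxI, hcon⟩)
    have hd : ∀ k, HasDerivAt (B k) (g k x) x := fun k => (h k).hasDerivAt hx.1 (hcont k)
    have hne : B 1 x - B 0 x ≠ 0 := (sub_pos.mpr (hlt x hxI)).ne'
    have h0 : ((g 2 x - g 0 x) * (B 1 x - B 0 x) - (B 2 x - B 0 x) * (g 1 x - g 0 x)) /
        (B 1 x - B 0 x) ^ 2 = 0 := by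
      rw [div_eq_zero_iff]; left; simp only [hg]; ring
    have hq := ((hd 2).sub (hd 0)).div ((hd 1).sub (hd 0)) hne
    exact hq.congr_deriv h0
  have := integral_eq_of_hasDerivAt_off_countable_of_le R (fun _ => (0 : ℝ))
    (zero_le_one' ℝ) hbad hRc hder (by simp)
  have h2 : R 1 = R 0 := by
    have h3 : (∫ _ in (0 : ℝ)..1, (0 : ℝ)) = 0 := by simp
    rw [h3] at this
    linarith
  have hne0 : B 1 0 - B 0 0 ≠ 0 := (sub_pos.mpr (hlt 0 ⟨le_rfl, zero_le_one⟩)).ne'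
  have hne1 : B 1 1 - B 0 1 ≠ 0 := (sub_pos.mpr (hlt 1 ⟨zero_le_one, le_rfl⟩)).ne'
  simp only [R] at h2
  rw [div_eq_div_iff hne1 hne0] at h2
  exact h2

end Pool.Agent.H30.Sccp
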