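import Pool.Agent.H30.Sccp.Ell
import Pool.Agent.H30.Sccp.Ratio

/-!
# The volume functions of a set with collinear centroids are affinely equivalent
-/

open MeasureTheory MeasureTheory.Measure Set

namespace Pool.Agent.H30.Sccp

variable {n : ℕ} {W : Set (Fin (n + 1) → ℝ)} {α : Fin (n + 1) → ℝ}

/-- Quantitative lower bound of the volume function. -/
lemma Good.V_ge (hW : Good W) (hα : ∀ i, 0 < α i) {x : Fin (n + 1) → ℝ} (hx : x ∈ W)
    {t : ℝ} (ht : ∑ i, α i * x i ≤ t) :
    ((t - ∑ i, α i * x i) / ∑ i, α i) ^ (n + 1) ≤ V W α t := by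
  classical
  set S : ℝ := ∑ i, α i with hS
  have hSpos : 0 < S := Finset.sum_pos (fun i _ => hα i) Finset.univ_nonempty
  set r : ℝ := (t - ∑ i, α i * x i) / S with hr
  have hr0 : 0 ≤ r := div_nonneg (by linarith) hSpos.le
  have hsub : Set.pi Set.univ (fun i => Set.Icc (x i) (x i + r)) ⊆ cap W α t := by
    intro z hz
    rw [Set.mem_univ_pi] at hz
    constructor
    · have := hW.up x hx (fun i => z i - x i) (fun i => by linarith [(hz i).1])
      convert this using 1
      ext i; simp
    · have h1 : ∑ i, α i * z i ≤ ∑ i, α i * (x i + r) :=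
        Finset.sum_le_sum (fun i _ => mul_le_mul_of_nonneg_left (hz i).2 (hα i).le)
      have h2 : ∑ i, α i * (x i + r) = ∑ i, α i * x i + S * r := by
        rw [hS, Finset.sum_mul, ← Finset.sum_add_distrib]
        exact Finset.sum_congr rfl (fun i _ => by ring)
      have h3 : S * r = t - ∑ i, α i * x i := by
        rw [hr]; field_simp
      linarith
  have hvol : volume (Set.pi Set.univ (fun i => Set.Icc (x i) (x i + r))) =
      ENNReal.ofReal (r ^ (n + 1)) := by
    rw [volume_pi_pi]
    simp only [Real.volume_Icc, add_sub_cancel_left, Finset.prod_const, Finset.card_univ,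
      Fintype.card_fin]
    rw [ENNReal.ofReal_pow hr0]
  have h1 := measure_mono (μ := volume) hsub
  rw [hvol] at h1
  rw [V, measureReal_def]
  have h2 := ENNReal.toReal_mono (hW.cap_lt_top hα t).ne h1
  rwa [ENNReal.toReal_ofReal (by positivity)] at h2

lemma Good.V_unbounded (hW : Good W) (hα : ∀ i, 0 < α i) (v : ℝ) : ∃ t, v ≤ V W α t := by
  obtain ⟨x, hx⟩ := hW.nonempty
  set S : ℝ := ∑ i, α i with hS
  have hSpos : 0 < S := Finset.sum_pos (fun i _ => hα i) Finset.univ_nonempty
  refine ⟨∑ i, α i * x i + S * (1 + |v|), ?_⟩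
  have h := hW.V_ge hα hx (t := ∑ i, α i * x i + S * (1 + |v|))
    (by have := abs_nonneg v; nlinarith)
  refine le_trans ?_ h
  have : (∑ i, α i * x i + S * (1 + |v|) - ∑ i, α i * x i) / S = 1 + |v| := by
    field_simp; ring
  rw [← hS, this]
  have h1 : (1 : ℝ) ≤ 1 + |v| := by have := abs_nonneg v; linarith
  calc v ≤ |v| := le_abs_self v
    _ ≤ 1 + |v| := by linarith
    _ = (1 + |v|) ^ 1 := (pow_one _).symm
    _ ≤ (1 + |v|) ^ (n + 1) := pow_le_pow_right₀ h1 (by omega)

lemma Good.V_eventually_zero (hW : Good W) (hα : ∀ i, 0 < α i) : ∃ t, V W α t = 0 := by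
  obtain ⟨m, hm⟩ := hW.bdd α hα
  refine ⟨m - 1, ?_⟩
  have : cap W α (m - 1) = ∅ := by
    ext x
    simp only [cap, mem_ofPred_eq, mem_empty_iff_false, iff_false, not_and, not_le]
    intro hx
    have := hm x hx
    linarith
  rw [V, this]
  simp

lemma Good.shadow_mono (hW : Good W) (a : Fin n → ℝ) {t t' : ℝ} (h : t ≤ t') :
    shadow W (one_cons a) t ⊆ shadow W (one_cons a) t' := by
  intro y hy
  rw [mem_shadow_one_cons] at hy ⊢
  exact hW.line_up hy (by linarith)

lemma Good.V_lip (hW : Good W) {a : Fin n → ℝ} (ha : ∀ i, 0 < a i) {t t' T : ℝ} (h : t ≤ t')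
    (hT : t' ≤ T) : V W (one_cons a) t' - V W (one_cons a) t ≤
      volume.real (shadow W (one_cons a) T) * (t' - t) := by
  have h1 := hW.V_subgrad ha ha t' t
  have h2 : ∫ y in shadow W (one_cons a) t',
      ((t - ∑ i, a i * y i) - (t' - ∑ i, a i * y i)) =
      volume.real (shadow W (one_cons a) t') * (t - t') := by
    have : ∀ y : Fin n → ℝ, ((t - ∑ i, a i * y i) - (t' - ∑ i, a i * y i)) = t - t' :=
      fun y => by ring
    simp only [this]
    rw [setIntegral_const, smul_eq_mul]
  rw [h2] at h1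
  have h3 : volume.real (shadow W (one_cons a) t') ≤ volume.real (shadow W (one_cons a) T) :=
    measureReal_mono (hW.shadow_mono a hT) (hW.shadow_lt_top ha T).ne
  nlinarith

lemma Good.V_continuous (hW : Good W) {a : Fin n → ℝ} (ha : ∀ i, 0 < a i) :
    Continuous (V W (one_cons a)) := by
  rw [continuous_iff_continuousAt]
  intro t
  set K := volume.real (shadow W (one_cons a) (t + 1)) with hK
  have hK0 : 0 ≤ K := measureReal_nonneg
  have hmono := fun {s s' : ℝ} (h : s ≤ s') => hW.V_mono (one_cons_pos ha) h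
  rw [Metric.continuousAt_iff]
  intro ε hε
  refine ⟨min 1 (ε / (K + 1)), lt_min one_pos (by positivity), fun {s} hs => ?_⟩
  rw [Real.dist_eq] at hs ⊢
  have hs1 : |s - t| < 1 := hs.trans_le (min_le_left _ _)
  have hs2 : |s - t| < ε / (K + 1) := hs.trans_le (min_le_right _ _)
  rw [lt_div_iff₀ (by positivity)] at hs2
  rcases le_total s t with h | h
  · have h1 := hW.V_lip ha h (T := t + 1) (by linarith)
    have h2 := hmono h
    rw [abs_sub_comm, abs_of_nonneg (by linarith)]
    rw [abs_sub_comm, abs_of_nonneg (by linarith)] at hs2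
    rw [← hK] at h1
    nlinarith
  · have hst : s ≤ t + 1 := by
      have := (abs_lt.mp hs1).2; linarith
    have h1 := hW.V_lip ha h (T := t + 1) hst
    have h2 := hmono h
    rw [abs_of_nonneg (by linarith)]
    rw [abs_of_nonneg (by linarith)] at hs2
    rw [← hK] at h1
    nlinarith

lemma Good.exists_level (hW : Good W) {a : Fin n → ℝ} (ha : ∀ i, 0 < a i) {v : ℝ} (hv : 0 < v) :
    ∃ t, V W (one_cons a) t = v := by
  obtain ⟨t0, h0⟩ := hW.V_eventually_zero (one_cons_pos ha)
  obtain ⟨t1, h1⟩ := hW.V_unbounded (one_cons_pos ha) v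
  exact mem_range_of_exists_le_of_exists_ge (hW.V_continuous ha)
    ⟨t0, by rw [h0]; exact hv.le⟩ ⟨t1, h1⟩

open Classical in
/-- The level with prescribed volume. -/
noncomputable def lev (W : Set (Fin (n + 1) → ℝ)) (a : Fin n → ℝ) (v : ℝ) : ℝ :=
  if h : ∃ t, V W (one_cons a) t = v then h.choose else 0

lemma Good.V_lev (hW : Good W) {a : Fin n → ℝ} (ha : ∀ i, 0 < a i) {v : ℝ} (hv : 0 < v) :
    V W (one_cons a) (lev W a v) = v := by
  have h := hW.exists_level ha hv
  rw [lev, dif_pos h]
  exact h.choose_spec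

lemma Good.lev_le (hW : Good W) {a : Fin n → ℝ} (ha : ∀ i, 0 < a i) {v : ℝ} (hv : 0 < v)
    {u : ℝ} (hu : v ≤ V W (one_cons a) u) : lev W a v ≤ u := by
  by_contra hcon
  push Not at hcon
  have h1 := hW.V_lev ha hv
  have h2 := hW.V_strictMono (one_cons_pos ha) hcon (by rw [h1]; exact hv)
  rw [h1] at h2
  linarith

lemma Good.lev_lt (hW : Good W) {a : Fin n → ℝ} (ha : ∀ i, 0 < a i) {v w : ℝ} (hv : 0 < v)
    (hvw : v < w) : lev W a v < lev W a w := by
  by_contra hcon
  push Not at hcon
  have h1 := hW.V_lev ha hv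
  have h2 := hW.V_lev ha (hv.trans hvw)
  have h3 := hW.V_mono (one_cons_pos ha) hcon
  rw [h1, h2] at h3
  linarith

lemma Good.lev_unique (hW : Good W) {a : Fin n → ℝ} (ha : ∀ i, 0 < a i) {v : ℝ} (hv : 0 < v)
    {u : ℝ} (hu : V W (one_cons a) u = v) : u = lev W a v := by
  apply le_antisymm _ (hW.lev_le ha hv hu.ge)
  by_contra hcon
  push Not at hcon
  have h2 := hW.V_strictMono (one_cons_pos ha) hcon (by rw [hu]; exact hv)
  rw [hW.V_lev ha hv, hu] at h2
  exact lt_irrefl _ h2

/-- Collinearity of the centroids, in coordinates. -/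
def Collinear (W : Set (Fin (n + 1) → ℝ)) : Prop :=
  ∀ a : Fin n → ℝ, (∀ i, 0 < a i) → ∃ p q : Fin n → ℝ, ∀ t, 0 < V W (one_cons a) t →
    ∀ i, ∫ y in shadow W (one_cons a) t, y i =
      volume.real (shadow W (one_cons a) t) * (p i + t * q i)

/-- The supergradient inequality for levels. -/
lemma Good.lev_supergrad (hW : Good W) {a b : Fin n → ℝ} (ha : ∀ i, 0 < a i)
    (hb : ∀ i, 0 < b i) {p q : Fin n → ℝ}
    (h : ∀ t, 0 < V W (one_cons a) t → ∀ i, ∫ y in shadow W (one_cons a) t, y i =
      volume.real (shadow W (one_cons a) t) * (p i + t * q i)) {v : ℝ} (hv : 0 < v) :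
    lev W b v ≤ lev W a v + ∑ i, (b i - a i) * (p i + lev W a v * q i) := by
  set t := lev W a v with ht
  have hVt : V W (one_cons a) t = v := hW.V_lev ha hv
  set u := t + ∑ i, (b i - a i) * (p i + t * q i) with hu
  apply hW.lev_le hb hv
  have h1 := hW.V_subgrad ha hb t u
  have hint : ∀ i : Fin n, IntegrableOn (fun y : Fin n → ℝ => (b i - a i) * y i)
      (shadow W (one_cons a) t) := fun i =>
    integrableOn_of_bounded (hW.shadow_bounded ha t) (hW.shadow_closed a t) (by fun_prop)
  have h2 : ∫ y in shadow W (one_cons a) t, ((u - ∑ i, b i * y i) - (t - ∑ i, a i * y i)) = 0 := by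
    have e1 : ∀ y : Fin n → ℝ, ((u - ∑ i, b i * y i) - (t - ∑ i, a i * y i)) =
        (u - t) - ∑ i, (b i - a i) * y i := by
      intro y
      have : ∑ i, (b i - a i) * y i = ∑ i, b i * y i - ∑ i, a i * y i := by
        rw [← Finset.sum_sub_distrib]
        exact Finset.sum_congr rfl (fun i _ => by ring)
      rw [this]; ring
    simp only [e1]
    rw [integral_sub, integral_finsetSum, setIntegral_const, smul_eq_mul]
    · have e2 : ∀ i, ∫ y in shadow W (one_cons a) t, (b i - a i) * y i =
          volume.real (shadow W (one_cons a) t) * ((b i - a i) * (p i + t * q i)) := by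
        intro i
        rw [integral_const_mul, h t (by rw [hVt]; exact hv) i]
        ring
      simp only [e2]
      rw [← Finset.mul_sum, hu]
      ring
    · exact fun i _ => hint i
    · exact integrableOn_of_bounded (hW.shadow_bounded ha t) (hW.shadow_closed a t)
        continuous_const
    · exact integrable_finsetSum _ (fun i _ => hint i)
  rw [h2, hVt] at h1
  linarith

/-- Levels of two directions are affinely related. -/
theorem Good.lev_affine (hW : Good W) (hC : Collinear W) {a b : Fin n → ℝ}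
    (ha : ∀ i, 0 < a i) (hb : ∀ i, 0 < b i) :
    ∃ E F : ℝ, 0 < E ∧ ∀ v, 0 < v → lev W b v = E * lev W a v + F := by
  classical
  have hpos : ∀ s ∈ Icc (0 : ℝ) 1, ∀ i, 0 < (a i + s * (b i - a i)) := by
    intro s hs i
    have h1 : a i + s * (b i - a i) = (1 - s) * a i + s * b i := by ring
    rw [h1]
    rcases hs.1.eq_or_lt with h0 | h0
    · rw [← h0]; simpa using ha i
    · have : 0 ≤ (1 - s) * a i := mul_nonneg (by linarith [hs.2]) (ha i).le
      have := mul_pos h0 (hb i)
      linarith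
  let A : ℝ → Fin n → ℝ := fun s i => a i + s * (b i - a i)
  -- choose `p, q` along the segment
  have hch : ∀ s : ℝ, ∃ pq : (Fin n → ℝ) × (Fin n → ℝ), s ∈ Icc (0 : ℝ) 1 →
      ∀ t, 0 < V W (one_cons (A s)) t → ∀ i, ∫ y in shadow W (one_cons (A s)) t, y i =
      volume.real (shadow W (one_cons (A s)) t) * (pq.1 i + t * pq.2 i) := by
    intro s
    by_cases hs : s ∈ Icc (0 : ℝ) 1
    · obtain ⟨p, q, h⟩ := hC (A s) (hpos s hs)
      exact ⟨(p, q), fun _ => h⟩
    · exact ⟨(0, 0), fun h => absurd h hs⟩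
  choose pq hpq using hch
  let P : ℝ → ℝ := fun s => ∑ i, (b i - a i) * (pq s).1 i
  let Q : ℝ → ℝ := fun s => ∑ i, (b i - a i) * (pq s).2 i
  have hsg : ∀ v, 0 < v → SuperGrad (fun s => lev W (A s) v)
      (fun s => P s + lev W (A s) v * Q s) := by
    intro v hv s hs s' hs'
    have := hW.lev_supergrad (hpos s hs) (hpos s' hs') (hpq s hs) hv
    refine this.trans (le_of_eq ?_)
    have e : ∑ i, (A s' i - A s i) * ((pq s).1 i + lev W (A s) v * (pq s).2 i) =
        (s' - s) * (P s + lev W (A s) v * Q s) := by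
      simp only [P, Q, A, mul_add, Finset.mul_sum, ← Finset.sum_add_distrib]
      exact Finset.sum_congr rfl (fun i _ => by ring)
    change lev W (A s) v + _ = lev W (A s) v + _
    rw [← e]
  have hA0 : A 0 = a := by ext i; simp [A]
  have hA1 : A 1 = b := by ext i; simp [A]
  -- the base levels
  set a1 := lev W a 1
  set a2 := lev W a 2
  set b1 := lev W b 1
  set b2 := lev W b 2
  have ha12 : a1 < a2 := hW.lev_lt ha one_pos (by norm_num)
  have hb12 : b1 < b2 := hW.lev_lt hb one_pos (by norm_num)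
  refine ⟨(b2 - b1) / (a2 - a1), b1 - (b2 - b1) / (a2 - a1) * a1,
    div_pos (by linarith) (by linarith), fun v hv => ?_⟩
  let B : Fin 3 → ℝ → ℝ := fun k s => lev W (A s) (![1, 2, v] k)
  have hB : ∀ k, SuperGrad (B k) (fun s => P s + B k s * Q s) := by
    intro k
    apply hsg
    fin_cases k
    · exact one_pos
    · exact two_pos
    · exact hv
  have hlt : ∀ s ∈ Icc (0 : ℝ) 1, B 0 s < B 1 s := by
    intro s hs
    exact hW.lev_lt (hpos s hs) one_pos (by norm_num)
  have hr := ratio_const hB hlt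
  simp only [B, hA0, hA1] at hr
  change (lev W b v - b1) * (a2 - a1) = (lev W a v - a1) * (b2 - b1) at hr
  have hne : a2 - a1 ≠ 0 := by linarith
  field_simp
  linarith

/-- The functional `(1,…,1)`. -/
def ones (n : ℕ) : Fin (n + 1) → ℝ := fun _ => 1

lemma ones_eq : ones n = one_cons (fun _ : Fin n => (1 : ℝ)) := by
  ext i
  refine Fin.cases ?_ (fun j => ?_) i
  · simp [ones, one_cons]
  · simp [ones, one_cons]

/-- All volume functions of `W` are affinely equivalent to the one in direction `(1,…,1)`. -/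
def AffEq (W : Set (Fin (n + 1) → ℝ)) : Prop :=
  ∀ α : Fin (n + 1) → ℝ, (∀ i, 0 < α i) → ∃ E F : ℝ, 0 < E ∧
    ∀ t, 0 < V W (ones n) t → V W α (E * t + F) = V W (ones n) t

theorem Good.affEq (hW : Good W) (hC : Collinear W) : AffEq W := by
  intro α hα
  set a : Fin n → ℝ := fun i => α i.succ / α 0 with ha
  have hapos : ∀ i, 0 < a i := fun i => div_pos (hα _) (hα 0)
  have hone : ∀ i : Fin n, 0 < (fun _ : Fin n => (1 : ℝ)) i := fun _ => one_pos
  obtain ⟨E, F, hE, h⟩ := hW.lev_affine hC hone hapos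
  obtain ⟨k, hk, hαeq⟩ : ∃ k : ℝ, 0 < k ∧ α = fun i => k * one_cons a i := by
    refine ⟨α 0, hα 0, ?_⟩
    ext i
    refine Fin.cases ?_ (fun j => ?_) i
    · simp [one_cons]
    · simp only [one_cons, Fin.cons_succ, ha]
      have := (hα 0).ne'
      field_simp
  refine ⟨k * E, k * F, mul_pos hk hE, fun t ht => ?_⟩
  have e1 : k * E * t + k * F = k * (E * t + F) := by ring
  have e2 : V W α (k * (E * t + F)) = V W (one_cons a) (E * t + F) := by
    rw [hαeq]
    exact V_smul hk W (one_cons a) _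
  rw [e1, e2]
  rw [ones_eq] at ht ⊢
  set v := V W (one_cons (fun _ : Fin n => (1 : ℝ))) t with hv
  have h1 : t = lev W (fun _ => 1) v := hW.lev_unique hone ht hv.symm
  have h2 := h v ht
  rw [← h1] at h2
  rw [← h2]
  exact hW.V_lev hapos ht

lemma Good.exists_level_ones (hW : Good W) {v : ℝ} (hv : 0 < v) : ∃ t, V W (ones n) t = v := by
  rw [ones_eq]
  exact hW.exists_level (fun _ => one_pos) hv

end Pool.Agent.H30.Sccp
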