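import Pool.Agent.H30.Sccp.Coord

/-!
# Basic properties of caps of good sets
-/

open MeasureTheory MeasureTheory.Measure Set

namespace Pool.Agent.H30.Sccp

variable {n : ℕ} {W : Set (Fin (n + 1) → ℝ)} {α : Fin (n + 1) → ℝ}

lemma sum_update_add (α : Fin (n + 1) → ℝ) (j : Fin (n + 1)) (x : Fin (n + 1) → ℝ) :
    ∑ i, (Function.update α j (α j + 1)) i * x i = ∑ i, α i * x i + x j := by
  classical
  rw [← Finset.add_sum_erase Finset.univ (fun i => (Function.update α j (α j + 1)) i * x i)
      (Finset.mem_univ j), ← Finset.add_sum_erase Finset.univ (fun i => α i * x i)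
      (Finset.mem_univ j)]
  have : ∑ i ∈ Finset.univ.erase j, (Function.update α j (α j + 1)) i * x i =
      ∑ i ∈ Finset.univ.erase j, α i * x i := by
    apply Finset.sum_congr rfl
    intro i hi
    rw [Function.update_of_ne (Finset.ne_of_mem_erase hi)]
  rw [this]
  simp only [Function.update_self]
  ring

/-- Coordinates of points of caps are bounded below, linearly in `t`. -/
lemma Good.coord_lower (hW : Good W) (hα : ∀ i, 0 < α i) :
    ∃ m : Fin (n + 1) → ℝ, ∀ t, ∀ x ∈ cap W α t, ∀ j, m j - t ≤ x j := by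
  classical
  have h : ∀ j : Fin (n + 1), ∃ m : ℝ, ∀ x ∈ W, m ≤ ∑ i, α i * x i + x j := by
    intro j
    obtain ⟨m, hm⟩ := hW.bdd (Function.update α j (α j + 1)) (by
      intro i
      by_cases hij : i = j
      · subst hij; rw [Function.update_self]; linarith [hα i]
      · rw [Function.update_of_ne hij]; exact hα i)
    refine ⟨m, fun x hx => ?_⟩
    rw [← sum_update_add]
    exact hm x hx
  choose m hm using h
  refine ⟨m, fun t x hx j => ?_⟩
  have := hm j x hx.1
  have h2 := hx.2
  linarith

lemma Good.coord_upper (hW : Good W) (hα : ∀ i, 0 < α i) (t : ℝ) :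
    ∃ R : ℝ, ∀ x ∈ cap W α t, ∀ j, |x j| ≤ R := by
  classical
  obtain ⟨m, hm⟩ := hW.coord_lower hα
  -- lower bound by `-A`
  set A : ℝ := ∑ j, |m j - t| with hA
  have hlow : ∀ x ∈ cap W α t, ∀ j, -A ≤ x j := by
    intro x hx j
    have h1 := hm t x hx j
    have h2 : |m j - t| ≤ A := Finset.single_le_sum (f := fun j => |m j - t|)
      (fun i _ => abs_nonneg _) (Finset.mem_univ j)
    have h3 := neg_abs_le (m j - t)
    linarith
  have hA0 : 0 ≤ A := Finset.sum_nonneg (fun i _ => abs_nonneg _)
  set S : ℝ := ∑ i, α i with hS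
  have hup : ∀ x ∈ cap W α t, ∀ j, α j * x j ≤ |t| + A * S := by
    intro x hx j
    have h2 := hx.2
    rw [← Finset.add_sum_erase Finset.univ (fun i => α i * x i) (Finset.mem_univ j)] at h2
    have h3 : -(A * S) ≤ ∑ i ∈ Finset.univ.erase j, α i * x i := by
      have h4 : ∑ i ∈ Finset.univ.erase j, α i * (-A) ≤ ∑ i ∈ Finset.univ.erase j, α i * x i :=
        Finset.sum_le_sum (fun i _ => mul_le_mul_of_nonneg_left (hlow x hx i) (hα i).le)
      have h5 : ∑ i ∈ Finset.univ.erase j, α i ≤ S :=
        Finset.sum_le_sum_of_subset_of_nonneg (Finset.subset_univ _) (fun i _ _ => (hα i).le)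
      rw [← Finset.sum_mul] at h4
      nlinarith
    have := le_abs_self t
    linarith
  refine ⟨A + ∑ j, (|t| + A * S) / α j, fun x hx j => ?_⟩
  have hS0 : 0 ≤ S := Finset.sum_nonneg (fun i _ => (hα i).le)
  have hnn : ∀ j, 0 ≤ (|t| + A * S) / α j := fun j =>
    div_nonneg (by positivity) (hα j).le
  have h1 : x j ≤ (|t| + A * S) / α j := by
    rw [le_div_iff₀ (hα j)]
    have := hup x hx j
    linarith [mul_comm (α j) (x j)]
  have h2 : (|t| + A * S) / α j ≤ ∑ j, (|t| + A * S) / α j :=
    Finset.single_le_sum (f := fun j => (|t| + A * S) / α j) (fun i _ => hnn i)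
      (Finset.mem_univ j)
  have h0 : 0 ≤ ∑ j, (|t| + A * S) / α j := Finset.sum_nonneg (fun i _ => hnn i)
  rw [abs_le]
  constructor
  · have := hlow x hx j
    linarith
  · linarith

lemma Good.cap_bounded (hW : Good W) (hα : ∀ i, 0 < α i) (t : ℝ) :
    Bornology.IsBounded (cap W α t) := by
  obtain ⟨R, hR⟩ := hW.coord_upper hα t
  rw [isBounded_iff_forall_norm_le]
  refine ⟨|R|, fun x hx => ?_⟩
  rw [pi_norm_le_iff_of_nonneg (abs_nonneg R)]
  intro i
  rw [Real.norm_eq_abs]
  exact (hR x hx i).trans (le_abs_self R)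

lemma Good.cap_closed (hW : Good W) (t : ℝ) : IsClosed (cap W α t) := by
  have : cap W α t = W ∩ {x | ∑ i, α i * x i ≤ t} := rfl
  rw [this]
  exact hW.closed.inter (isClosed_le (by fun_prop) continuous_const)

lemma Good.cap_measurable (hW : Good W) (t : ℝ) : MeasurableSet (cap W α t) :=
  (hW.cap_closed t).measurableSet

lemma Good.cap_lt_top (hW : Good W) (hα : ∀ i, 0 < α i) (t : ℝ) :
    volume (cap W α t) < ⊤ :=
  (hW.cap_bounded hα t).measure_lt_top

lemma cap_mono (W : Set (Fin (n + 1) → ℝ)) (α : Fin (n + 1) → ℝ) {t t' : ℝ} (h : t ≤ t') :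
    cap W α t ⊆ cap W α t' :=
  fun _ hx => ⟨hx.1, hx.2.trans h⟩

lemma Good.V_mono (hW : Good W) (hα : ∀ i, 0 < α i) {t t' : ℝ} (h : t ≤ t') :
    V W α t ≤ V W α t' :=
  measureReal_mono (cap_mono W α h) (hW.cap_lt_top hα t').ne

lemma V_nonneg (W : Set (Fin (n + 1) → ℝ)) (α : Fin (n + 1) → ℝ) (t : ℝ) : 0 ≤ V W α t :=
  measureReal_nonneg

lemma cap_smul {lam : ℝ} (hlam : 0 < lam) (W : Set (Fin (n + 1) → ℝ)) (α : Fin (n + 1) → ℝ)
    (t : ℝ) : cap W (fun i => lam * α i) (lam * t) = cap W α t := by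
  ext x
  simp only [cap, mem_ofPred_eq]
  have : ∑ i, lam * α i * x i = lam * ∑ i, α i * x i := by
    rw [Finset.mul_sum]; exact Finset.sum_congr rfl (fun i _ => by ring)
  rw [this, mul_le_mul_iff_right₀ hlam]

lemma V_smul {lam : ℝ} (hlam : 0 < lam) (W : Set (Fin (n + 1) → ℝ)) (α : Fin (n + 1) → ℝ)
    (t : ℝ) : V W (fun i => lam * α i) (lam * t) = V W α t := by
  rw [V, V, cap_smul hlam]

/-- If a point of `W` lies strictly below level `t` then the cap at level `t` has positive
volume. -/
lemma Good.V_pos_of_mem (hW : Good W) (hα : ∀ i, 0 < α i) {x : Fin (n + 1) → ℝ} (hx : x ∈ W)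
    {t : ℝ} (ht : ∑ i, α i * x i < t) : 0 < V W α t := by
  classical
  set S : ℝ := ∑ i, α i with hS
  have hSpos : 0 < S := Finset.sum_pos (fun i _ => hα i) Finset.univ_nonempty
  set r : ℝ := (t - ∑ i, α i * x i) / S with hr
  have hrpos : 0 < r := div_pos (by linarith) hSpos
  have hsub : Set.pi Set.univ (fun i => Set.Ioo (x i) (x i + r)) ⊆ cap W α t := by
    intro z hz
    rw [Set.mem_univ_pi] at hz
    constructor
    · have := hW.up x hx (fun i => z i - x i) (fun i => by linarith [(hz i).1])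
      convert this using 1
      ext i; simp
    · have h1 : ∑ i, α i * z i ≤ ∑ i, α i * (x i + r) :=
        Finset.sum_le_sum (fun i _ => mul_le_mul_of_nonneg_left (hz i).2.le (hα i).le)
      have h2 : ∑ i, α i * (x i + r) = ∑ i, α i * x i + S * r := by
        rw [hS, Finset.sum_mul, ← Finset.sum_add_distrib]
        exact Finset.sum_congr rfl (fun i _ => by ring)
      have h3 : S * r = t - ∑ i, α i * x i := by
        rw [hr]; field_simp
      linarith
  have hpos : 0 < volume (Set.pi Set.univ (fun i => Set.Ioo (x i) (x i + r))) := by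
    apply IsOpen.measure_pos
    · exact isOpen_set_pi Set.finite_univ (fun i _ => isOpen_Ioo)
    · refine ⟨fun i => x i + r / 2, ?_⟩
      rw [Set.mem_univ_pi]
      intro i
      constructor <;> linarith
  rw [V, measureReal_def]
  exact ENNReal.toReal_pos ((hpos.trans_le (measure_mono hsub)).ne') (hW.cap_lt_top hα t).ne

lemma volume_hyperplane (hα : ∀ i, 0 < α i) (t : ℝ) :
    volume {x : Fin (n + 1) → ℝ | ∑ i, α i * x i = t} = 0 := by
  -- an affine hyperplane has measure zero
  have hS : 0 < ∑ i, α i * α i :=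
    Finset.sum_pos (fun i _ => mul_pos (hα i) (hα i)) Finset.univ_nonempty
  let l : (Fin (n + 1) → ℝ) →ₗ[ℝ] ℝ :=
    { toFun := fun x => ∑ i, α i * x i
      map_add' := fun x y => by
        simp only [Pi.add_apply, mul_add, Finset.sum_add_distrib]
      map_smul' := fun c x => by
        simp only [Pi.smul_apply, smul_eq_mul, RingHom.id_apply, Finset.mul_sum]
        exact Finset.sum_congr rfl (fun i _ => by ring) }
  let x0 : Fin (n + 1) → ℝ := fun i => t / (∑ i, α i * α i) * α i
  have hx0 : l x0 = t := by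
    change ∑ i, α i * (t / (∑ i, α i * α i) * α i) = t
    have : ∀ i, α i * (t / (∑ i, α i * α i) * α i) = (t / (∑ i, α i * α i)) * (α i * α i) :=
      fun i => by ring
    rw [Finset.sum_congr rfl (fun i _ => this i), ← Finset.mul_sum]
    exact div_mul_cancel₀ t hS.ne'
  have hker : LinearMap.ker l ≠ ⊤ := by
    intro h
    have : (α : Fin (n + 1) → ℝ) ∈ LinearMap.ker l := by rw [h]; trivial
    rw [LinearMap.mem_ker] at this
    change ∑ i, α i * α i = 0 at this
    linarith
  have h0 := Measure.addHaar_submodule (volume : Measure (Fin (n + 1) → ℝ)) (LinearMap.ker l) hker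
  have : {x : Fin (n + 1) → ℝ | ∑ i, α i * x i = t} =
      (fun x => x + (-x0)) ⁻¹' (LinearMap.ker l : Set (Fin (n + 1) → ℝ)) := by
    ext x
    simp only [mem_ofPred_eq, mem_preimage, SetLike.mem_coe, LinearMap.mem_ker, map_add, map_neg, hx0]
    change _ ↔ (∑ i, α i * x i) + -t = 0
    constructor <;> intro h <;> linarith
  rw [this, measure_preimage_add_right]
  exact h0

lemma Good.exists_mem_lt_of_V_pos (hα : ∀ i, 0 < α i) {t : ℝ}
    (h : 0 < V W α t) : ∃ x ∈ W, ∑ i, α i * x i < t := by
  by_contra hcon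
  push Not at hcon
  have hsub : cap W α t ⊆ {x : Fin (n + 1) → ℝ | ∑ i, α i * x i = t} := by
    intro x hx
    exact le_antisymm hx.2 (hcon x hx.1)
  have : volume (cap W α t) = 0 := measure_mono_null hsub (volume_hyperplane hα t)
  rw [V, measureReal_def, this] at h
  simp at h

lemma Good.V_strictMono (hW : Good W) (hα : ∀ i, 0 < α i) {t t' : ℝ} (h : t < t')
    (hpos : 0 < V W α t') : V W α t < V W α t' := by
  classical
  obtain ⟨x, hx, hxt⟩ := Good.exists_mem_lt_of_V_pos hα hpos
  set S : ℝ := ∑ i, α i with hS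
  have hSpos : 0 < S := Finset.sum_pos (fun i _ => hα i) Finset.univ_nonempty
  -- a box inside `W` between the levels `max t (α x)` and `t'`
  set a : ℝ := max t (∑ i, α i * x i) with ha
  have hat : a < t' := max_lt h hxt
  set r : ℝ := (a - ∑ i, α i * x i) / S with hr
  have hr0 : 0 ≤ r := div_nonneg (by rw [ha]; linarith [le_max_right t (∑ i, α i * x i)]) hSpos.le
  set q : ℝ := (t' - ∑ i, α i * x i) / S with hq
  have hrq : r < q := by
    rw [hr, hq]; exact div_lt_div_of_pos_right (by linarith) hSpos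
  have hsub : Set.pi Set.univ (fun i => Set.Ioo (x i + r) (x i + q)) ⊆
      cap W α t' \ cap W α t := by
    intro z hz
    rw [Set.mem_univ_pi] at hz
    have h2 : ∀ r, ∑ i, α i * (x i + r) = ∑ i, α i * x i + S * r := by
      intro r
      rw [hS, Finset.sum_mul, ← Finset.sum_add_distrib]
      exact Finset.sum_congr rfl (fun i _ => by ring)
    have hlt1 : ∑ i, α i * (x i + r) < ∑ i, α i * z i :=
      Finset.sum_lt_sum_of_nonempty Finset.univ_nonempty
        (fun i _ => mul_lt_mul_of_pos_left (hz i).1 (hα i))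
    have hlt2 : ∑ i, α i * z i < ∑ i, α i * (x i + q) :=
      Finset.sum_lt_sum_of_nonempty Finset.univ_nonempty
        (fun i _ => mul_lt_mul_of_pos_left (hz i).2 (hα i))
    have h3 : S * r = a - ∑ i, α i * x i := by
      rw [hr]; field_simp
    have h4 : S * q = t' - ∑ i, α i * x i := by
      rw [hq]; field_simp
    have hta : t ≤ a := le_max_left _ _
    rw [h2] at hlt1 hlt2
    refine ⟨⟨?_, by linarith⟩, ?_⟩
    · have := hW.up x hx (fun i => z i - x i) (fun i => by linarith [(hz i).1])
      convert this using 1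
      ext i; simp
    · intro hz2
      have := hz2.2
      linarith
  have hposb : 0 < volume (Set.pi Set.univ (fun i => Set.Ioo (x i + r) (x i + q))) := by
    apply IsOpen.measure_pos
    · exact isOpen_set_pi Set.finite_univ (fun i _ => isOpen_Ioo)
    · refine ⟨fun i => x i + (r + q) / 2, ?_⟩
      rw [Set.mem_univ_pi]
      intro i
      constructor <;> linarith
  have h1 : volume (cap W α t' \ cap W α t) = volume (cap W α t') - volume (cap W α t) :=
    measure_sdiff (cap_mono W α h.le) (hW.cap_measurable t).nullMeasurableSet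
      (hW.cap_lt_top hα t).ne
  have h2 : 0 < volume (cap W α t' \ cap W α t) := hposb.trans_le (measure_mono hsub)
  rw [h1] at h2
  have h3 := tsub_pos_iff_lt.mp h2
  rw [V, V, measureReal_def, measureReal_def]
  exact (ENNReal.toReal_lt_toReal (hW.cap_lt_top hα t).ne (hW.cap_lt_top hα t').ne).mpr h3

end Pool.Agent.H30.Sccp
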