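import Pool.Agent.H30.Sccp.Simplex

/-!
# The coordinates are bounded below
-/

open MeasureTheory MeasureTheory.Measure Set Filter Topology Pointwise

namespace Pool.Agent.H30.Sccp

variable {n : ℕ} {W : Set (Fin (n + 1) → ℝ)} {α : Fin (n + 1) → ℝ}

/-- Scaling bound for the volume function. -/
lemma Good.V_scale (hW : Good W) (h0 : (0 : Fin (n + 1) → ℝ) ∈ W) (hα : ∀ i, 0 < α i) {lam t : ℝ}
    (hlam : 1 ≤ lam) : V W α (lam * t) ≤ lam ^ (n + 1) * V W α t := by
  have hl0 : 0 < lam := by linarith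
  have hsub : cap W α (lam * t) ⊆ lam • cap W α t := by
    intro x hx
    rw [Set.mem_smul_set]
    refine ⟨lam⁻¹ • x, ⟨?_, ?_⟩, ?_⟩
    · have h1 : lam⁻¹ ≤ 1 := inv_le_one_of_one_le₀ hlam
      have := hW.convex hx.1 h0 (a := lam⁻¹) (b := 1 - lam⁻¹) (by positivity) (by linarith)
        (by ring)
      simpa using this
    · have h2 := hx.2
      have e : ∑ i, α i * (lam⁻¹ • x) i = lam⁻¹ * ∑ i, α i * x i := by
        rw [Finset.mul_sum]
        exact Finset.sum_congr rfl (fun i _ => by simp only [Pi.smul_apply, smul_eq_mul]; ring)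
      rw [e, inv_mul_le_iff₀ hl0]
      exact h2
    · rw [smul_smul, mul_inv_cancel₀ hl0.ne', one_smul]
  have h1 := measure_mono (μ := volume) hsub
  rw [Measure.addHaar_smul] at h1
  have hfin : Module.finrank ℝ (Fin (n + 1) → ℝ) = n + 1 := by simp
  rw [hfin] at h1
  have h2 := ENNReal.toReal_mono (ENNReal.mul_lt_top ENNReal.ofReal_lt_top
    (hW.cap_lt_top hα t)).ne h1
  rw [ENNReal.toReal_mul, ENNReal.toReal_ofReal (abs_nonneg _), abs_of_pos (by positivity)] at h2
  exact h2

/-- The excess of the volume function in direction `(1,…,1)`. -/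
noncomputable def exc (W : Set (Fin (n + 1) → ℝ)) (t : ℝ) : ℝ :=
  V W (ones n) t - kap n * t ^ (n + 1)

lemma Good.exc_two_mul (hW : Good W) (h0 : (0 : Fin (n + 1) → ℝ) ∈ W) (t : ℝ) :
    exc W (2 * t) ≤ 2 ^ (n + 1) * exc W t := by
  have := hW.V_scale h0 (ones_pos (n := n)) (lam := 2) (t := t) (by norm_num)
  rw [exc, exc, mul_pow]
  have e : 2 ^ (n + 1) * (V W (ones n) t - kap n * t ^ (n + 1)) =
      2 ^ (n + 1) * V W (ones n) t - kap n * (2 ^ (n + 1) * t ^ (n + 1)) := by ring
  rw [e]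
  linarith

/-- If a coordinate is unbounded below then the excess is large. -/
lemma Good.exc_large (hW : Good W) (h0 : (0 : Fin (n + 1) → ℝ) ∈ W) {i0 : Fin (n + 1)}
    (hun : ∀ R : ℝ, ∃ x ∈ W, x i0 < R) (R : ℝ) :
    ∃ T : ℝ, 0 < T ∧ ∀ t, T ≤ t → R * t ^ n ≤ exc W t := by
  classical
  set c : ℝ := (1 / (2 * (n + 1 : ℕ))) ^ n with hc
  have hcpos : 0 < c := by positivity
  obtain ⟨x, hx, hxR⟩ := hun (-(|R| / c) - 1)
  have hRc : 0 ≤ |R| / c := by positivity
  set S : ℝ := ∑ j, |x j| with hS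
  have hS0 : 0 ≤ S := Finset.sum_nonneg (fun _ _ => abs_nonneg _)
  refine ⟨2 * S + 1, by positivity, fun t ht => ?_⟩
  have ht0 : 0 < t := by linarith
  set r : ℝ := t / (2 * (n + 1 : ℕ)) with hr
  have hr0 : 0 < r := by positivity
  let B : Set (Fin (n + 1) → ℝ) :=
    Set.pi Set.univ (fun j => if j = i0 then Ico (x i0) 0 else Icc |x j| (|x j| + r))
  have hBmem : ∀ z ∈ B, (x i0 ≤ z i0 ∧ z i0 < 0) ∧ ∀ j, j ≠ i0 → |x j| ≤ z j ∧ z j ≤ |x j| + r := by
    intro z hz
    rw [Set.mem_univ_pi] at hz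
    constructor
    · have := hz i0
      rw [if_pos rfl] at this
      exact this
    · intro j hj
      have := hz j
      rw [if_neg hj] at this
      exact this
  have hBmeas : MeasurableSet B := by
    apply MeasurableSet.univ_pi
    intro j
    by_cases hj : j = i0
    · simp only [hj, if_true]; exact measurableSet_Ico
    · simp only [hj, if_false]; exact measurableSet_Icc
  have hBsub : B ⊆ cap W (ones n) t := by
    intro z hz
    obtain ⟨⟨h1, h2⟩, h3⟩ := hBmem z hz
    constructor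
    · have := hW.up x hx (fun i => z i - x i) (by
        intro i
        by_cases hi : i = i0
        · subst hi; linarith
        · have := (h3 i hi).1; have := le_abs_self (x i); linarith)
      convert this using 1
      ext i; simp
    · have h4 : ∀ j, ones n j * z j ≤ |x j| + r := by
        intro j
        simp only [ones, one_mul]
        by_cases hj : j = i0
        · subst hj; have := abs_nonneg (x j); linarith
        · exact (h3 j hj).2
      refine (Finset.sum_le_sum (fun j _ => h4 j)).trans ?_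
      rw [Finset.sum_add_distrib]
      simp only [Finset.sum_const, Finset.card_univ, Fintype.card_fin, nsmul_eq_mul]
      have : ((n + 1 : ℕ) : ℝ) * r = t / 2 := by
        rw [hr]; field_simp
      rw [this]
      linarith
  have hBdisj : Disjoint (cap (orth n) (ones n) t) B := by
    rw [Set.disjoint_left]
    intro z hz hz'
    have := (hBmem z hz').1.2
    exact absurd (hz.1 i0) (not_le.mpr this)
  have hvolB : volume.real B = (-(x i0)) * r ^ n := by
    rw [measureReal_def, volume_pi_pi]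
    rw [ENNReal.toReal_prod]
    rw [← Finset.mul_prod_erase Finset.univ _ (Finset.mem_univ i0)]
    have e1 : (volume (if i0 = i0 then Ico (x i0) 0 else Icc |x i0| (|x i0| + r))).toReal =
        -(x i0) := by
      rw [if_pos rfl, Real.volume_Ico, ENNReal.toReal_ofReal (by linarith)]
      ring
    rw [e1]
    congr 1
    have e2 : ∀ j ∈ Finset.univ.erase i0,
        (volume (if j = i0 then Ico (x i0) 0 else Icc |x j| (|x j| + r))).toReal = r := by
      intro j hj
      rw [if_neg (Finset.ne_of_mem_erase hj), Real.volume_Icc,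
        ENNReal.toReal_ofReal (by linarith)]
      ring
    rw [Finset.prod_congr rfl e2, Finset.prod_const, Finset.card_erase_of_mem (Finset.mem_univ _)]
    simp
  have horth : cap (orth n) (ones n) t ⊆ cap W (ones n) t :=
    fun z hz => ⟨hW.orth_sub h0 hz.1, hz.2⟩
  have h1 : V (orth n) (ones n) t + volume.real B ≤ V W (ones n) t := by
    rw [V, ← measureReal_union hBdisj hBmeas (orth_good.cap_lt_top ones_pos t).ne
      ((measure_mono hBsub).trans_lt (hW.cap_lt_top ones_pos t)).ne]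
    exact measureReal_mono (union_subset horth hBsub) (hW.cap_lt_top ones_pos t).ne
  rw [V_orth ones_pos ht0.le, hvolB] at h1
  simp only [ones, Finset.prod_const_one, div_one] at h1
  rw [exc]
  have h2 : R * t ^ n ≤ -(x i0) * r ^ n := by
    have e : r ^ n = c * t ^ n := by
      rw [hr, hc, ← mul_pow]; congr 1; ring
    rw [e]
    have h3 : R ≤ -(x i0) * c := by
      have h4 : |R| / c ≤ -(x i0) := by linarith
      rw [div_le_iff₀ hcpos] at h4
      exact (le_abs_self R).trans h4
    have htn : 0 ≤ t ^ n := by positivity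
    nlinarith
  linarith

lemma one_add_pow_sub_le' {u : ℝ} (h0 : 0 ≤ u) (h1 : u ≤ 1) (N : ℕ) :
    (1 + u) ^ N ≤ 1 + (2 ^ N - 1) * u := by
  induction N with
  | zero => simp
  | succ N ih =>
    have h2 : (1 : ℝ) ≤ 2 ^ N := one_le_pow₀ (by norm_num)
    rw [pow_succ, pow_succ]
    have h3 : (1 + u) ^ N * (1 + u) ≤ (1 + (2 ^ N - 1) * u) * (1 + u) :=
      mul_le_mul_of_nonneg_right ih (by linarith)
    have h4 : (2 ^ N - 1) * u * u ≤ (2 ^ N - 1) * u * 1 :=
      mul_le_mul_of_nonneg_left h1 (mul_nonneg (by linarith) h0)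
    nlinarith

lemma one_add_pow_sub_le {u : ℝ} (h0 : 0 ≤ u) (h1 : u ≤ 1) (N : ℕ) :
    (1 + u) ^ N ≤ 1 + 2 ^ N * u := by
  have := one_add_pow_sub_le' h0 h1 N
  nlinarith

/-- Comparison of the excess in direction `α`, `∏ α = 1`, with `exc`. -/
lemma Good.exc_alpha (hW : Good W) (h0 : (0 : Fin (n + 1) → ℝ) ∈ W) (hA : AffEq W)
    (hlarge : ∀ R : ℝ, ∃ T : ℝ, 0 < T ∧ ∀ t, T ≤ t → R * t ^ n ≤ exc W t)
    (hα : ∀ i, 0 < α i) (hprod : ∏ i, α i = 1) :
    ∃ T : ℝ, 0 < T ∧ ∀ t, T ≤ t →
      V W α t - kap n * t ^ (n + 1) ≤ (2 ^ (n + 1) + 1) * exc W t := by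
  obtain ⟨E, F, hE, h⟩ := hA α hα
  have hEp := hW.slope_pow h0 hα hE h
  rw [hprod] at hEp
  have hE1 : E = 1 := by
    rcases lt_trichotomy E 1 with h | h | h
    · have := pow_lt_one₀ hE.le h (Nat.succ_ne_zero n); rw [hEp] at this; linarith
    · exact h
    · have := one_lt_pow₀ h (Nat.succ_ne_zero n); rw [hEp] at this; linarith
  subst hE1
  obtain ⟨T, hT, hTe⟩ := hlarge (2 ^ (n + 1) * |F| * kap n)
  refine ⟨T + |F| + 1, by positivity, fun t ht => ?_⟩
  have hF := abs_nonneg F
  have ht0 : 0 < t := by linarith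
  have htF : |F| ≤ t := by linarith
  -- V W α t = V W 1 (t - F)
  have hpos : 0 < V W (ones n) (t - F) := by
    apply hW.V_pos_of_mem ones_pos h0
    have := le_abs_self F
    simp only [Pi.zero_apply, mul_zero, Finset.sum_const_zero]
    linarith
  have h1 := h (t - F) hpos
  have e1 : 1 * (t - F) + F = t := by ring
  rw [e1] at h1
  have h2 : V W (ones n) (t - F) ≤ V W (ones n) (t + |F|) :=
    hW.V_mono ones_pos (by have := neg_abs_le F; linarith)
  -- scaling
  set u : ℝ := |F| / t with hu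
  have hu0 : 0 ≤ u := by positivity
  have hu1 : u ≤ 1 := by rw [hu, div_le_one ht0]; exact htF
  have e2 : t + |F| = (1 + u) * t := by rw [hu]; field_simp
  have h3 := hW.V_scale h0 (ones_pos (n := n)) (lam := 1 + u) (t := t) (by linarith)
  rw [← e2] at h3
  have h4 := one_add_pow_sub_le hu0 hu1 (n + 1)
  have h5 : (1 + u) ^ (n + 1) ≤ 2 ^ (n + 1) :=
    pow_le_pow_left₀ (by linarith) (by linarith) _
  have h6 := hTe t (by linarith)
  have hk := kap_pos (n := n)
  have hV : V W (ones n) t = kap n * t ^ (n + 1) + exc W t := by rw [exc]; ring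
  have hexc : 0 ≤ exc W t := by
    have : 0 ≤ 2 ^ (n + 1) * |F| * kap n * t ^ n := by positivity
    linarith
  have htp : 0 < t ^ (n + 1) := by positivity
  rw [hV] at h3
  -- V α t ≤ (1+u)^N (κ t^N + e)
  have h7 : (1 + u) ^ (n + 1) * (kap n * t ^ (n + 1)) ≤
      (1 + 2 ^ (n + 1) * u) * (kap n * t ^ (n + 1)) :=
    mul_le_mul_of_nonneg_right h4 (by positivity)
  have h8 : (1 + u) ^ (n + 1) * exc W t ≤ 2 ^ (n + 1) * exc W t :=
    mul_le_mul_of_nonneg_right h5 hexc
  have e3 : u * t ^ (n + 1) = |F| * t ^ n := by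
    rw [hu, pow_succ]; field_simp
  have e4 : (1 + 2 ^ (n + 1) * u) * (kap n * t ^ (n + 1)) =
      kap n * t ^ (n + 1) + 2 ^ (n + 1) * |F| * kap n * t ^ n := by
    have : (1 + 2 ^ (n + 1) * u) * (kap n * t ^ (n + 1)) =
        kap n * t ^ (n + 1) + 2 ^ (n + 1) * kap n * (u * t ^ (n + 1)) := by ring
    rw [this, e3]; ring
  rw [mul_add] at h3
  rw [e4] at h7
  linarith

/-- The part of a cap where a given coordinate is negative. -/
def part (W : Set (Fin (n + 1) → ℝ)) (i : Fin (n + 1)) (t : ℝ) : Set (Fin (n + 1) → ℝ) :=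
  {x | x ∈ cap W (ones n) t ∧ x i < 0}

lemma Good.part_measurable (hW : Good W) (i : Fin (n + 1)) (t : ℝ) :
    MeasurableSet (part W i t) := by
  have : part W i t = cap W (ones n) t ∩ {x | x i < 0} := rfl
  rw [this]
  exact (hW.cap_measurable t).inter (measurableSet_lt (measurable_pi_apply i) measurable_const)

lemma Good.part_lt_top (hW : Good W) (i : Fin (n + 1)) (t : ℝ) :
    volume (part W i t) < ⊤ :=
  (measure_mono (fun _ hx => hx.1)).trans_lt (hW.cap_lt_top ones_pos t)

/-- The excess is at most the sum of the parts. -/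
lemma Good.exc_le_parts (hW : Good W) {t : ℝ} (ht : 0 ≤ t) :
    exc W t ≤ ∑ i, volume.real (part W i t) := by
  have hsub : cap W (ones n) t ⊆ cap (orth n) (ones n) t ∪ ⋃ i, part W i t := by
    intro x hx
    by_cases h : ∀ i, 0 ≤ x i
    · exact Or.inl ⟨h, hx.2⟩
    · push Not at h
      obtain ⟨i, hi⟩ := h
      exact Or.inr (mem_iUnion.mpr ⟨i, hx, hi⟩)
  have hfinU : volume (⋃ i, part W i t) < ⊤ :=
    (measure_mono (iUnion_subset (fun i _ hx => hx.1))).trans_lt (hW.cap_lt_top ones_pos t)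
  have h1 : V W (ones n) t ≤ V (orth n) (ones n) t + volume.real (⋃ i, part W i t) := by
    refine (measureReal_mono hsub ?_).trans (measureReal_union_le _ _)
    exact (measure_union_lt_top (orth_good.cap_lt_top ones_pos t) hfinU).ne
  have h2 : volume.real (⋃ i, part W i t) ≤ ∑ i, volume.real (part W i t) :=
    measureReal_iUnion_fintype_le _
  rw [V_orth ones_pos ht] at h1
  simp only [ones, Finset.prod_const_one, div_one] at h1
  rw [exc]
  linarith

/-- The functional with `L` in position `i` and `1/L` in position `j`. -/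
noncomputable def alt (i j : Fin (n + 1)) (L : ℝ) : Fin (n + 1) → ℝ :=
  fun l => 1 + (if l = i then L - 1 else 0) + (if l = j then L⁻¹ - 1 else 0)

lemma alt_prod {i j : Fin (n + 1)} (hij : i ≠ j) {L : ℝ} (hL : 0 < L) :
    ∏ l, alt i j L l = 1 := by
  have : ∀ l, alt i j L l = (if l = i then L else 1) * (if l = j then L⁻¹ else 1) := by
    intro l
    rw [alt]
    by_cases h1 : l = i
    · subst h1
      simp [hij]
    · by_cases h2 : l = j
      · subst h2; simp [h1]
      · simp [h1, h2]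
  rw [Finset.prod_congr rfl (fun l _ => this l), Finset.prod_mul_distrib,
    Finset.prod_ite_eq' Finset.univ i (fun _ => L), Finset.prod_ite_eq' Finset.univ j (fun _ => L⁻¹)]
  simp [hL.ne']

lemma alt_pos {i j : Fin (n + 1)} (hij : i ≠ j) {L : ℝ} (hL : 0 < L) : ∀ l, 0 < alt i j L l := by
  intro l
  have hLi : 0 < L⁻¹ := by positivity
  rw [alt]
  by_cases h1 : l = i
  · subst h1
    simp [hij, hL]
  · by_cases h2 : l = j
    · subst h2; simp [h1, hL]
    · simp [h1, h2]

lemma alt_sum (i j : Fin (n + 1)) (L : ℝ) (x : Fin (n + 1) → ℝ) :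
    ∑ l, alt i j L l * x l = ∑ l, x l + (L - 1) * x i + (L⁻¹ - 1) * x j := by
  simp only [alt, add_mul, one_mul, Finset.sum_add_distrib, ite_mul, zero_mul,
    Finset.sum_ite_eq', Finset.mem_univ, if_true]

/-- Many disjoint translates of a part fit in a cap in direction `alt`. -/
lemma Good.parts_le (hW : Good W) (h0 : (0 : Fin (n + 1) → ℝ) ∈ W) {i j : Fin (n + 1)}
    (hij : i ≠ j) (m : ℕ) (hm : 0 < m) :
    ∃ T : ℝ, 0 < T ∧ ∀ t, T ≤ t →
      m * volume.real (part W i t) ≤
        V W (alt i j (6 * m)) (2 * t) - kap n * (2 * t) ^ (n + 1) := by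
  classical
  set L : ℝ := 6 * m with hL
  have hmr : (1 : ℝ) ≤ m := by exact_mod_cast hm
  have hLpos : 0 < L := by positivity
  have hL1 : 1 ≤ L := by rw [hL]; linarith
  have hαpos := alt_pos hij hLpos
  obtain ⟨T, hT, hthin⟩ := hW.thin (ones_pos (n := n)) (δ := 1 / (2 * (n + 1 : ℕ)))
    (by positivity)
  refine ⟨T, hT, fun t ht => ?_⟩
  have ht0 : 0 < t := hT.trans_le ht
  have hlow : ∀ x ∈ cap W (ones n) t, ∀ l, -(t / (2 * (n + 1 : ℕ))) ≤ x l := by
    intro x hx l
    have := hthin t ht x hx l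
    have e : 1 / (2 * ((n + 1 : ℕ) : ℝ)) * t = t / (2 * (n + 1 : ℕ)) := by ring
    rw [e] at this
    exact this
  have hlow2 : ∀ x ∈ cap W (ones n) t, ∀ l, -(t / 2) ≤ x l := by
    intro x hx l
    have h1 := hlow x hx l
    have h2 : t / (2 * ((n + 1 : ℕ) : ℝ)) ≤ t / 2 := by
      apply div_le_div_of_nonneg_left ht0.le (by norm_num)
      have : (1 : ℝ) ≤ ((n + 1 : ℕ) : ℝ) := by exact_mod_cast Nat.succ_le_succ (Nat.zero_le n)
      linarith
    linarith
  have hhigh : ∀ x ∈ cap W (ones n) t, ∀ l, x l ≤ 3 * t / 2 := by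
    intro x hx l
    have h1 := hx.2
    simp only [ones, one_mul] at h1
    rw [← Finset.add_sum_erase Finset.univ (fun i => x i) (Finset.mem_univ l)] at h1
    have h2 : ∑ k ∈ Finset.univ.erase l, -(t / (2 * ((n + 1 : ℕ) : ℝ))) ≤
        ∑ k ∈ Finset.univ.erase l, x k := Finset.sum_le_sum (fun k _ => hlow x hx k)
    rw [Finset.sum_const, Finset.card_erase_of_mem (Finset.mem_univ _)] at h2
    simp only [Finset.card_univ, Fintype.card_fin, nsmul_eq_mul] at h2
    have h3 : ((n + 1 - 1 : ℕ) : ℝ) * (t / (2 * ((n + 1 : ℕ) : ℝ))) ≤ t / 2 := by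
      have hn1 : ((n + 1 - 1 : ℕ) : ℝ) ≤ ((n + 1 : ℕ) : ℝ) := by
        exact_mod_cast Nat.sub_le _ _
      calc ((n + 1 - 1 : ℕ) : ℝ) * (t / (2 * ((n + 1 : ℕ) : ℝ)))
          ≤ ((n + 1 : ℕ) : ℝ) * (t / (2 * ((n + 1 : ℕ) : ℝ))) :=
            mul_le_mul_of_nonneg_right hn1 (by positivity)
        _ = t / 2 := by field_simp
    linarith
  -- translates
  let c : Fin m → (Fin (n + 1) → ℝ) := fun k l => if l = j then 3 * t * (k : ℕ) else 0
  let P : Fin m → Set (Fin (n + 1) → ℝ) := fun k => (fun z => z - c k) ⁻¹' part W i t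
  have hPmeas : ∀ k, MeasurableSet (P k) := fun k =>
    (measurable_id.sub_const (c k)) (hW.part_measurable i t)
  have hPvol : ∀ k, volume (P k) = volume (part W i t) := by
    intro k
    have : P k = (fun z => z + (-(c k))) ⁻¹' part W i t := by
      ext z; simp [P, sub_eq_add_neg]
    rw [this, measure_preimage_add_right]
  have hPdisj : Pairwise (fun k k' => Disjoint (P k) (P k')) := by
    intro k k' hkk
    rw [Set.disjoint_left]
    intro z hz hz'
    have h1 : z - c k ∈ part W i t := hz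
    have h2 : z - c k' ∈ part W i t := hz'
    have a1 := hlow2 _ h1.1 j
    have a2 := hhigh _ h1.1 j
    have b1 := hlow2 _ h2.1 j
    have b2 := hhigh _ h2.1 j
    simp only [Pi.sub_apply, c, if_true] at a1 a2 b1 b2
    have hne : (k : ℕ) ≠ (k' : ℕ) := fun h => hkk (Fin.ext h)
    rcases Nat.lt_or_gt_of_ne hne with h | h
    · have h' : ((k : ℕ) : ℝ) + 1 ≤ ((k' : ℕ) : ℝ) := by exact_mod_cast h
      nlinarith
    · have h' : ((k' : ℕ) : ℝ) + 1 ≤ ((k : ℕ) : ℝ) := by exact_mod_cast h
      nlinarith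
  have hPsub : ∀ k, P k ⊆ cap W (alt i j L) (2 * t) := by
    intro k z hz
    have h1 : z - c k ∈ part W i t := hz
    set x := z - c k with hx
    have hzx : z = x + c k := by rw [hx]; abel
    have hck : ∀ l, 0 ≤ c k l := by
      intro l
      simp only [c]
      split_ifs
      · positivity
      · exact le_rfl
    constructor
    · rw [hzx]; exact hW.up x h1.1.1 _ hck
    · rw [alt_sum, hzx]
      simp only [Pi.add_apply, Finset.sum_add_distrib]
      have e1 : ∑ l, c k l = 3 * t * (k : ℕ) := by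
        simp only [c, Finset.sum_ite_eq', Finset.mem_univ, if_true]
      have e2 : c k i = 0 := by simp [c, hij]
      have e3 : c k j = 3 * t * (k : ℕ) := by simp [c]
      rw [e1, e2, e3]
      have h2 : ∑ l, x l ≤ t := by
        have := h1.1.2
        simpa [ones] using this
      have h3 : x i < 0 := h1.2
      have h4 := hlow2 x h1.1 j
      have hkm : ((k : ℕ) : ℝ) ≤ m := by exact_mod_cast k.2.le
      have h5 : (L - 1) * (x i + 0) ≤ 0 := by
        rw [add_zero]
        exact mul_nonpos_of_nonneg_of_nonpos (by linarith) h3.le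
      have hLi0 : 0 < L⁻¹ := by positivity
      have hLi1 : L⁻¹ ≤ 1 := inv_le_one_of_one_le₀ hL1
      have h6 : (1 - L⁻¹) * (-(t / 2)) ≤ (1 - L⁻¹) * x j :=
        mul_le_mul_of_nonneg_left h4 (by linarith)
      have h7 : L⁻¹ * (3 * t * (k : ℕ)) ≤ t / 2 := by
        have e5 : L⁻¹ * (3 * t * (k : ℕ)) ≤ L⁻¹ * (3 * t * m) := by
          apply mul_le_mul_of_nonneg_left _ hLi0.le
          apply mul_le_mul_of_nonneg_left hkm (by positivity)
        have e6 : L⁻¹ * (3 * t * m) = t / 2 := by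
          rw [hL]; field_simp; norm_num
        linarith
      nlinarith
  have hPorth : Disjoint (cap (orth n) (alt i j L) (2 * t)) (⋃ k, P k) := by
    rw [Set.disjoint_left]
    intro z hz hz'
    obtain ⟨k, hk⟩ := mem_iUnion.mp hz'
    have h1 : z - c k ∈ part W i t := hk
    have h2 := h1.2
    simp only [Pi.sub_apply, c, hij, if_false, sub_zero] at h2
    exact absurd (hz.1 i) (not_le.mpr h2)
  have hUsub : (⋃ k, P k) ⊆ cap W (alt i j L) (2 * t) := iUnion_subset hPsub
  have hUfin : volume (⋃ k, P k) ≠ ⊤ :=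
    ((measure_mono hUsub).trans_lt (hW.cap_lt_top hαpos (2 * t))).ne
  have hU : volume.real (⋃ k, P k) = m * volume.real (part W i t) := by
    rw [measureReal_def, measure_iUnion hPdisj hPmeas, tsum_fintype]
    simp only [hPvol, Finset.sum_const, Finset.card_univ, Fintype.card_fin, nsmul_eq_mul]
    rw [ENNReal.toReal_mul, measureReal_def]
    simp
  have h1 : V (orth n) (alt i j L) (2 * t) + volume.real (⋃ k, P k) ≤
      V W (alt i j L) (2 * t) := by
    rw [V, ← measureReal_union hPorth (MeasurableSet.iUnion hPmeas)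
      (orth_good.cap_lt_top hαpos (2 * t)).ne hUfin]
    apply measureReal_mono _ (hW.cap_lt_top hαpos (2 * t)).ne
    exact union_subset (fun z hz => ⟨hW.orth_sub h0 hz.1, hz.2⟩) hUsub
  rw [V_orth hαpos (by positivity), alt_prod hij hLpos, div_one, hU] at h1
  linarith

/-- The coordinates are bounded below on `W`. -/
theorem Good.coord_bdd (hn : 1 ≤ n) (hW : Good W) (h0 : (0 : Fin (n + 1) → ℝ) ∈ W)
    (hA : AffEq W) (i0 : Fin (n + 1)) : ∃ R : ℝ, ∀ x ∈ W, R ≤ x i0 := by
  classical
  by_contra hcon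
  push Not at hcon
  have : Nontrivial (Fin (n + 1)) := Fin.nontrivial_iff_two_le.mpr (by omega)
  have hlarge := hW.exc_large h0 hcon
  set m : ℕ := (n + 1) * (2 ^ (n + 1) + 1) * 2 ^ (n + 1) + 1 with hm
  have hmpos : 0 < m := by omega
  -- for each i a threshold
  have hi : ∀ i : Fin (n + 1), ∃ T : ℝ, 0 < T ∧ ∀ t, T ≤ t →
      m * volume.real (part W i t) ≤ (2 ^ (n + 1) + 1) * 2 ^ (n + 1) * exc W t := by
    intro i
    obtain ⟨j, hj⟩ := exists_ne i
    have hL : (0 : ℝ) < 6 * m := by positivity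
    obtain ⟨T1, hT1, h1⟩ := hW.parts_le h0 hj.symm m hmpos
    obtain ⟨T2, hT2, h2⟩ := hW.exc_alpha h0 hA hlarge (alt_pos hj.symm hL) (alt_prod hj.symm hL)
    refine ⟨max T1 T2, lt_max_of_lt_left hT1, fun t ht => ?_⟩
    have ht1 := h1 t ((le_max_left _ _).trans ht)
    have ht0 : 0 < t := hT1.trans_le ((le_max_left _ _).trans ht)
    have ht2 := h2 (2 * t) (by have := (le_max_right T1 T2).trans ht; linarith)
    have h3 := hW.exc_two_mul h0 t
    calc m * volume.real (part W i t)
        ≤ (2 ^ (n + 1) + 1) * exc W (2 * t) := ht1.trans ht2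
      _ ≤ (2 ^ (n + 1) + 1) * (2 ^ (n + 1) * exc W t) :=
          mul_le_mul_of_nonneg_left h3 (by positivity)
      _ = _ := by ring
  choose T hT hTi using hi
  obtain ⟨T', hT', h'⟩ := hlarge 1
  set t : ℝ := T' + ∑ i, T i with ht
  have hsum : ∀ i, T i ≤ t := by
    intro i
    have : T i ≤ ∑ i, T i := Finset.single_le_sum (fun i _ => (hT i).le) (Finset.mem_univ i)
    linarith
  have hsum0 : 0 ≤ ∑ i, T i := Finset.sum_nonneg (fun i _ => (hT i).le)
  have ht0 : 0 < t := by linarith
  have hexc : 0 < exc W t := by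
    have := h' t (by linarith)
    have : 0 < 1 * t ^ n := by positivity
    linarith
  have h1 := hW.exc_le_parts ht0.le
  have h2 : m * ∑ i, volume.real (part W i t) ≤
      ∑ _i : Fin (n + 1), (2 ^ (n + 1) + 1) * 2 ^ (n + 1) * exc W t := by
    rw [Finset.mul_sum]
    exact Finset.sum_le_sum (fun i _ => hTi i t (hsum i))
  rw [Finset.sum_const] at h2
  simp only [Finset.card_univ, Fintype.card_fin, nsmul_eq_mul] at h2
  have h3 : (m : ℝ) * exc W t ≤ m * ∑ i, volume.real (part W i t) :=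
    mul_le_mul_of_nonneg_left h1 (by positivity)
  have h4 : (m : ℝ) = ((n + 1 : ℕ) : ℝ) * ((2 ^ (n + 1) + 1) * 2 ^ (n + 1)) + 1 := by
    rw [hm]; push_cast; ring
  rw [h4] at h2 h3
  nlinarith

end Pool.Agent.H30.Sccp
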