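import Pool.Agent.H30.Sccp.Bounded

/-!
# Classification of good sets with affinely equivalent volume functions
-/

open MeasureTheory MeasureTheory.Measure Set Filter Topology

namespace Pool.Agent.H30.Sccp

variable {n : ℕ} {W : Set (Fin (n + 1) → ℝ)} {α : Fin (n + 1) → ℝ}

lemma affEq_sh_aux {E F : ℝ}
    (h : ∀ t, 0 < V W (ones n) t → V W α (E * t + F) = V W (ones n) t)
    (a : Fin (n + 1) → ℝ) (t : ℝ) (ht : 0 < V (sh W a) (ones n) t) :
    V (sh W a) α (E * t + (E * (∑ i, ones n i * a i) + F - ∑ i, α i * a i)) =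
      V (sh W a) (ones n) t := by
  rw [V_sh] at ht ⊢
  rw [V_sh, ← h _ ht]
  congr 1
  ring

lemma AffEq.sh (hA : AffEq W) (a : Fin (n + 1) → ℝ) : AffEq (sh W a) := by
  intro α hα
  obtain ⟨E, F, hE, h⟩ := hA α hα
  exact ⟨E, _, hE, fun t ht => affEq_sh_aux h a t ht⟩

theorem Good.slope_pow' (hW : Good W) (hα : ∀ i, 0 < α i) {E F : ℝ} (hE : 0 < E)
    (h : ∀ t, 0 < V W (ones n) t → V W α (E * t + F) = V W (ones n) t) :
    E ^ (n + 1) = ∏ i, α i := by
  obtain ⟨x, hx⟩ := hW.nonempty
  apply (hW.sh x).slope_pow (by change 0 + x ∈ W; simpa using hx) hα hE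
  exact fun t ht => affEq_sh_aux h x t ht

theorem Good.coord_bdd' (hn : 1 ≤ n) (hW : Good W) (hA : AffEq W) (i0 : Fin (n + 1)) :
    ∃ R : ℝ, ∀ x ∈ W, R ≤ x i0 := by
  obtain ⟨x, hx⟩ := hW.nonempty
  obtain ⟨R, hR⟩ := (hW.sh x).coord_bdd hn (by change 0 + x ∈ W; simpa using hx) (hA.sh x) i0
  refine ⟨R + x i0, fun y hy => ?_⟩
  have := hR (y - x) (by change y - x + x ∈ W; simpa using hy)
  simp only [Pi.sub_apply] at this
  linarith

/-- Normalised sets: contained in the orthant and touching all its facets at infinity. -/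
structure Normed (W : Set (Fin (n + 1) → ℝ)) : Prop where
  good : Good W
  sub : W ⊆ orth n
  inf : ∀ i, ∀ ε : ℝ, 0 < ε → ∃ x ∈ W, x i < ε

lemma Normed.V_le (hW : Normed W) (hα : ∀ i, 0 < α i) {t : ℝ} (ht : 0 ≤ t) :
    V W α t ≤ kap n * t ^ (n + 1) / ∏ i, α i := by
  rw [← V_orth hα ht]
  exact measureReal_mono (fun x hx => ⟨hW.sub hx.1, hx.2⟩) (orth_good.cap_lt_top hα t).ne

lemma orth_coord_le (hα : ∀ i, 0 < α i) {t : ℝ} {x : Fin (n + 1) → ℝ}
    (hx : x ∈ cap (orth n) α t) (l : Fin (n + 1)) : x l ≤ t / α l := by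
  classical
  rw [le_div_iff₀ (hα l)]
  have h1 : α l * x l ≤ ∑ i, α i * x i :=
    Finset.single_le_sum (f := fun i => α i * x i)
      (fun i _ => mul_nonneg (hα i).le (hx.1 i)) (Finset.mem_univ l)
  have := hx.2
  linarith [mul_comm (α l) (x l)]

/-- Volume of a box, in product form. -/
lemma box_vol {c : Fin (n + 1) → ℝ} (hc : ∀ i, 0 ≤ c i) :
    volume.real (Set.pi Set.univ (fun i => Icc (0 : ℝ) (c i))) = ∏ i, c i := by
  rw [measureReal_def, volume_pi_pi, ENNReal.toReal_prod]
  refine Finset.prod_congr rfl (fun i _ => ?_)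
  rw [Real.volume_Icc, sub_zero, ENNReal.toReal_ofReal (hc i)]

lemma slab_vol (hα : ∀ i, 0 < α i) {t δ : ℝ} (ht : 0 < t) (hδ : 0 ≤ δ) (j : Fin (n + 1)) :
    volume.real {z | z ∈ cap (orth n) α t ∧ z j < δ} ≤
      t ^ (n + 1) / (∏ i, α i) * (δ * α j / t) := by
  classical
  have hαt : ∀ l, 0 < t / α l := fun l => div_pos ht (hα l)
  set c : Fin (n + 1) → ℝ := fun l => t / α l * (if l = j then δ * α l / t else 1) with hc
  have hc0 : ∀ i, 0 ≤ c i := by
    intro i
    simp only [hc]
    have := hαt i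
    have := hα i
    split_ifs <;> positivity
  have hsub : {z | z ∈ cap (orth n) α t ∧ z j < δ} ⊆
      Set.pi Set.univ (fun i => Icc (0 : ℝ) (c i)) := by
    intro z hz
    rw [Set.mem_univ_pi]
    intro l
    refine ⟨hz.1.1 l, ?_⟩
    simp only [hc]
    split_ifs with hl
    · subst hl
      have e : t / α l * (δ * α l / t) = δ := by
        have := (hα l).ne'
        field_simp
      rw [e]
      exact hz.2.le
    · rw [mul_one]
      exact orth_coord_le hα hz.1 l
  have hfin : volume (Set.pi Set.univ (fun i => Icc (0 : ℝ) (c i))) ≠ ⊤ := by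
    rw [volume_pi_pi]
    exact ENNReal.prod_ne_top (fun i _ => by rw [Real.volume_Icc]; exact ENNReal.ofReal_ne_top)
  refine (measureReal_mono hsub hfin).trans (le_of_eq ?_)
  rw [box_vol hc0]
  simp only [hc]
  rw [Finset.prod_mul_distrib, Finset.prod_ite_eq' Finset.univ j, Finset.prod_div_distrib]
  simp

lemma corner_vol (hα : ∀ i, 0 < α i) {t M : ℝ} (ht : 0 < t) (hM : 0 ≤ M)
    (p : Fin (n + 1) × Fin (n + 1)) :
    volume.real {z | z ∈ cap (orth n) α t ∧ p.1 ≠ p.2 ∧ z p.1 < M ∧ z p.2 < M} ≤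
      t ^ (n + 1) / (∏ i, α i) * ((M * α p.1 / t) * (M * α p.2 / t)) := by
  classical
  obtain ⟨j, k⟩ := p
  have hP : 0 < ∏ i, α i := Finset.prod_pos (fun i _ => hα i)
  have hαj := hα j
  have hαk := hα k
  by_cases hjk : j = k
  · subst hjk
    have : {z | z ∈ cap (orth n) α t ∧ (j, j).1 ≠ (j, j).2 ∧ z (j, j).1 < M ∧ z (j, j).2 < M} =
        (∅ : Set (Fin (n + 1) → ℝ)) := by
      ext z; simp
    rw [this, measureReal_empty]
    simp only
    positivity
  have hαt : ∀ l, 0 < t / α l := fun l => div_pos ht (hα l)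
  set c : Fin (n + 1) → ℝ := fun l => t / α l * ((if l = j then M * α l / t else 1) *
    (if l = k then M * α l / t else 1)) with hc
  have hc0 : ∀ i, 0 ≤ c i := by
    intro i
    simp only [hc]
    have := hαt i
    have := hα i
    split_ifs <;> positivity
  have hsub : {z | z ∈ cap (orth n) α t ∧ (j, k).1 ≠ (j, k).2 ∧ z (j, k).1 < M ∧ z (j, k).2 < M} ⊆
      Set.pi Set.univ (fun i => Icc (0 : ℝ) (c i)) := by
    intro z hz
    rw [Set.mem_univ_pi]
    intro l
    refine ⟨hz.1.1 l, ?_⟩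
    simp only [hc]
    have hlpos := (hα l).ne'
    by_cases hl : l = j
    · subst hl
      rw [if_pos rfl, if_neg hjk]
      have e : t / α l * (M * α l / t * 1) = M := by field_simp
      rw [e]
      exact hz.2.2.1.le
    · by_cases hl' : l = k
      · subst hl'
        rw [if_neg hl, if_pos rfl]
        have e : t / α l * (1 * (M * α l / t)) = M := by field_simp
        rw [e]
        exact hz.2.2.2.le
      · rw [if_neg hl, if_neg hl', one_mul, mul_one]
        exact orth_coord_le hα hz.1 l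
  have hfin : volume (Set.pi Set.univ (fun i => Icc (0 : ℝ) (c i))) ≠ ⊤ := by
    rw [volume_pi_pi]
    exact ENNReal.prod_ne_top (fun i _ => by rw [Real.volume_Icc]; exact ENNReal.ofReal_ne_top)
  refine (measureReal_mono hsub hfin).trans (le_of_eq ?_)
  rw [box_vol hc0]
  simp only [hc]
  rw [Finset.prod_mul_distrib, Finset.prod_mul_distrib, Finset.prod_ite_eq' Finset.univ j,
    Finset.prod_ite_eq' Finset.univ k, Finset.prod_div_distrib]
  simp

/-- The volume function of a normalised set is asymptotically that of the orthant, to second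
order. -/
lemma Normed.V_ge (hW : Normed W) (hα : ∀ i, 0 < α i) {ε : ℝ} (hε : 0 < ε) :
    ∃ T : ℝ, ∀ t, T ≤ t → kap n * (t - ε) ^ (n + 1) / (∏ i, α i) ≤ V W α t := by
  classical
  have hk := kap_pos (n := n)
  have hP : 0 < ∏ i, α i := Finset.prod_pos (fun i _ => hα i)
  set S : ℝ := ∑ i, α i with hS
  have hSpos : 0 < S := Finset.sum_pos (fun i _ => hα i) Finset.univ_nonempty
  set δ : ℝ := kap n * ε / (2 * S) with hδ
  have hδpos : 0 < δ := by positivity
  choose x hxW hxδ using fun i => hW.inf i δ hδpos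
  set M : ℝ := 1 + ∑ i, ∑ j, |x i j| with hM
  have hM1 : ∀ i j, x i j < M := by
    intro i j
    have h1 : |x i j| ≤ ∑ j, |x i j| :=
      Finset.single_le_sum (f := fun j => |x i j|) (fun _ _ => abs_nonneg _) (Finset.mem_univ j)
    have h2 : ∑ j, |x i j| ≤ ∑ i, ∑ j, |x i j| :=
      Finset.single_le_sum (f := fun i => ∑ j, |x i j|)
        (fun _ _ => Finset.sum_nonneg (fun _ _ => abs_nonneg _)) (Finset.mem_univ i)
    have h3 := le_abs_self (x i j)
    linarith
  have hM0 : 0 < M := by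
    have : 0 ≤ ∑ i, ∑ j, |x i j| :=
      Finset.sum_nonneg (fun _ _ => Finset.sum_nonneg (fun _ _ => abs_nonneg _))
    linarith
  refine ⟨ε + 2 * (M ^ 2 * S ^ 2) / (kap n * ε), fun t ht => ?_⟩
  have hq : 0 < 2 * (M ^ 2 * S ^ 2) / (kap n * ε) := by positivity
  have ht0 : 0 < t := by linarith
  have htε : ε ≤ t := by linarith
  have htq : 2 * (M ^ 2 * S ^ 2) / (kap n * ε) ≤ t := by linarith
  set A : Fin (n + 1) → Set (Fin (n + 1) → ℝ) :=
    fun j => {z | z ∈ cap (orth n) α t ∧ z j < δ} with hA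
  set B : Fin (n + 1) × Fin (n + 1) → Set (Fin (n + 1) → ℝ) :=
    fun p => {z | z ∈ cap (orth n) α t ∧ p.1 ≠ p.2 ∧ z p.1 < M ∧ z p.2 < M} with hB
  have hcover : cap (orth n) α t ⊆ cap W α t ∪ ((⋃ j, A j) ∪ ⋃ p, B p) := by
    intro z hz
    by_cases hzW : z ∈ W
    · exact Or.inl ⟨hzW, hz.2⟩
    right
    have key : ∀ i, ∃ j, z j < x i j := by
      intro i
      by_contra hcon
      push Not at hcon
      apply hzW
      have := hW.good.up (x i) (hxW i) (fun j => z j - x i j) (fun j => by linarith [hcon j])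
      convert this using 1
      ext j; simp
    obtain ⟨j, hj⟩ := key 0
    obtain ⟨k, hk'⟩ := key j
    by_cases hjk : j = k
    · subst hjk
      exact Or.inl (mem_iUnion.mpr ⟨j, hz, hk'.trans (hxδ j)⟩)
    · exact Or.inr (mem_iUnion.mpr ⟨(j, k), hz, hjk, hj.trans (hM1 _ _), hk'.trans (hM1 _ _)⟩)
  have hfinO := orth_good.cap_lt_top hα t
  have hfinA : volume (⋃ j, A j) < ⊤ :=
    (measure_mono (iUnion_subset (fun j _ hz => hz.1))).trans_lt hfinO
  have hfinB : volume (⋃ p, B p) < ⊤ :=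
    (measure_mono (iUnion_subset (fun p _ hz => hz.1))).trans_lt hfinO
  have h1 : V (orth n) α t ≤ V W α t + (volume.real (⋃ j, A j) + volume.real (⋃ p, B p)) := by
    refine (measureReal_mono hcover ?_).trans ((measureReal_union_le _ _).trans ?_)
    · exact (measure_union_lt_top (hW.good.cap_lt_top hα t)
        (measure_union_lt_top hfinA hfinB)).ne
    · have := measureReal_union_le (μ := (volume : Measure (Fin (n + 1) → ℝ)))
        (⋃ j, A j) (⋃ p, B p)
      have e : volume.real (cap W α t) = V W α t := rfl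
      rw [e]
      linarith
  have h2 : volume.real (⋃ j, A j) ≤ t ^ (n + 1) / (∏ i, α i) * (δ * S / t) := by
    refine (measureReal_iUnion_fintype_le _).trans ?_
    refine (Finset.sum_le_sum (fun j _ => slab_vol hα ht0 hδpos.le j)).trans (le_of_eq ?_)
    rw [← Finset.mul_sum, ← Finset.sum_div, ← Finset.mul_sum]
  have h3 : volume.real (⋃ p, B p) ≤ t ^ (n + 1) / (∏ i, α i) * (M ^ 2 * S ^ 2 / t ^ 2) := by
    refine (measureReal_iUnion_fintype_le _).trans ?_
    refine (Finset.sum_le_sum (fun p _ => corner_vol hα ht0 hM0.le p)).trans (le_of_eq ?_)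
    rw [← Finset.mul_sum, Fintype.sum_prod_type]
    congr 1
    simp only
    rw [← Finset.sum_mul_sum, ← Finset.sum_div, ← Finset.mul_sum]
    ring
  rw [V_orth hα ht0.le] at h1
  -- final comparison
  set u : ℝ := ε / t with hu
  have hu0 : 0 ≤ u := by positivity
  have hu1 : u ≤ 1 := by rw [hu, div_le_one ht0]; exact htε
  have e1 : t - ε = t * (1 - u) := by rw [hu]; field_simp
  have h4 : (1 - u) ^ (n + 1) ≤ 1 - u := by
    rw [pow_succ]
    have : (1 - u) ^ n ≤ 1 := pow_le_one₀ (by linarith) (by linarith)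
    nlinarith
  have h5 : δ * S / t = kap n * u / 2 := by
    rw [hδ, hu]; field_simp
  have h6 : M ^ 2 * S ^ 2 / t ^ 2 ≤ kap n * u / 2 := by
    rw [div_le_iff₀ (by positivity)] at htq
    rw [div_le_iff₀ (by positivity), hu]
    have : kap n * (ε / t) / 2 * t ^ 2 = kap n * ε * t / 2 := by field_simp
    rw [this]
    nlinarith
  have h7 : kap n * (t - ε) ^ (n + 1) / (∏ i, α i) ≤
      t ^ (n + 1) / (∏ i, α i) * (kap n * (1 - u)) := by
    rw [e1, mul_pow]
    have e2 : kap n * (t ^ (n + 1) * (1 - u) ^ (n + 1)) / (∏ i, α i) =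
        t ^ (n + 1) / (∏ i, α i) * (kap n * (1 - u) ^ (n + 1)) := by ring
    rw [e2]
    apply mul_le_mul_of_nonneg_left _ (by positivity)
    exact mul_le_mul_of_nonneg_left h4 hk.le
  have h8 : kap n * t ^ (n + 1) / (∏ i, α i) = t ^ (n + 1) / (∏ i, α i) * kap n := by ring
  rw [h8] at h1
  rw [h5] at h2
  have h9 : t ^ (n + 1) / (∏ i, α i) * (M ^ 2 * S ^ 2 / t ^ 2) ≤
      t ^ (n + 1) / (∏ i, α i) * (kap n * u / 2) :=
    mul_le_mul_of_nonneg_left h6 (by positivity)
  have h10 : t ^ (n + 1) / (∏ i, α i) * (kap n * (1 - u)) =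
      t ^ (n + 1) / (∏ i, α i) * kap n - t ^ (n + 1) / (∏ i, α i) * (kap n * u / 2)
        - t ^ (n + 1) / (∏ i, α i) * (kap n * u / 2) := by ring
  rw [h10] at h7
  linarith

lemma pow_le_pow_iff' {N : ℕ} {a b : ℝ} (hb : 0 ≤ b) (h : a ^ (N + 1) ≤ b ^ (N + 1)) :
    a ≤ b := by
  by_contra hcon
  push Not at hcon
  exact absurd h (not_le.mpr (pow_lt_pow_left₀ hcon hb (Nat.succ_ne_zero N)))

/-- For normalised sets the affine equivalence has no constant term. -/
theorem Normed.affEq (hW : Normed W) (hA : AffEq W) (hα : ∀ i, 0 < α i) :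
    ∃ E : ℝ, 0 < E ∧ E ^ (n + 1) = ∏ i, α i ∧
      ∀ t, 0 < V W (ones n) t → V W α (E * t) = V W (ones n) t := by
  have hk := kap_pos (n := n)
  have hP : 0 < ∏ i, α i := Finset.prod_pos (fun i _ => hα i)
  obtain ⟨E, F, hE, h⟩ := hA α hα
  have hEp := hW.good.slope_pow' hα hE h
  refine ⟨E, hE, hEp, fun t ht => ?_⟩
  have hones : ∏ i, ones n i = 1 := by simp [ones]
  -- F ≤ ε
  have hF1 : ∀ ε : ℝ, 0 < ε → F ≤ ε := by
    intro ε hε
    obtain ⟨T, hT⟩ := hW.V_ge hα hε
    obtain ⟨x, hx⟩ := hW.good.nonempty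
    set t : ℝ := max (1 + ∑ i, ones n i * x i) (max 0 ((T - F) / E)) with ht
    have ht1 : ∑ i, ones n i * x i < t := by have := le_max_left (1 + ∑ i, ones n i * x i) (max 0 ((T - F) / E)); linarith
    have ht2 : 0 ≤ t := (le_max_left _ _).trans (le_max_right _ _)
    have ht3 : (T - F) / E ≤ t := (le_max_right _ _).trans (le_max_right _ _)
    rw [div_le_iff₀ hE] at ht3
    have hV := hW.good.V_pos_of_mem ones_pos hx ht1
    have h1 := h t hV
    have h2 := hT (E * t + F) (by linarith)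
    have h3 := hW.V_le (ones_pos (n := n)) ht2
    rw [h1] at h2
    rw [hones, div_one] at h3
    have h4 := h2.trans h3
    rw [div_le_iff₀ hP, ← hEp] at h4
    have h5 : (E * t + F - ε) ^ (n + 1) ≤ (t * E) ^ (n + 1) := by
      rw [mul_pow t E]
      have : kap n * (E * t + F - ε) ^ (n + 1) ≤ kap n * (t ^ (n + 1) * E ^ (n + 1)) := by
        linarith
      exact le_of_mul_le_mul_left this hk
    have h6 := pow_le_pow_iff' (by positivity) h5
    linarith
  have hF2 : ∀ ε : ℝ, 0 < ε → -(E * ε) ≤ F := by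
    intro ε hε
    obtain ⟨T, hT⟩ := hW.V_ge (ones_pos (n := n)) hε
    obtain ⟨x, hx⟩ := hW.good.nonempty
    set t : ℝ := max (1 + ∑ i, ones n i * x i) (max T (-F / E)) with ht
    have ht1 : ∑ i, ones n i * x i < t := by have := le_max_left (1 + ∑ i, ones n i * x i) (max T (-F / E)); linarith
    have ht2 : T ≤ t := (le_max_left _ _).trans (le_max_right _ _)
    have ht3 : -F / E ≤ t := (le_max_right _ _).trans (le_max_right _ _)
    rw [div_le_iff₀ hE] at ht3
    have hV := hW.good.V_pos_of_mem ones_pos hx ht1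
    have h1 := h t hV
    have h2 := hT t ht2
    have h3 := hW.V_le hα (t := E * t + F) (by linarith)
    rw [h1] at h3
    rw [hones, div_one] at h2
    have h4 := h2.trans h3
    rw [le_div_iff₀ hP, ← hEp] at h4
    have h5 : ((t - ε) * E) ^ (n + 1) ≤ (E * t + F) ^ (n + 1) := by
      rw [mul_pow]
      have : kap n * ((t - ε) ^ (n + 1) * E ^ (n + 1)) ≤ kap n * (E * t + F) ^ (n + 1) := by
        linarith
      exact le_of_mul_le_mul_left this hk
    have h6 := pow_le_pow_iff' (by linarith) h5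
    linarith
  have hF : F = 0 := by
    apply le_antisymm
    · exact le_of_forall_pos_le_add (fun ε hε => by simpa using hF1 ε hε)
    · apply le_of_forall_pos_le_add
      intro ε hε
      have := hF2 (ε / E) (by positivity)
      have e : E * (ε / E) = ε := by field_simp
      rw [e] at this
      linarith
  have := h t ht
  rw [hF, add_zero] at this
  exact this

lemma amgm {a : Fin (n + 1) → ℝ} (ha : ∀ i, 0 ≤ a i) :
    ((n + 1 : ℕ) : ℝ) ^ (n + 1) * ∏ i, a i ≤ (∑ i, a i) ^ (n + 1) := by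
  have h := Real.geom_mean_le_arith_mean_weighted Finset.univ
    (fun _ : Fin (n + 1) => (1 : ℝ) / ((n + 1 : ℕ) : ℝ)) a (fun i _ => by positivity)
    (by simp only [Finset.sum_const, Finset.card_univ, Fintype.card_fin, nsmul_eq_mul]; field_simp)
    (fun i _ => ha i)
  rw [Real.finsetProd_rpow _ _ (fun i _ => ha i), ← Finset.mul_sum] at h
  have hN : (0 : ℝ) < ((n + 1 : ℕ) : ℝ) := by positivity
  have hp : 0 ≤ ∏ i, a i := Finset.prod_nonneg (fun i _ => ha i)
  have h1 := pow_le_pow_left₀ (Real.rpow_nonneg hp _) h (n + 1)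
  rw [← Real.rpow_natCast ((∏ i, a i) ^ (1 / ((n + 1 : ℕ) : ℝ))) (n + 1), ← Real.rpow_mul hp,
    one_div_mul_cancel hN.ne', Real.rpow_one, mul_pow, one_div, inv_pow] at h1
  rw [← le_inv_mul_iff₀ (by positivity)]
  exact h1

/-- Classification of normalised sets. -/
theorem Normed.classify (hW : Normed W) (hA : AffEq W) :
    ∃ c : ℝ, 0 ≤ c ∧ W = {x | (∀ i, 0 ≤ x i) ∧ c ≤ ∏ i, x i} := by
  classical
  have hN : (0 : ℝ) < ((n + 1 : ℕ) : ℝ) := by positivity
  set T1 : Set ℝ := (fun x : Fin (n + 1) → ℝ => ∑ i, ones n i * x i) '' W with hT1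
  set c1 : ℝ := sInf T1 with hc1
  have hbdd : BddBelow T1 := by
    refine ⟨0, ?_⟩
    rintro _ ⟨x, hx, rfl⟩
    exact Finset.sum_nonneg (fun i _ => mul_nonneg (ones_pos i).le (hW.sub hx i))
  have hne : T1.Nonempty := hW.good.nonempty.image _
  have hc1nn : 0 ≤ c1 := by
    apply le_csInf hne
    rintro _ ⟨x, hx, rfl⟩
    exact Finset.sum_nonneg (fun i _ => mul_nonneg (ones_pos i).le (hW.sub hx i))
  have hVpos : ∀ t, 0 < V W (ones n) t ↔ c1 < t := by
    intro t
    constructor
    · intro h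
      obtain ⟨x, hx, hxt⟩ := Good.exists_mem_lt_of_V_pos ones_pos h
      exact (csInf_le hbdd ⟨x, hx, rfl⟩).trans_lt hxt
    · intro h
      obtain ⟨_, ⟨x, hx, rfl⟩, hxt⟩ := exists_lt_of_csInf_lt hne h
      exact hW.good.V_pos_of_mem ones_pos hx hxt
  -- lower bound for all functionals
  have hlow : ∀ α : Fin (n + 1) → ℝ, (∀ i, 0 < α i) → ∀ E : ℝ, 0 < E → E ^ (n + 1) = ∏ i, α i →
      ∀ x ∈ W, E * c1 ≤ ∑ i, α i * x i := by
    intro α hα E hE hEp x hx
    obtain ⟨E', hE', hEp', h⟩ := hW.affEq hA hα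
    have hEE : E' = E := by
      apply le_antisymm
      · exact pow_le_pow_iff' hE.le (by rw [hEp, hEp'])
      · exact pow_le_pow_iff' hE'.le (by rw [hEp, hEp'])
    subst hEE
    by_contra hcon
    push Not at hcon
    obtain ⟨s, hs1, hs2⟩ := exists_between hcon
    have hVs := hW.good.V_pos_of_mem hα hx hs1
    obtain ⟨t, ht⟩ := hW.good.exists_level_ones hVs
    have h1 : 0 < V W (ones n) t := by rw [ht]; exact hVs
    have h2 := h t h1
    rw [ht] at h2
    have h3 : E' * t = s := by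
      rcases lt_trichotomy (E' * t) s with h4 | h4 | h4
      · have := hW.good.V_strictMono hα h4 hVs; rw [h2] at this; exact absurd this (lt_irrefl _)
      · exact h4
      · have := hW.good.V_strictMono hα h4 (by rw [h2]; exact hVs)
        rw [h2] at this; exact absurd this (lt_irrefl _)
    have h4 := (hVpos t).mp h1
    have h5 : E' * c1 < E' * t := mul_lt_mul_of_pos_left h4 hE
    linarith
  have hatt : ∀ α : Fin (n + 1) → ℝ, (∀ i, 0 < α i) → ∀ E : ℝ, 0 < E → E ^ (n + 1) = ∏ i, α i →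
      ∀ η : ℝ, 0 < η → ∃ x ∈ W, ∑ i, α i * x i < E * c1 + η := by
    intro α hα E hE hEp η hη
    obtain ⟨E', hE', hEp', h⟩ := hW.affEq hA hα
    have hEE : E' = E := by
      apply le_antisymm
      · exact pow_le_pow_iff' hE.le (by rw [hEp, hEp'])
      · exact pow_le_pow_iff' hE'.le (by rw [hEp, hEp'])
    subst hEE
    have h1 : 0 < V W (ones n) (c1 + η / E') := (hVpos _).mpr (by
      have : 0 < η / E' := by positivity
      linarith)
    have h2 := h _ h1
    have h3 : 0 < V W α (E' * (c1 + η / E')) := by rw [h2]; exact h1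
    obtain ⟨x, hx, hxt⟩ := Good.exists_mem_lt_of_V_pos hα h3
    refine ⟨x, hx, hxt.trans_le (le_of_eq ?_)⟩
    field_simp
  refine ⟨(c1 / ((n + 1 : ℕ) : ℝ)) ^ (n + 1), by positivity, ?_⟩
  apply Subset.antisymm
  · intro x hx
    have hx0 : ∀ i, 0 ≤ x i := hW.sub hx
    refine ⟨hx0, ?_⟩
    -- approximate
    have hη : ∀ η : ℝ, 0 < η → (c1 / ((n + 1 : ℕ) : ℝ)) ^ (n + 1) ≤ ∏ i, (x i + η) := by
      intro η hη
      have hxη : ∀ i, 0 < x i + η := fun i => by linarith [hx0 i]
      have hQ : 0 < ∏ i, (x i + η) := Finset.prod_pos (fun i _ => hxη i)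
      set α : Fin (n + 1) → ℝ := fun i => (x i + η)⁻¹ with hα
      have hαpos : ∀ i, 0 < α i := fun i => inv_pos.mpr (hxη i)
      obtain ⟨E, hE, hEp, -⟩ := hW.affEq hA hαpos
      have h1 := hlow α hαpos E hE hEp x hx
      have h2 : ∑ i, α i * x i ≤ ((n + 1 : ℕ) : ℝ) := by
        have : ∀ i, α i * x i ≤ 1 := by
          intro i
          simp only [hα]
          rw [inv_mul_le_iff₀ (hxη i)]
          linarith
        refine (Finset.sum_le_sum (fun i _ => this i)).trans (le_of_eq ?_)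
        simp
      have h3 : E * (c1 / ((n + 1 : ℕ) : ℝ)) ≤ 1 := by
        rw [← mul_div_assoc, div_le_one hN]
        linarith
      have h4 : (E * (c1 / ((n + 1 : ℕ) : ℝ))) ^ (n + 1) ≤ 1 :=
        pow_le_one₀ (by positivity) h3
      rw [mul_pow, hEp] at h4
      simp only [hα, Finset.prod_inv_distrib] at h4
      rw [inv_mul_le_iff₀ hQ, mul_one] at h4
      exact h4
    have hlim : Tendsto (fun η : ℝ => ∏ i, (x i + η)) (𝓝[>] 0) (𝓝 (∏ i, (x i + 0))) := by
      apply Tendsto.mono_left _ nhdsWithin_le_nhds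
      apply Continuous.tendsto
      fun_prop
    have h5 := ge_of_tendsto hlim (by
      filter_upwards [self_mem_nhdsWithin] with η hη'
      exact hη η hη')
    simpa using h5
  · rintro x ⟨hx0, hxc⟩
    by_contra hxW
    obtain ⟨f, u, hfx, hfW⟩ := geometric_hahn_banach_point_closed hW.good.convex hW.good.closed hxW
    -- coordinates of f
    set β : Fin (n + 1) → ℝ := fun i => f (Pi.single i 1) with hβ
    have hf : ∀ z, f z = ∑ i, β i * z i := by
      intro z
      have := f.toLinearMap.pi_apply_eq_sum_univ z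
      change f z = _ at this
      rw [this]
      refine Finset.sum_congr rfl (fun i _ => ?_)
      have e : (fun j => if i = j then (1 : ℝ) else 0) = Pi.single i 1 := by
        ext j
        simp only [Pi.single_apply, eq_comm]
      rw [smul_eq_mul, mul_comm, e]
      rfl
    obtain ⟨w, hw⟩ := hW.good.nonempty
    have hβ0 : ∀ i, 0 ≤ β i := by
      intro i
      by_contra hneg
      push Not at hneg
      -- move far along e_i
      set s : ℝ := (f w - u) / (-β i) with hs
      have hfw := hfW w hw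
      have hs0 : 0 < s := div_pos (by linarith) (by linarith)
      have hmem := hW.good.up w hw (s • Pi.single i 1) (by
        intro j
        simp only [Pi.smul_apply, smul_eq_mul, Pi.single_apply]
        split_ifs
        · linarith
        · simp)
      have h1 := hfW _ hmem
      rw [map_add, map_smul, smul_eq_mul] at h1
      have h2 : s * f (Pi.single i 1) = u - f w := by
        change s * β i = _
        rw [hs]
        have : β i ≠ 0 := hneg.ne
        field_simp
        ring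
      rw [h2] at h1
      linarith
    -- perturb
    set g : ℝ := u - f x with hg
    have hg0 : 0 < g := by linarith
    set s : ℝ := ∑ i, x i with hs
    have hs0 : 0 ≤ s := Finset.sum_nonneg (fun i _ => hx0 i)
    set η : ℝ := g / (2 * (s + 1)) with hη
    have hη0 : 0 < η := by positivity
    set β' : Fin (n + 1) → ℝ := fun i => β i + η with hβ'
    have hβ'pos : ∀ i, 0 < β' i := fun i => by have := hβ0 i; simp only [hβ']; linarith
    obtain ⟨E, hE, hEp, -⟩ := hW.affEq hA hβ'pos
    have hsum : ∀ z : Fin (n + 1) → ℝ, ∑ i, β' i * z i = f z + η * ∑ i, z i := by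
      intro z
      rw [hf z, Finset.mul_sum, ← Finset.sum_add_distrib]
      exact Finset.sum_congr rfl (fun i _ => by simp only [hβ']; ring)
    -- inf over W
    have h1 : ∀ z ∈ W, u ≤ ∑ i, β' i * z i := by
      intro z hz
      rw [hsum z]
      have h2 := hfW z hz
      have h3 : 0 ≤ ∑ i, z i := Finset.sum_nonneg (fun i _ => hW.sub hz i)
      have : 0 ≤ η * ∑ i, z i := mul_nonneg hη0.le h3
      linarith
    have h2 : u ≤ E * c1 := by
      apply le_of_forall_pos_le_add
      intro ε hε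
      obtain ⟨z, hz, hzt⟩ := hatt β' hβ'pos E hE hEp ε hε
      exact (h1 z hz).trans hzt.le
    have h3 : ∑ i, β' i * x i < u := by
      rw [hsum x, ← hs]
      have h4 : η * s ≤ g / 2 := by
        rw [hη]
        rw [div_mul_eq_mul_div, div_le_div_iff₀ (by positivity) (by norm_num)]
        nlinarith
      linarith
    -- AM-GM
    have h5 := amgm (a := fun i => β' i * x i) (fun i => mul_nonneg (hβ'pos i).le (hx0 i))
    rw [Finset.prod_mul_distrib, ← hEp] at h5
    have h6 : (E * c1) ^ (n + 1) ≤ (∑ i, β' i * x i) ^ (n + 1) := by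
      refine le_trans ?_ h5
      rw [div_pow, div_le_iff₀ (by positivity)] at hxc
      rw [mul_pow]
      have hEn : 0 ≤ E ^ (n + 1) := by positivity
      nlinarith
    have h7 := pow_le_pow_iff' (Finset.sum_nonneg
      (fun i _ => mul_nonneg (hβ'pos i).le (hx0 i))) h6
    linarith

/-- Classification of good sets whose volume functions are affinely equivalent. -/
theorem Good.classify (hn : 1 ≤ n) (hW : Good W) (hA : AffEq W) :
    ∃ (d : Fin (n + 1) → ℝ) (c : ℝ), 0 ≤ c ∧
      W = {x | (∀ i, 0 ≤ x i - d i) ∧ c ≤ ∏ i, (x i - d i)} := by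
  classical
  have hb : ∀ i : Fin (n + 1), BddBelow ((fun x : Fin (n + 1) → ℝ => x i) '' W) := by
    intro i
    obtain ⟨R, hR⟩ := hW.coord_bdd' hn hA i
    refine ⟨R, ?_⟩
    rintro _ ⟨x, hx, rfl⟩
    exact hR x hx
  set d : Fin (n + 1) → ℝ := fun i => sInf ((fun x : Fin (n + 1) → ℝ => x i) '' W) with hd
  have hN : Normed (Sccp.sh W d) := by
    refine ⟨hW.sh d, ?_, ?_⟩
    · intro x hx i
      have : d i ≤ (x + d) i := csInf_le (hb i) ⟨x + d, hx, rfl⟩
      simp only [Pi.add_apply] at this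
      linarith
    · intro i ε hε
      obtain ⟨_, ⟨x, hx, rfl⟩, hxi⟩ := exists_lt_of_csInf_lt
        (s := (fun x : Fin (n + 1) → ℝ => x i) '' W) (hW.nonempty.image _)
        (show sInf ((fun x : Fin (n + 1) → ℝ => x i) '' W) < d i + ε by
          simp only [hd]; linarith)
      refine ⟨x - d, by change x - d + d ∈ W; simpa using hx, ?_⟩
      simp only [Pi.sub_apply]
      linarith
  obtain ⟨c, hc, hWc⟩ := hN.classify (hA.sh d)
  refine ⟨d, c, hc, ?_⟩
  ext x
  have h1 : x ∈ W ↔ x - d ∈ Sccp.sh W d := by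
    change x ∈ W ↔ x - d + d ∈ W
    simp
  rw [h1, hWc]
  simp

end Pool.Agent.H30.Sccp
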