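import Pool.Agent.H30.Sccp.Stmts

/-!
# Module CONV: the sets `∏ x_i ≥ c` have the section-centroid collinearity property
-/

open MeasureTheory MeasureTheory.Measure Set

namespace Pool.Agent.H30.Sccp

namespace ConvAux

variable {n : ℕ}

/-- The model set in coordinates. -/
def mdl (n : ℕ) (c : ℝ) : Set (Fin (n + 1) → ℝ) :=
  {w | (∀ i, 0 ≤ w i) ∧ c ≤ ∏ i, w i}

lemma isClosed_mdl (c : ℝ) : IsClosed (mdl n c) := by
  have h1 : IsClosed {w : Fin (n + 1) → ℝ | ∀ i, 0 ≤ w i} := by
    have : {w : Fin (n + 1) → ℝ | ∀ i, 0 ≤ w i} = ⋂ i, {w | 0 ≤ w i} := by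
      ext w; simp
    rw [this]
    exact isClosed_iInter fun i => isClosed_le continuous_const (continuous_apply i)
  have h2 : IsClosed {w : Fin (n + 1) → ℝ | c ≤ ∏ i, w i} :=
    isClosed_le continuous_const (continuous_finsetProd _ fun i _ => continuous_apply i)
  exact h1.inter h2

lemma mdl_up {c : ℝ} {w k : Fin (n + 1) → ℝ} (hw : w ∈ mdl n c) (hk : ∀ i, 0 ≤ k i) :
    w + k ∈ mdl n c := by
  refine ⟨fun i => add_nonneg (hw.1 i) (hk i), hw.2.trans ?_⟩
  exact Finset.prod_le_prod (fun i _ => hw.1 i) fun i _ => le_add_of_nonneg_right (hk i)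

lemma mdl_nonempty {c : ℝ} (hc : 0 < c) : (fun _ => 1 + c) ∈ mdl n c := by
  refine ⟨fun i => by positivity, ?_⟩
  rw [Finset.prod_const, Finset.card_univ, Fintype.card_fin]
  have h1 : (1 : ℝ) ≤ 1 + c := by linarith
  calc c ≤ 1 + c := by linarith
    _ = (1 + c) ^ 1 := (pow_one _).symm
    _ ≤ (1 + c) ^ (n + 1) := pow_le_pow_right₀ h1 (by omega)

/-- The symmetry of the model set and the functional attached to a permutation. -/
noncomputable def sym (α : Fin (n + 1) → ℝ) (hα : ∀ i, 0 < α i) (σ : Equiv.Perm (Fin (n + 1))) :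
    (Fin (n + 1) → ℝ) ≃ₗ[ℝ] (Fin (n + 1) → ℝ) where
  toFun w := fun k => α (σ k) / α k * w (σ k)
  invFun w := fun k => α (σ.symm k) / α k * w (σ.symm k)
  map_add' w v := by ext k; simp [mul_add]
  map_smul' r w := by ext k; simp; ring
  left_inv w := by
    ext k
    have h1 := (hα k).ne'
    have h2 := (hα (σ.symm k)).ne'
    simp only [Equiv.apply_symm_apply]
    field_simp
  right_inv w := by
    ext k
    have h1 := (hα k).ne'
    have h2 := (hα (σ k)).ne'
    simp only [Equiv.symm_apply_apply]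
    field_simp

lemma sym_apply (α : Fin (n + 1) → ℝ) (hα : ∀ i, 0 < α i) (σ : Equiv.Perm (Fin (n + 1)))
    (w : Fin (n + 1) → ℝ) (k : Fin (n + 1)) :
    sym α hα σ w k = α (σ k) / α k * w (σ k) := rfl

lemma sum_sym (α : Fin (n + 1) → ℝ) (hα : ∀ i, 0 < α i) (σ : Equiv.Perm (Fin (n + 1)))
    (w : Fin (n + 1) → ℝ) :
    ∑ i, α i * sym α hα σ w i = ∑ i, α i * w i := by
  have : ∀ i, α i * sym α hα σ w i = (fun j => α j * w j) (σ i) := by
    intro i
    have h1 := (hα i).ne'
    rw [sym_apply]
    field_simp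
  rw [Finset.sum_congr rfl fun i _ => this i]
  exact Equiv.sum_comp σ fun j => α j * w j

lemma prod_sym (α : Fin (n + 1) → ℝ) (hα : ∀ i, 0 < α i) (σ : Equiv.Perm (Fin (n + 1)))
    (w : Fin (n + 1) → ℝ) :
    ∏ i, sym α hα σ w i = ∏ i, w i := by
  have h0 : ∏ i, α i ≠ 0 := Finset.prod_ne_zero_iff.2 fun i _ => (hα i).ne'
  have h1 : ∏ i, α (σ i) = ∏ i, α i := Equiv.prod_comp σ α
  have h2 : ∏ i, w (σ i) = ∏ i, w i := Equiv.prod_comp σ w
  calc ∏ i, sym α hα σ w i = ∏ i, α (σ i) / α i * w (σ i) := rfl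
    _ = (∏ i, α (σ i)) / (∏ i, α i) * ∏ i, w (σ i) := by
        rw [Finset.prod_mul_distrib, Finset.prod_div_distrib]
    _ = ∏ i, w i := by rw [h1, h2, div_self h0, one_mul]

lemma sym_mem_iff (α : Fin (n + 1) → ℝ) (hα : ∀ i, 0 < α i) (σ : Equiv.Perm (Fin (n + 1)))
    (c : ℝ) (w : Fin (n + 1) → ℝ) :
    sym α hα σ w ∈ mdl n c ↔ w ∈ mdl n c := by
  unfold mdl
  simp only [Set.mem_ofPred_eq, prod_sym]
  refine and_congr_left fun _ => ⟨fun h i => ?_, fun h i => ?_⟩
  · have := h (σ.symm i)
    rw [sym_apply, Equiv.apply_symm_apply] at this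
    exact nonneg_of_mul_nonneg_right this (div_pos (hα _) (hα _))
  · rw [sym_apply]
    exact mul_nonneg (div_pos (hα _) (hα _)).le (h _)

/-- The point of the hyperplane over `y`. -/
noncomputable def lift (α : Fin (n + 1) → ℝ) (t : ℝ) (y : Fin n → ℝ) : Fin (n + 1) → ℝ :=
  Fin.cons ((t - ∑ i : Fin n, α i.succ * y i) / α 0) y

lemma continuous_lift (α : Fin (n + 1) → ℝ) (t : ℝ) : Continuous (lift α t) := by
  unfold lift
  refine continuous_pi fun i => ?_
  refine Fin.cases ?_ (fun j => ?_) i
  · simp only [Fin.cons_zero]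
    fun_prop
  · simp only [Fin.cons_succ]
    exact continuous_apply j

lemma lift_tail (α : Fin (n + 1) → ℝ) (hα : α 0 ≠ 0) (w : Fin (n + 1) → ℝ) :
    lift α (∑ i, α i * w i) (fun i => w i.succ) = w := by
  unfold lift
  ext i
  refine Fin.cases ?_ (fun j => ?_) i
  · rw [Fin.cons_zero, Fin.sum_univ_succ]
    field_simp
    ring
  · rw [Fin.cons_succ]

lemma lift_add (α : Fin (n + 1) → ℝ) (hα : α 0 ≠ 0) (t : ℝ) (y : Fin n → ℝ)
    (v : Fin (n + 1) → ℝ) (hv : ∑ i, α i * v i = 0) :
    lift α t (y + fun i => v i.succ) = lift α t y + v := by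
  unfold lift
  ext i
  refine Fin.cases ?_ (fun j => ?_) i
  · rw [Fin.sum_univ_succ] at hv
    simp only [Fin.cons_zero, Pi.add_apply, mul_add, Finset.sum_add_distrib]
    field_simp
    linarith
  · simp only [Fin.cons_succ, Pi.add_apply]

lemma mem_shadow_iff (W : Set (Fin (n + 1) → ℝ)) (α : Fin (n + 1) → ℝ) (t : ℝ) (y : Fin n → ℝ) :
    y ∈ shadow W α t ↔ lift α t y ∈ W := Iff.rfl

lemma average_translate {S : Set (Fin n → ℝ)} (hS : IsCompact S) (hv : volume S ≠ 0)
    (u : Fin n → ℝ) :
    (⨍ y in (fun y => y - u) ⁻¹' S, y) = (⨍ y in S, y) + u := by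
  have hmp : MeasurePreserving (fun y : Fin n → ℝ => y - u) volume volume :=
    measurePreserving_sub_right volume u
  have hemb : MeasurableEmbedding (fun y : Fin n → ℝ => y - u) :=
    (Homeomorph.subRight u).measurableEmbedding
  have hvol : volume.real ((fun y => y - u) ⁻¹' S) = volume.real S := by
    unfold Measure.real
    rw [hmp.measure_preimage hS.measurableSet.nullMeasurableSet]
  have hint : ∫ y in (fun y => y - u) ⁻¹' S, y = ∫ y in S, (y + u) := by
    have := hmp.setIntegral_preimage_emb hemb (fun y => y + u) S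
    rw [← this]
    simp
  have hne : volume.real S ≠ 0 := by
    unfold Measure.real
    exact ENNReal.toReal_ne_zero.2 ⟨hv, hS.measure_lt_top.ne⟩
  have hI : IntegrableOn (fun y : Fin n → ℝ => y) S volume :=
    continuousOn_id.integrableOn_compact hS
  have hC : IntegrableOn (fun _ : Fin n → ℝ => u) S volume :=
    continuousOn_const.integrableOn_compact hS
  rw [setAverage_eq, setAverage_eq, hvol, hint, integral_add hI hC, setIntegral_const,
    smul_add, smul_smul, inv_mul_cancel₀ hne, one_smul]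

end ConvAux

open ConvAux

variable {n : ℕ}

/-- Centroids of sections of translated model sets are fixed by the symmetries. -/
theorem ConvAux.centroid_fixed (hH : Stmts.Haus)
    (L : EuclideanSpace ℝ (Fin (n + 1)) ≃ₗ[ℝ] (Fin (n + 1) → ℝ))
    (o : EuclideanSpace ℝ (Fin (n + 1))) (c : ℝ) (α : Fin (n + 1) → ℝ) (hα : ∀ i, 0 < α i)
    (t : ℝ)
    (hpos : ∃ U : Set (EuclideanSpace ℝ (Fin (n + 1))), IsOpen U ∧
      (∀ x ∈ U, L (x - o) ∈ mdl n c) ∧ ∃ x ∈ U, ∑ i, α i * L x i = t)
    (σ : Equiv.Perm (Fin (n + 1))) :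
    sym α hα σ (L (centroid n {x | L (x - o) ∈ mdl n c ∧ ∑ i, α i * L x i = t} - o)) =
      L (centroid n {x | L (x - o) ∈ mdl n c ∧ ∑ i, α i * L x i = t} - o) := by
  have hα0 : α 0 ≠ 0 := (hα 0).ne'
  set P := sym α hα σ with hP
  set W' : Set (Fin (n + 1) → ℝ) := {w | w - L o ∈ mdl n c} with hW'
  set W'' : Set (Fin (n + 1) → ℝ) := {w | w - P (L o) ∈ mdl n c} with hW''
  set v : Fin (n + 1) → ℝ := P (L o) - L o with hv
  have hvs : ∑ i, α i * v i = 0 := by
    rw [hv]
    simp only [Pi.sub_apply, mul_sub, Finset.sum_sub_distrib]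
    rw [hP, sum_sym, sub_self]
  -- the section in both coordinate systems
  have hS1 : {x | L (x - o) ∈ mdl n c ∧ ∑ i, α i * L x i = t} =
      {x | L x ∈ W' ∧ ∑ i, α i * L x i = t} := by
    ext x
    simp only [Set.mem_ofPred_eq, hW', map_sub]
  have hS2 : {x | L (x - o) ∈ mdl n c ∧ ∑ i, α i * L x i = t} =
      {x | (L.trans P) x ∈ W'' ∧ ∑ i, α i * (L.trans P) x i = t} := by
    ext x
    simp only [Set.mem_ofPred_eq, hW'', LinearEquiv.trans_apply]
    rw [← map_sub P, ← map_sub L, hP, sym_mem_iff, sum_sym]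
  -- the two shadows
  have hsh : shadow W'' α t = (fun y => y - fun i : Fin n => v i.succ) ⁻¹' shadow W' α t := by
    ext y
    rw [mem_preimage, mem_shadow_iff, mem_shadow_iff]
    have : lift α t y = lift α t (y - fun i : Fin n => v i.succ) + v := by
      rw [← lift_add α hα0 t _ v hvs, sub_add_cancel]
    rw [this, hW', hW'']
    simp only [Set.mem_ofPred_eq]
    rw [hv]
    have : lift α t (y - fun i : Fin n => (P (L o) - L o) i.succ) + (P (L o) - L o) - P (L o) =
      lift α t (y - fun i : Fin n => (P (L o) - L o) i.succ) - L o := by abel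
    rw [this]
  have hclosed : IsClosed (shadow W' α t) := by
    have : shadow W' α t = (fun y => lift α t y - L o) ⁻¹' mdl n c := by
      ext y
      rw [mem_shadow_iff]
      rfl
    rw [this]
    exact (isClosed_mdl c).preimage ((continuous_lift α t).sub continuous_const)
  have hbdd : Bornology.IsBounded (shadow W' α t) := by
    -- bounded above and below coordinatewise
    have key : ∀ y ∈ shadow W' α t, ∀ i : Fin n, (L o) i.succ ≤ y i ∧
        y i ≤ (t - α 0 * (L o) 0 - ∑ j : Fin n, α j.succ * (L o) j.succ) / α i.succ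
          + (L o) i.succ := by
      intro y hy i
      have hy' : lift α t y - L o ∈ mdl n c := hy
      have h0 : (L o) 0 ≤ (t - ∑ i : Fin n, α i.succ * y i) / α 0 := by
        have := hy'.1 0
        simp only [lift, Pi.sub_apply, Fin.cons_zero] at this
        linarith
      have hs : ∀ j : Fin n, (L o) j.succ ≤ y j := by
        intro j
        have := hy'.1 j.succ
        simp only [lift, Pi.sub_apply, Fin.cons_succ] at this
        linarith
      refine ⟨hs i, ?_⟩
      rw [le_div_iff₀ (hα 0)] at h0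
      have h1 : α i.succ * (y i - (L o) i.succ) ≤
          ∑ j : Fin n, α j.succ * (y j - (L o) j.succ) :=
        Finset.single_le_sum (f := fun j : Fin n => α j.succ * (y j - (L o) j.succ))
          (fun j _ => mul_nonneg (hα _).le (sub_nonneg.2 (hs j))) (Finset.mem_univ i)
      simp only [mul_sub, Finset.sum_sub_distrib] at h1
      rw [← _root_.sub_le_iff_le_add, le_div_iff₀ (hα _)]
      nlinarith
    refine (Metric.isBounded_Icc (fun i : Fin n => (L o) i.succ)
      (fun i : Fin n => (t - α 0 * (L o) 0 - ∑ j : Fin n, α j.succ * (L o) j.succ) / α i.succ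
          + (L o) i.succ)).subset ?_
    intro y hy
    exact ⟨fun i => (key y hy i).1, fun i => (key y hy i).2⟩
  have hcomp : IsCompact (shadow W' α t) := Metric.isCompact_of_isClosed_isBounded hclosed hbdd
  have hvol : volume (shadow W' α t) ≠ 0 := by
    obtain ⟨U, hU, hUW, x, hx, hxt⟩ := hpos
    have hLc : Continuous (fun w => L.symm w) := L.symm.toContinuousLinearEquiv.continuous
    have hopen : IsOpen ((fun y : Fin n → ℝ => L.symm (lift α t y)) ⁻¹' U) :=
      hU.preimage (hLc.comp (continuous_lift α t))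
    have hsub : ((fun y : Fin n → ℝ => L.symm (lift α t y)) ⁻¹' U) ⊆ shadow W' α t := by
      intro y hy
      have := hUW _ hy
      rw [mem_shadow_iff, hW']
      simpa [map_sub] using this
    have hne : ((fun y : Fin n → ℝ => L.symm (lift α t y)) ⁻¹' U).Nonempty := by
      refine ⟨fun i => L x i.succ, ?_⟩
      rw [mem_preimage, ← hxt, lift_tail α hα0, LinearEquiv.symm_apply_apply]
      exact hx
    exact fun h => (hopen.measure_pos volume hne).ne' (measure_mono_null hsub h)
  have hcomp'' : IsCompact (shadow W'' α t) := by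
    rw [hsh]
    exact (Homeomorph.subRight (fun i : Fin n => v i.succ)).isCompact_preimage.2 hcomp
  have hvol'' : volume (shadow W'' α t) ≠ 0 := by
    rw [hsh, (measurePreserving_sub_right volume (fun i : Fin n => v i.succ)).measure_preimage
      hcomp.measurableSet.nullMeasurableSet]
    exact hvol
  have e1 := hH n L W' α t hα0 hcomp.measurableSet hbdd hvol
  have e2 := hH n (L.trans P) W'' α t hα0 hcomp''.measurableSet hcomp''.isBounded hvol''
  rw [← hS1] at e1
  rw [← hS2, hsh, average_translate hcomp hvol] at e2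
  set z := centroid n {x | L (x - o) ∈ mdl n c ∧ ∑ i, α i * L x i = t} with hz
  set a := ⨍ y in shadow W' α t, y with ha
  have f1 : L z = lift α t a := by
    rw [e1, LinearEquiv.apply_symm_apply]
    rfl
  have f2 : P (L z) = lift α t (a + fun i : Fin n => v i.succ) := by
    have : (L.trans P) z = lift α t (a + fun i : Fin n => v i.succ) := by
      rw [e2, LinearEquiv.apply_symm_apply]
      rfl
    exact this
  rw [lift_add α hα0 t a v hvs, ← f1] at f2
  rw [map_sub L, map_sub P, f2, hv]
  abel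

/-- If a section of the model set is bounded then the functional has no zero direction in the
orthant. -/
theorem ConvAux.no_direction
    (L : EuclideanSpace ℝ (Fin (n + 1)) ≃ₗ[ℝ] (Fin (n + 1) → ℝ))
    (o : EuclideanSpace ℝ (Fin (n + 1))) (c : ℝ) (hc : 0 < c)
    (M : Submodule ℝ (EuclideanSpace ℝ (Fin (n + 1))))
    (hb : ∀ x, Bornology.IsBounded (slice {x | L (x - o) ∈ mdl n c} M x))
    (k : Fin (n + 1) → ℝ) (hk : ∀ i, 0 ≤ k i) (hkM : L.symm k ∈ M) : k = 0 := by
  by_contra hk0
  set x0 : EuclideanSpace ℝ (Fin (n + 1)) := o + L.symm (fun _ => 1 + c) with hx0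
  obtain ⟨R, hR⟩ := (hb x0).exists_norm_le
  have hne : L.symm k ≠ 0 := by
    intro h
    apply hk0
    have := congrArg L h
    simpa using this
  have hmem : ∀ s : ℝ, 0 ≤ s → x0 + s • L.symm k ∈ slice {x | L (x - o) ∈ mdl n c} M x0 := by
    intro s hs
    refine ⟨?_, ?_⟩
    · have : L (x0 + s • L.symm k - o) = (fun _ => 1 + c) + s • k := by
        rw [hx0]
        have : o + L.symm (fun _ => 1 + c) + s • L.symm k - o =
          L.symm (fun _ => 1 + c) + s • L.symm k := by abel
        rw [this, map_add, map_smul, LinearEquiv.apply_symm_apply, LinearEquiv.apply_symm_apply]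
      show L (x0 + s • L.symm k - o) ∈ mdl n c
      rw [this]
      exact mdl_up (mdl_nonempty hc) fun i => mul_nonneg hs (hk i)
    · rw [add_sub_cancel_left]
      exact M.smul_mem s hkM
  have hnorm : 0 < ‖L.symm k‖ := norm_pos_iff.2 hne
  have hR' := hR _ (hmem ((|R| + ‖x0‖ + 1) / ‖L.symm k‖) (by positivity))
  have h1 : ‖((|R| + ‖x0‖ + 1) / ‖L.symm k‖) • L.symm k‖ = |R| + ‖x0‖ + 1 := by
    rw [norm_smul, Real.norm_of_nonneg (by positivity)]
    field_simp
  have h2 : ‖((|R| + ‖x0‖ + 1) / ‖L.symm k‖) • L.symm k‖ ≤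
      ‖x0 + ((|R| + ‖x0‖ + 1) / ‖L.symm k‖) • L.symm k‖ + ‖x0‖ := by
    have := norm_sub_le (x0 + ((|R| + ‖x0‖ + 1) / ‖L.symm k‖) • L.symm k) x0
    rwa [add_sub_cancel_left] at this
  have h3 := le_abs_self R
  linarith

/-- A functional without nonnegative zero directions has coefficients of one strict sign. -/
theorem ConvAux.one_sign (α : Fin (n + 1) → ℝ)
    (h : ∀ k : Fin (n + 1) → ℝ, (∀ i, 0 ≤ k i) → ∑ i, α i * k i = 0 → k = 0) :
    (∀ i, 0 < α i) ∨ (∀ i, 0 < -α i) := by
  have hne : ∀ i, α i ≠ 0 := by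
    intro i hi
    have := h (Pi.single i 1) (fun j => by
      by_cases hj : j = i
      · subst hj; simp
      · simp [Pi.single_eq_of_ne hj]) (by
      rw [Finset.sum_eq_single i]
      · simp [hi]
      · intro j _ hj
        simp [Pi.single_eq_of_ne hj]
      · intro hi'
        exact absurd (Finset.mem_univ i) hi')
    have := congrFun this i
    simp at this
  by_contra hcon
  rw [not_or] at hcon
  obtain ⟨h1, h2⟩ := hcon
  push Not at h1 h2
  obtain ⟨i, hi⟩ := h1
  obtain ⟨j, hj⟩ := h2
  have hi' : α i < 0 := lt_of_le_of_ne hi (hne i)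
  have hj' : 0 < α j := lt_of_le_of_ne (by linarith) (hne j).symm
  have hij : i ≠ j := by
    rintro rfl
    linarith
  have := h (Pi.single i (α j) + Pi.single j (-α i)) (fun l => by
      have a1 : 0 ≤ (Pi.single i (α j) : Fin (n + 1) → ℝ) l := by
        by_cases hl : l = i
        · subst hl; simp [hj'.le]
        · simp [Pi.single_eq_of_ne hl]
      have a2 : 0 ≤ (Pi.single j (-α i) : Fin (n + 1) → ℝ) l := by
        by_cases hl : l = j
        · subst hl; simp [hi'.le]
        · simp [Pi.single_eq_of_ne hl]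
      exact add_nonneg a1 a2) (by
      simp only [Pi.add_apply, mul_add, Finset.sum_add_distrib]
      rw [Finset.sum_eq_single i, Finset.sum_eq_single j]
      · simp; ring
      · intro l _ hl
        simp [Pi.single_eq_of_ne hl]
      · intro hi'
        exact absurd (Finset.mem_univ j) hi'
      · intro l _ hl
        simp [Pi.single_eq_of_ne hl]
      · intro hi'
        exact absurd (Finset.mem_univ i) hi')
  have := congrFun this i
  simp [Pi.single_eq_of_ne hij] at this
  exact hne j this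

/-- **Module CONV.** The sets `∏ x_i ≥ c` have the section-centroid collinearity property. -/
theorem conv (hH : Stmts.Haus) : Stmts.Conv := by
  intro n hn b o c hc
  set L : EuclideanSpace ℝ (Fin (n + 1)) ≃ₗ[ℝ] (Fin (n + 1) → ℝ) := b.equivFun with hL
  have hΩ : {x | (∀ i, 0 ≤ b.repr (x - o) i) ∧ c ≤ ∏ i, b.repr (x - o) i} =
      {x | L (x - o) ∈ mdl n c} := by
    ext x
    rfl
  rw [hΩ]
  intro M hM hb
  -- the functional
  have hlt : M < ⊤ := by
    refine lt_top_iff_ne_top.2 fun h => ?_
    rw [h, finrank_top, finrank_euclideanSpace, Fintype.card_fin] at hM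
    omega
  obtain ⟨f, hf0, hfM⟩ := Submodule.exists_le_ker_of_lt_top M hlt
  have hker : M = LinearMap.ker f := by
    apply Submodule.eq_of_le_of_finrank_eq hfM
    have hr : Module.finrank ℝ (LinearMap.range f) = 1 := by
      have : LinearMap.range f = ⊤ := LinearMap.range_eq_top.2 (LinearMap.surjective hf0)
      rw [this, finrank_top, Module.finrank_self]
    have := LinearMap.finrank_range_add_finrank_ker f
    rw [hr, finrank_euclideanSpace, Fintype.card_fin] at this
    omega
  -- choose the sign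
  have hfe : ∀ g : Module.Dual ℝ (EuclideanSpace ℝ (Fin (n + 1))), ∀ x,
      g x = ∑ i, g (b i) * L x i := by
    intro g x
    conv_lhs => rw [← b.sum_equivFun x]
    rw [_root_.map_sum]
    refine Finset.sum_congr rfl fun i _ => ?_
    rw [map_smul, smul_eq_mul, mul_comm]
  have main : ∃ α : Fin (n + 1) → ℝ, (∀ i, 0 < α i) ∧ ∀ x, x ∈ M ↔ ∑ i, α i * L x i = 0 := by
    have hsgn := one_sign (fun i => f (b i)) (by
      intro k hk hk0
      refine no_direction L o c hc M hb k hk ?_
      rw [hker, LinearMap.mem_ker, hfe f, LinearEquiv.apply_symm_apply]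
      exact hk0)
    rcases hsgn with hs | hs
    · refine ⟨fun i => f (b i), hs, fun x => ?_⟩
      rw [hker, LinearMap.mem_ker, hfe f]
    · refine ⟨fun i => -f (b i), hs, fun x => ?_⟩
      rw [hker, LinearMap.mem_ker, hfe f]
      simp only [neg_mul, Finset.sum_neg_distrib, neg_eq_zero]
  obtain ⟨α, hα, hMα⟩ := main
  refine ⟨o, L.symm (fun i => 1 / α i), ?_, ?_⟩
  · intro h
    have := congrFun (congrArg L h) 0
    rw [LinearEquiv.apply_symm_apply] at this
    simp only [map_zero, Pi.zero_apply] at this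
    exact (one_div_pos.2 (hα 0)).ne' this
  · rintro x ⟨y, hyi, hyx⟩
    have hsl : slice {x | L (x - o) ∈ mdl n c} M x =
        {y | L (y - o) ∈ mdl n c ∧ ∑ i, α i * L y i = ∑ i, α i * L x i} := by
      ext y
      show (L (y - o) ∈ mdl n c ∧ y - x ∈ M) ↔ _
      rw [hMα]
      simp only [Set.mem_ofPred_eq, map_sub, Pi.sub_apply, mul_sub, Finset.sum_sub_distrib,
        sub_eq_zero]
    rw [hsl]
    have hpos : ∃ U : Set (EuclideanSpace ℝ (Fin (n + 1))), IsOpen U ∧
        (∀ x ∈ U, L (x - o) ∈ mdl n c) ∧ ∃ y ∈ U, ∑ i, α i * L y i = ∑ i, α i * L x i := by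
      refine ⟨interior {x | L (x - o) ∈ mdl n c}, isOpen_interior,
        fun z hz => (interior_subset hz : z ∈ {x | L (x - o) ∈ mdl n c}), y, hyi, ?_⟩
      rw [hMα] at hyx
      simpa only [map_sub, Pi.sub_apply, mul_sub, Finset.sum_sub_distrib, sub_eq_zero] using hyx
    have hfix := centroid_fixed hH L o c α hα (∑ i, α i * L x i) hpos
    set z := centroid n {y | L (y - o) ∈ mdl n c ∧ ∑ i, α i * L y i = ∑ i, α i * L x i} with hz
    set w := L (z - o) with hw
    have hw' : ∀ i, w i = α 0 * w 0 * (1 / α i) := by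
      intro i
      have h1 := congrFun (hfix (Equiv.swap i 0)) i
      rw [sym_apply, Equiv.swap_apply_left] at h1
      rw [← h1]
      ring
    refine ⟨α 0 * w 0, ?_⟩
    have : z - o = (α 0 * w 0) • L.symm (fun i => 1 / α i) := by
      apply L.injective
      rw [← hw, map_smul, LinearEquiv.apply_symm_apply]
      ext i
      rw [hw' i]
      rfl
    rw [← this]
    abel

end Pool.Agent.H30.Sccp
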