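import Pool.Agent.H30.Sccp.Defs

/-!
# Coordinates: caps, volume functions and shadows
-/

open MeasureTheory MeasureTheory.Measure Set

namespace Pool.Agent.H30.Sccp

variable {n : ℕ}

/-- The cap `{x ∈ W | ⟨α, x⟩ ≤ t}`. -/
def cap (W : Set (Fin (n + 1) → ℝ)) (α : Fin (n + 1) → ℝ) (t : ℝ) : Set (Fin (n + 1) → ℝ) :=
  {x | x ∈ W ∧ ∑ i, α i * x i ≤ t}

/-- Volume of the cap. -/
noncomputable def V (W : Set (Fin (n + 1) → ℝ)) (α : Fin (n + 1) → ℝ) (t : ℝ) : ℝ :=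
  volume.real (cap W α t)

/-- The shadow in `ℝ^n` (forget coordinate `0`) of the section `{x ∈ W | ⟨α, x⟩ = t}`. -/
def shadow (W : Set (Fin (n + 1) → ℝ)) (α : Fin (n + 1) → ℝ) (t : ℝ) : Set (Fin n → ℝ) :=
  {y | (Fin.cons ((t - ∑ i : Fin n, α i.succ * y i) / α 0) y : Fin (n + 1) → ℝ) ∈ W}

/-- The standing properties of a closed convex set whose recession cone is the orthant. -/
structure Good (W : Set (Fin (n + 1) → ℝ)) : Prop where
  closed : IsClosed W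
  convex : Convex ℝ W
  nonempty : W.Nonempty
  up : ∀ x ∈ W, ∀ k : Fin (n + 1) → ℝ, (∀ i, 0 ≤ k i) → x + k ∈ W
  bdd : ∀ γ : Fin (n + 1) → ℝ, (∀ i, 0 < γ i) → ∃ m : ℝ, ∀ x ∈ W, m ≤ ∑ i, γ i * x i

end Pool.Agent.H30.Sccp
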