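import Mathlib

/-!
# Section-centroid collinearity property: definitions
-/

open MeasureTheory MeasureTheory.Measure Set

namespace Pool.Agent.H30.Sccp

/-- The recession cone of a set. -/
def recCone {E : Type*} [AddCommGroup E] [Module ℝ E] (Ω : Set E) : Set E :=
  {d | ∀ x ∈ Ω, ∀ s : ℝ, 0 ≤ s → x + s • d ∈ Ω}

/-- The section `(x + M) ∩ Ω`. -/
def slice {E : Type*} [AddCommGroup E] [Module ℝ E] (Ω : Set E) (M : Submodule ℝ E) (x : E) :
    Set E :=
  {y ∈ Ω | y - x ∈ M}

/-- The barycentre of `S` with respect to `n`-dimensional Hausdorff measure. -/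
noncomputable def centroid {E : Type*} [NormedAddCommGroup E] [NormedSpace ℝ E]
    [MeasurableSpace E] [BorelSpace E] (n : ℕ) (S : Set E) : E :=
  ⨍ y in S, y ∂μH[n]

/-- The section-centroid collinearity property of a set `Ω ⊆ ℝ^(n+1)`: for every
`n`-dimensional linear subspace `M` for which all sections `(x + M) ∩ Ω` are bounded, the
centroids of the sections `(x + M) ∩ Ω` such that `x + M` meets the interior of `Ω` lie on a
single line. -/
def SCCP (n : ℕ) (Ω : Set (EuclideanSpace ℝ (Fin (n + 1)))) : Prop :=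
  ∀ M : Submodule ℝ (EuclideanSpace ℝ (Fin (n + 1))), Module.finrank ℝ M = n →
    (∀ x, Bornology.IsBounded (slice Ω M x)) →
    ∃ p d : EuclideanSpace ℝ (Fin (n + 1)), d ≠ 0 ∧
      ∀ x, (slice (interior Ω) M x).Nonempty →
        ∃ s : ℝ, centroid n (slice Ω M x) = p + s • d

end Pool.Agent.H30.Sccp
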