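import Pool.Agent.H30.Sccp.Stmts

/-!
# Hausdorff centroid of a hyperplane section
-/

open MeasureTheory MeasureTheory.Measure Set

namespace Pool.Agent.H30.Sccp

/-- an injective linear map `ℝ^n → E` multiplies `n`-dimensional measures by a constant -/
lemma hausdorff_image_linear {E : Type*} [NormedAddCommGroup E] [NormedSpace ℝ E]
    [FiniteDimensional ℝ E] [MeasurableSpace E] [BorelSpace E] (n : ℕ)
    (ψ : (Fin n → ℝ) →ₗ[ℝ] E) (hψ : Function.Injective ψ) :
    ∃ c : ENNReal, c ≠ 0 ∧ c ≠ ⊤ ∧ ∀ A : Set (Fin n → ℝ), μH[n] (ψ '' A) = c * volume A := by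
  classical
  set M : Submodule ℝ E := LinearMap.range ψ with hM
  let e : (Fin n → ℝ) ≃ₗ[ℝ] M := LinearEquiv.ofInjective ψ hψ
  have hfr : Module.finrank ℝ M = n := by
    rw [← LinearEquiv.finrank_eq e]; simp
  let eL : (Fin n → ℝ) ≃L[ℝ] M := e.toContinuousLinearEquiv
  have hH : IsAddHaarMeasure (μH[(Module.finrank ℝ M : ℝ)] : Measure M) := inferInstance
  rw [hfr] at hH
  have hmap : IsAddHaarMeasure (Measure.map eL.symm (μH[(n : ℝ)] : Measure M)) :=
    eL.symm.isAddHaarMeasure_map _
  have key := isAddLeftInvariant_eq_smul (Measure.map eL.symm (μH[(n : ℝ)] : Measure M))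
    (volume : Measure (Fin n → ℝ))
  set c := addHaarScalarFactor (Measure.map eL.symm (μH[(n : ℝ)] : Measure M))
    (volume : Measure (Fin n → ℝ)) with hc
  have hcpos : 0 < c := addHaarScalarFactor_pos_of_isAddHaarMeasure _ _
  refine ⟨(c : ENNReal), by simpa using hcpos.ne', ENNReal.coe_ne_top, fun A => ?_⟩
  have h1 : ψ '' A = (Subtype.val : M → E) '' (eL '' A) := by
    rw [Set.image_image]
    rfl
  rw [h1, (isometry_subtype_coe).hausdorffMeasure_image (Or.inl (by positivity))]
  have h2 : (μH[(n : ℝ)] : Measure M) (eL '' A) =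
      (Measure.map eL.symm (μH[(n : ℝ)] : Measure M)) A := by
    have : (Measure.map eL.symm (μH[(n : ℝ)] : Measure M)) A =
        (Measure.map eL.symm.toHomeomorph.toMeasurableEquiv (μH[(n : ℝ)] : Measure M)) A := rfl
    rw [this, MeasurableEquiv.map_apply]
    congr 1
    ext x
    constructor
    · rintro ⟨y, hy, rfl⟩
      show eL.symm (eL y) ∈ A
      simpa using hy
    · intro hx
      exact ⟨eL.symm x, hx, by simp⟩
  rw [h2, key]
  rfl

/-- the average of the identity over an affine image -/
lemma centroid_affine_image {E : Type*} [NormedAddCommGroup E] [NormedSpace ℝ E]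
    [FiniteDimensional ℝ E] [MeasurableSpace E] [BorelSpace E] (n : ℕ)
    (ψ : (Fin n → ℝ) →ₗ[ℝ] E) (hψ : Function.Injective ψ) (x0 : E)
    (D : Set (Fin n → ℝ)) (hD : MeasurableSet D) (hb : Bornology.IsBounded D)
    (h0 : volume D ≠ 0) :
    centroid n ((fun y => x0 + ψ y) '' D) = x0 + ψ (⨍ y in D, y) := by
  classical
  have hcomplete : CompleteSpace E := FiniteDimensional.complete ℝ E
  obtain ⟨c, hc0, hct, hcA⟩ := hausdorff_image_linear n ψ hψ
  have hψc : Continuous ψ := LinearMap.continuous_of_finiteDimensional ψ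
  set θ : (Fin n → ℝ) → E := fun y => x0 + ψ y with hθ
  have hθc : Continuous θ := continuous_const.add hψc
  have hθi : Function.Injective θ := by
    intro a b hab
    exact hψ (add_left_cancel hab)
  have hθA : ∀ A : Set (Fin n → ℝ), μH[n] (θ '' A) = c * volume A := by
    intro A
    rw [← hcA A]
    have : θ '' A = (IsometryEquiv.addLeft x0) '' (ψ '' A) := by
      rw [Set.image_image]
      rfl
    rw [this, IsometryEquiv.hausdorffMeasure_image]
  have hfin : volume D ≠ ⊤ := hb.measure_lt_top.ne
  -- the restricted measure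
  have hres : (μH[n] : Measure E).restrict (θ '' D) =
      c • Measure.map θ (volume.restrict D) := by
    ext B hB
    rw [Measure.restrict_apply hB, Measure.smul_apply, Measure.map_apply hθc.measurable hB,
      Measure.restrict_apply (hθc.measurable hB), smul_eq_mul, ← hθA]
    congr 1
    ext x
    constructor
    · rintro ⟨hxB, y, hy, rfl⟩
      exact ⟨y, ⟨hxB, hy⟩, rfl⟩
    · rintro ⟨y, ⟨hyB, hy⟩, rfl⟩
      exact ⟨hyB, y, hy, rfl⟩
  have hint : IntegrableOn (fun y : Fin n → ℝ => y) D volume := by
    obtain ⟨R, hR⟩ := hb.exists_norm_le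
    refine Measure.integrableOn_of_bounded (M := R) hfin ?_ ?_
    · exact aestronglyMeasurable_id
    · filter_upwards [ae_restrict_mem hD] with y hy
      exact hR y hy
  unfold centroid
  rw [hres, average_eq, average_eq]
  have hmapint : ∫ x : E, x ∂(Measure.map θ (volume.restrict D)) = ∫ y in D, θ y :=
    integral_map (f := fun x : E => x) hθc.measurable.aemeasurable
      (continuous_id.aestronglyMeasurable)
  rw [integral_smul_measure, hmapint]
  have hreal : (c • Measure.map θ (volume.restrict D)).real univ = c.toReal * volume.real D := by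
    rw [Measure.real, Measure.smul_apply, Measure.map_apply hθc.measurable MeasurableSet.univ,
      smul_eq_mul, ENNReal.toReal_mul]
    simp [Measure.real]
  have hreal2 : (volume.restrict D).real univ = volume.real D := by
    simp [Measure.real]
  rw [hreal, hreal2]
  have hcr : c.toReal ≠ 0 := ENNReal.toReal_ne_zero.2 ⟨hc0, hct⟩
  have hvr : volume.real D ≠ 0 := ENNReal.toReal_ne_zero.2 ⟨h0, hfin⟩
  have h1 : ∫ y in D, θ y = volume.real D • x0 + ψ (∫ y in D, y) := by
    have h2 : ∫ y in D, ψ y = ψ (∫ y in D, y) := by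
      have := ContinuousLinearMap.integral_comp_comm (μ := volume.restrict D)
        (⟨ψ, hψc⟩ : (Fin n → ℝ) →L[ℝ] E) (φ := fun y => y) hint
      simpa using this
    have hψint : IntegrableOn (fun y => ψ y) D volume := by
      exact ContinuousLinearMap.integrable_comp (μ := volume.restrict D)
        (⟨ψ, hψc⟩ : (Fin n → ℝ) →L[ℝ] E) (φ := fun y => y) hint
    rw [hθ, integral_add (integrable_const_iff.2 (Or.inr ?_)) hψint, h2]
    · simp
    · exact ⟨by rw [Measure.restrict_apply MeasurableSet.univ, univ_inter]; exact hfin.lt_top⟩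
  rw [h1, map_smul, smul_smul, smul_add, smul_smul]
  have e1 : (c.toReal * volume.real D)⁻¹ * c.toReal = (volume.real D)⁻¹ := by
    field_simp
  rw [e1, inv_mul_cancel₀ hvr, one_smul]

theorem haus : Stmts.Haus := by
  intro n L W α t hα hm hb h0
  classical
  -- linear and affine part
  let ψ₀ : (Fin n → ℝ) →ₗ[ℝ] (Fin (n + 1) → ℝ) :=
    { toFun := fun y => Fin.cons (-(∑ i : Fin n, α i.succ * y i) / α 0) y
      map_add' := by
        intro y z
        ext i
        refine Fin.cases ?_ (fun j => ?_) i
        · simp [mul_add, Finset.sum_add_distrib]; ring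
        · simp
      map_smul' := by
        intro r y
        ext i
        refine Fin.cases ?_ (fun j => ?_) i
        · have : ∑ i : Fin n, α i.succ * (r * y i) = r * ∑ i : Fin n, α i.succ * y i := by
            rw [Finset.mul_sum]
            exact Finset.sum_congr rfl (fun i _ => by ring)
          simp [this]; ring
        · simp }
  let ψ : (Fin n → ℝ) →ₗ[ℝ] EuclideanSpace ℝ (Fin (n + 1)) := L.symm.toLinearMap ∘ₗ ψ₀
  let x0 : EuclideanSpace ℝ (Fin (n + 1)) := L.symm (Fin.cons (t / α 0) 0)
  have hψ₀ : Function.Injective ψ₀ := by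
    intro y z h
    ext i
    have := congrFun h i.succ
    simpa [ψ₀] using this
  have hψ : Function.Injective ψ := L.symm.injective.comp hψ₀
  have hθ : ∀ y : Fin n → ℝ, x0 + ψ y =
      L.symm (Fin.cons ((t - ∑ i : Fin n, α i.succ * y i) / α 0) y) := by
    intro y
    show L.symm (Fin.cons (t / α 0) 0) + L.symm (ψ₀ y) = _
    rw [← map_add]
    congr 1
    ext i
    refine Fin.cases ?_ (fun j => ?_) i
    · simp [ψ₀]; ring
    · simp [ψ₀]
  have himg : {x | L x ∈ W ∧ ∑ i, α i * L x i = t} = (fun y => x0 + ψ y) '' shadow W α t := by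
    ext x
    constructor
    · rintro ⟨h1, h2⟩
      have hx : (Fin.cons ((t - ∑ i : Fin n, α i.succ * (Fin.tail (L x)) i) / α 0)
          (Fin.tail (L x)) : Fin (n + 1) → ℝ) = L x := by
        ext i
        refine Fin.cases ?_ (fun j => ?_) i
        · rw [Fin.cons_zero, div_eq_iff hα, ← h2, Fin.sum_univ_succ]
          simp [Fin.tail]; ring
        · simp [Fin.tail]
      refine ⟨Fin.tail (L x), ?_, ?_⟩
      · show (Fin.cons ((t - ∑ i : Fin n, α i.succ * (Fin.tail (L x)) i) / α 0)
          (Fin.tail (L x)) : Fin (n + 1) → ℝ) ∈ W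
        rw [hx]; exact h1
      · show x0 + ψ (Fin.tail (L x)) = x
        rw [hθ, hx]; simp
    · rintro ⟨y, hy, rfl⟩
      show L (x0 + ψ y) ∈ W ∧ ∑ i, α i * L (x0 + ψ y) i = t
      rw [hθ, LinearEquiv.apply_symm_apply]
      refine ⟨hy, ?_⟩
      rw [Fin.sum_univ_succ]
      simp only [Fin.cons_zero, Fin.cons_succ]
      field_simp
      ring
  rw [himg, centroid_affine_image n ψ hψ x0 _ hm hb h0, hθ]

end Pool.Agent.H30.Sccp
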