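import Pool.Agent.H30.Sccp.Affine

/-!
# Volumes of simplices and translations
-/

open MeasureTheory MeasureTheory.Measure Set Filter Topology

namespace Pool.Agent.H30.Sccp

variable {n : ℕ} {W : Set (Fin (n + 1) → ℝ)} {α : Fin (n + 1) → ℝ}

/-- The orthant. -/
def orth (n : ℕ) : Set (Fin (n + 1) → ℝ) := {x | ∀ i, 0 ≤ x i}

lemma orth_good : Good (orth n) where
  closed := by
    have : orth n = ⋂ i, {x | 0 ≤ x i} := by ext x; simp [orth]
    rw [this]
    exact isClosed_iInter (fun i => isClosed_le continuous_const (continuous_apply i))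
  convex := by
    intro x hx y hy a b ha hb _ i
    have := hx i
    have := hy i
    simp only [Pi.add_apply, Pi.smul_apply, smul_eq_mul]
    positivity
  nonempty := ⟨0, fun i => le_rfl⟩
  up := fun x hx k hk i => add_nonneg (hx i) (hk i)
  bdd := fun γ hγ => ⟨0, fun x hx => Finset.sum_nonneg (fun i _ => mul_nonneg (hγ i).le (hx i))⟩

/-- Translate of a set. -/
def sh (W : Set (Fin (n + 1) → ℝ)) (a : Fin (n + 1) → ℝ) : Set (Fin (n + 1) → ℝ) :=
  {x | x + a ∈ W}

lemma cap_sh (W : Set (Fin (n + 1) → ℝ)) (a α : Fin (n + 1) → ℝ) (t : ℝ) :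
    cap (sh W a) α t = (fun x => x + a) ⁻¹' cap W α (t + ∑ i, α i * a i) := by
  ext x
  simp only [cap, sh, mem_preimage, mem_ofPred_eq, Pi.add_apply, mul_add,
    Finset.sum_add_distrib]
  constructor
  · rintro ⟨h1, h2⟩; exact ⟨h1, by linarith⟩
  · rintro ⟨h1, h2⟩; exact ⟨h1, by linarith⟩

lemma V_sh (W : Set (Fin (n + 1) → ℝ)) (a α : Fin (n + 1) → ℝ) (t : ℝ) :
    V (sh W a) α t = V W α (t + ∑ i, α i * a i) := by
  rw [V, V, cap_sh, measureReal_def, measure_preimage_add_right]
  rfl

lemma Good.sh (hW : Good W) (a : Fin (n + 1) → ℝ) : Good (sh W a) where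
  closed := hW.closed.preimage (by fun_prop)
  convex := by
    intro x hx y hy s t hs ht hst
    have := hW.convex hx hy hs ht hst
    change s • x + t • y + a ∈ W
    have e : s • x + t • y + a = s • (x + a) + t • (y + a) := by
      have : a = (s + t) • a := by rw [hst, one_smul]
      conv_lhs => rw [this]
      rw [add_smul, smul_add, smul_add]
      abel
    rw [e]
    exact this
  nonempty := by
    obtain ⟨x, hx⟩ := hW.nonempty
    exact ⟨x - a, by change x - a + a ∈ W; simpa using hx⟩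
  up := by
    intro x hx k hk
    change x + k + a ∈ W
    have := hW.up (x + a) hx k hk
    have e : x + k + a = x + a + k := by abel
    rw [e]; exact this
  bdd := by
    intro γ hγ
    obtain ⟨m, hm⟩ := hW.bdd γ hγ
    refine ⟨m - ∑ i, γ i * a i, fun x hx => ?_⟩
    have := hm _ hx
    simp only [Pi.add_apply, mul_add, Finset.sum_add_distrib] at this
    linarith

/-- The volume of the standard simplex. -/
noncomputable def kap (n : ℕ) : ℝ := V (orth n) (ones n) 1

lemma ones_pos : ∀ i, 0 < ones n i := fun _ => one_pos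

lemma kap_pos : 0 < kap n := by
  apply orth_good.V_pos_of_mem ones_pos (x := 0) (fun i => le_rfl)
  simp

lemma V_orth (hα : ∀ i, 0 < α i) {t : ℝ} (ht : 0 ≤ t) :
    V (orth n) α t = kap n * t ^ (n + 1) / ∏ i, α i := by
  classical
  have hP : 0 < ∏ i, α i := Finset.prod_pos (fun i _ => hα i)
  rcases ht.eq_or_lt with rfl | ht
  · have hsub : cap (orth n) α 0 ⊆ {x : Fin (n + 1) → ℝ | ∑ i, α i * x i = 0} := by
      intro x hx
      exact le_antisymm hx.2 (Finset.sum_nonneg (fun i _ => mul_nonneg (hα i).le (hx.1 i)))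
    have : volume (cap (orth n) α 0) = 0 := measure_mono_null hsub (volume_hyperplane hα 0)
    rw [V, measureReal_def, this]
    simp
  · let f : (Fin (n + 1) → ℝ) →ₗ[ℝ] (Fin (n + 1) → ℝ) :=
      Matrix.toLin' (Matrix.diagonal (fun i => α i / t))
    have hf : ∀ x i, f x i = α i / t * x i := by
      intro x i
      simp [f, Matrix.mulVec_diagonal]
    have hdet : LinearMap.det f = (∏ i, α i) / t ^ (n + 1) := by
      rw [LinearMap.det_toLin', Matrix.det_diagonal, Finset.prod_div_distrib]
      simp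
    have hdet0 : LinearMap.det f ≠ 0 := by rw [hdet]; positivity
    have hpre : f ⁻¹' (cap (orth n) (ones n) 1) = cap (orth n) α t := by
      ext x
      simp only [mem_preimage, cap, orth, ones, mem_ofPred_eq, hf, one_mul]
      constructor
      · rintro ⟨h1, h2⟩
        constructor
        · intro i
          have := h1 i
          have h3 : 0 < α i / t := div_pos (hα i) ht
          exact nonneg_of_mul_nonneg_right this h3
        · have e : ∑ i, α i / t * x i = (∑ i, α i * x i) / t := by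
            rw [Finset.sum_div]; exact Finset.sum_congr rfl (fun i _ => by ring)
          rw [e, div_le_one ht] at h2
          exact h2
      · rintro ⟨h1, h2⟩
        constructor
        · intro i
          have := h1 i
          have h3 : 0 < α i / t := div_pos (hα i) ht
          exact mul_nonneg h3.le this
        · have e : ∑ i, α i / t * x i = (∑ i, α i * x i) / t := by
            rw [Finset.sum_div]; exact Finset.sum_congr rfl (fun i _ => by ring)
          rw [e, div_le_one ht]
          exact h2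
    have := Measure.addHaar_preimage_linearMap (volume : Measure (Fin (n + 1) → ℝ)) hdet0
      (cap (orth n) (ones n) 1)
    rw [hpre] at this
    rw [V, measureReal_def, this, ENNReal.toReal_mul, ENNReal.toReal_ofReal (abs_nonneg _), hdet,
      inv_div, abs_of_pos (by positivity), kap, V, measureReal_def]
    ring

/-- Volume of a translated simplex. -/
lemma V_orth_sh (hα : ∀ i, 0 < α i) (d : Fin (n + 1) → ℝ) {t : ℝ}
    (ht : 0 ≤ t + ∑ i, α i * d i) :
    V (sh (orth n) d) α t = kap n * (t + ∑ i, α i * d i) ^ (n + 1) / ∏ i, α i := by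
  rw [V_sh, V_orth hα ht]

lemma V_mono_set {W W' : Set (Fin (n + 1) → ℝ)} {t : ℝ} (h : cap W α t ⊆ cap W' α t)
    (hfin : volume (cap W' α t) ≠ ⊤) : V W α t ≤ V W' α t :=
  measureReal_mono h hfin

lemma Good.orth_sub (hW : Good W) (h0 : (0 : Fin (n + 1) → ℝ) ∈ W) : orth n ⊆ W := by
  intro x hx
  have := hW.up 0 h0 x hx
  simpa using this

/-- Lower bound. -/
lemma Good.V_ge_kap (hW : Good W) (h0 : (0 : Fin (n + 1) → ℝ) ∈ W) (hα : ∀ i, 0 < α i) {t : ℝ}
    (ht : 0 ≤ t) : kap n * t ^ (n + 1) / ∏ i, α i ≤ V W α t := by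
  rw [← V_orth hα ht]
  apply measureReal_mono _ (hW.cap_lt_top hα t).ne
  intro x hx
  exact ⟨hW.orth_sub h0 hx.1, hx.2⟩

/-- Caps are thin: coordinates are at least `-δ t` for large `t`. -/
lemma Good.thin (hW : Good W) (hα : ∀ i, 0 < α i) {δ : ℝ} (hδ : 0 < δ) :
    ∃ T : ℝ, 0 < T ∧ ∀ t, T ≤ t → ∀ x ∈ cap W α t, ∀ j, -(δ * t) ≤ x j := by
  classical
  have h : ∀ j : Fin (n + 1), ∃ m : ℝ, ∀ x ∈ W, m ≤ δ / 2 * ∑ i, α i * x i + x j := by
    intro j
    obtain ⟨m, hm⟩ := hW.bdd (Function.update (fun i => δ / 2 * α i) j (δ / 2 * α j + 1)) (by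
      intro i
      by_cases hij : i = j
      · subst hij; rw [Function.update_self]; have := hα i; positivity
      · rw [Function.update_of_ne hij]; have := hα i; positivity)
    refine ⟨m, fun x hx => ?_⟩
    have e := sum_update_add (fun i => δ / 2 * α i) j x
    have e2 : ∑ i, δ / 2 * α i * x i = δ / 2 * ∑ i, α i * x i := by
      rw [Finset.mul_sum]; exact Finset.sum_congr rfl (fun i _ => by ring)
    rw [e2] at e
    rw [← e]
    exact hm x hx
  choose m hm using h
  refine ⟨1 + ∑ j, |m j| * 2 / δ, by positivity, fun t ht x hx j => ?_⟩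
  have h1 := hm j x hx.1
  have h2 := hx.2
  have h3 : |m j| * 2 / δ ≤ t := by
    have : |m j| * 2 / δ ≤ ∑ j, |m j| * 2 / δ :=
      Finset.single_le_sum (f := fun j => |m j| * 2 / δ) (fun i _ => by positivity)
        (Finset.mem_univ j)
    linarith
  rw [div_le_iff₀ hδ] at h3
  have h4 := neg_abs_le (m j)
  nlinarith

/-- Upper bound. -/
lemma Good.V_le_thin (hW : Good W) (hα : ∀ i, 0 < α i) {δ : ℝ} (hδ : 0 < δ) :
    ∃ T : ℝ, 0 < T ∧ ∀ t, T ≤ t →
      V W α t ≤ kap n * t ^ (n + 1) / (∏ i, α i) * (1 + δ * ∑ i, α i) ^ (n + 1) := by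
  obtain ⟨T, hT, h⟩ := hW.thin hα hδ
  refine ⟨T, hT, fun t ht => ?_⟩
  have ht0 : 0 ≤ t := hT.le.trans ht
  have hS : 0 ≤ ∑ i, α i := Finset.sum_nonneg (fun i _ => (hα i).le)
  have e : t + ∑ i, α i * (fun _ => δ * t : Fin (n + 1) → ℝ) i = t * (1 + δ * ∑ i, α i) := by
    simp only [← Finset.sum_mul]; ring
  have h1 : V W α t ≤ V (Sccp.sh (orth n) (fun _ => δ * t)) α t := by
    apply measureReal_mono
    · intro x hx
      refine ⟨fun i => ?_, hx.2⟩
      have := h t ht x hx i
      simp only [Pi.add_apply]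
      linarith
    · exact ((orth_good.sh _).cap_lt_top hα t).ne
  refine h1.trans (le_of_eq ?_)
  rw [V_orth_sh hα, e, mul_pow]
  · ring
  · rw [e]; positivity

/-- Leading order of the volume function. -/
theorem Good.V_tendsto (hW : Good W) (h0 : (0 : Fin (n + 1) → ℝ) ∈ W) (hα : ∀ i, 0 < α i) :
    Tendsto (fun t => V W α t / t ^ (n + 1)) atTop (𝓝 (kap n / ∏ i, α i)) := by
  have hP : 0 < ∏ i, α i := Finset.prod_pos (fun i _ => hα i)
  have hk := kap_pos (n := n)
  have hS : 0 < ∑ i, α i := Finset.sum_pos (fun i _ => hα i) Finset.univ_nonempty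
  rw [Metric.tendsto_nhds]
  intro ε hε
  -- choose δ with κ/P ((1+δS)^N - 1) < ε
  have hcont : Tendsto (fun δ : ℝ => kap n / (∏ i, α i) * (1 + δ * ∑ i, α i) ^ (n + 1)) (𝓝 0)
      (𝓝 (kap n / (∏ i, α i) * (1 + 0 * ∑ i, α i) ^ (n + 1))) := by
    apply Continuous.tendsto
    fun_prop
  have hev : ∀ᶠ δ : ℝ in 𝓝 0, kap n / (∏ i, α i) * (1 + δ * ∑ i, α i) ^ (n + 1) <
      kap n / (∏ i, α i) + ε := by
    apply hcont.eventually_lt_const
    simpa using hε
  obtain ⟨δ0, hδ0, hδ⟩ := Metric.eventually_nhds_iff.mp hev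
  have hδ1 := hδ (y := δ0 / 2) (by rw [Real.dist_eq, sub_zero, abs_of_pos (by positivity)]; linarith)
  obtain ⟨T, hT, h⟩ := hW.V_le_thin hα (δ := δ0 / 2) (by positivity)
  filter_upwards [eventually_ge_atTop T] with t ht
  have ht0 : 0 < t := hT.trans_le ht
  have h1 := h t ht
  have h2 := hW.V_ge_kap h0 hα ht0.le
  have e1 : kap n * t ^ (n + 1) / ∏ i, α i = (kap n / ∏ i, α i) * t ^ (n + 1) := by ring
  rw [e1] at h1 h2
  rw [Real.dist_eq, abs_lt]
  have htp : 0 < t ^ (n + 1) := by positivity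
  constructor
  · have : kap n / (∏ i, α i) ≤ V W α t / t ^ (n + 1) := by
      rw [le_div_iff₀ htp]; exact h2
    linarith
  · have : V W α t / t ^ (n + 1) ≤ kap n / (∏ i, α i) * (1 + δ0 / 2 * ∑ i, α i) ^ (n + 1) := by
      rw [div_le_iff₀ htp]; linarith
    linarith

/-- The slope `E` of the affine equivalence. -/
theorem Good.slope_pow (hW : Good W) (h0 : (0 : Fin (n + 1) → ℝ) ∈ W) (hα : ∀ i, 0 < α i)
    {E F : ℝ} (hE : 0 < E)
    (h : ∀ t, 0 < V W (ones n) t → V W α (E * t + F) = V W (ones n) t) :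
    E ^ (n + 1) = ∏ i, α i := by
  have hP : 0 < ∏ i, α i := Finset.prod_pos (fun i _ => hα i)
  have hk := kap_pos (n := n)
  have h1 := hW.V_tendsto h0 (ones_pos (n := n))
  have h2 := hW.V_tendsto h0 hα
  have hlin : Tendsto (fun t : ℝ => E * t + F) atTop atTop :=
    tendsto_atTop_add_const_right _ _ (tendsto_id.const_mul_atTop hE)
  have h3 := h2.comp hlin
  have h4 : Tendsto (fun t : ℝ => ((E * t + F) / t) ^ (n + 1)) atTop (𝓝 (E ^ (n + 1))) := by
    apply Tendsto.pow
    have : Tendsto (fun t : ℝ => E + F / t) atTop (𝓝 (E + 0)) :=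
      tendsto_const_nhds.add (tendsto_const_nhds.div_atTop tendsto_id)
    rw [add_zero] at this
    apply this.congr'
    filter_upwards [eventually_gt_atTop 0] with t ht
    field_simp
  have h5 := h3.mul h4
  have h6 : Tendsto (fun t => V W (ones n) t / t ^ (n + 1)) atTop
      (𝓝 (kap n / (∏ i, α i) * E ^ (n + 1))) := by
    apply h5.congr'
    filter_upwards [eventually_gt_atTop 0, hlin.eventually_gt_atTop 0] with t ht ht2
    have hV : 0 < V W (ones n) t := by
      apply hW.V_pos_of_mem ones_pos h0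
      simpa using ht
    simp only [Function.comp_apply]
    rw [h t hV, div_pow]
    field_simp
  have h7 := tendsto_nhds_unique h1 h6
  simp only [ones, Finset.prod_const_one, div_one] at h7
  have h8 : kap n * (∏ i, α i) = kap n * E ^ (n + 1) := by
    have : kap n / (∏ i, α i) * E ^ (n + 1) = kap n * E ^ (n + 1) / ∏ i, α i := by ring
    rw [this, eq_div_iff hP.ne'] at h7
    exact h7
  exact (mul_left_cancel₀ hk.ne' h8).symm

end Pool.Agent.H30.Sccp
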