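import Pool.Agent.H30.Sccp.Coord

open MeasureTheory MeasureTheory.Measure Set

namespace Pool.Agent.H30.Sccp.Stmts

/-- Module HAUS: the centroid with respect to Hausdorff measure of a hyperplane section is computed
by the Lebesgue centroid of its shadow. -/
def Haus : Prop :=
  ∀ (n : ℕ) (L : EuclideanSpace ℝ (Fin (n + 1)) ≃ₗ[ℝ] (Fin (n + 1) → ℝ))
    (W : Set (Fin (n + 1) → ℝ)) (α : Fin (n + 1) → ℝ) (t : ℝ), α 0 ≠ 0 →
    MeasurableSet (shadow W α t) → Bornology.IsBounded (shadow W α t) →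
    volume (shadow W α t) ≠ 0 →
    centroid n {x | L x ∈ W ∧ ∑ i, α i * L x i = t} =
      L.symm (Fin.cons
        ((t - ∑ i : Fin n, α i.succ * (⨍ y in shadow W α t, y) i) / α 0)
        (⨍ y in shadow W α t, y))

/-- Module CONV (converse): the sets `∏ x_i ≥ c` have the SCCP. -/
def Conv : Prop :=
  ∀ (n : ℕ), 1 ≤ n → ∀ (b : Module.Basis (Fin (n + 1)) ℝ (EuclideanSpace ℝ (Fin (n + 1))))
    (o : EuclideanSpace ℝ (Fin (n + 1))) (c : ℝ), 0 < c →
    SCCP n {x | (∀ i, 0 ≤ b.repr (x - o) i) ∧ c ≤ ∏ i, b.repr (x - o) i}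

end Pool.Agent.H30.Sccp.Stmts
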