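import Pool.Agent.H30.Sccp.Stmts
import Pool.Agent.H30.Sccp.Classify

/-!
# From the geometric statement to coordinates
-/

open MeasureTheory MeasureTheory.Measure Set Filter Topology

namespace Pool.Agent.H30.Sccp

variable {n : ℕ}

/-- Euclidean space. -/
abbrev Eu (n : ℕ) : Type := EuclideanSpace ℝ (Fin (n + 1))

/-- The coordinates of `Ω`. -/
def coordSet (L : (Eu n) ≃ₗ[ℝ] (Fin (n + 1) → ℝ)) (Ω : Set (Eu n)) : Set (Fin (n + 1) → ℝ) :=
  {y | L.symm y ∈ Ω}

lemma mem_coordSet_apply (L : (Eu n) ≃ₗ[ℝ] (Fin (n + 1) → ℝ)) (Ω : Set (Eu n)) (x : Eu n) :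
    L x ∈ coordSet L Ω ↔ x ∈ Ω := by
  simp [coordSet]

lemma cont_L (L : (Eu n) ≃ₗ[ℝ] (Fin (n + 1) → ℝ)) : Continuous L :=
  L.toLinearMap.continuous_of_finiteDimensional

lemma cont_Lsymm (L : (Eu n) ≃ₗ[ℝ] (Fin (n + 1) → ℝ)) : Continuous L.symm :=
  L.symm.toLinearMap.continuous_of_finiteDimensional

/-- Limits of directions are recession directions. -/
lemma recession_limit {W : Set (Fin (n + 1) → ℝ)} (hc : IsClosed W) (hconv : Convex ℝ W)
    {x : ℕ → Fin (n + 1) → ℝ} (hx : ∀ k, x k ∈ W) (hnorm : Tendsto (fun k => ‖x k‖) atTop atTop)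
    {u : Fin (n + 1) → ℝ} {φ : ℕ → ℕ} (hφ : StrictMono φ)
    (hu : Tendsto (fun k => (‖x (φ k)‖)⁻¹ • x (φ k)) atTop (𝓝 u)) :
    ∀ y ∈ W, ∀ s : ℝ, 0 ≤ s → y + s • u ∈ W := by
  intro y hy s hs
  have hn' : Tendsto (fun k => ‖x (φ k)‖) atTop atTop := hnorm.comp hφ.tendsto_atTop
  have h1 : Tendsto (fun k => (1 - s * (‖x (φ k)‖)⁻¹) • y + s • ((‖x (φ k)‖)⁻¹ • x (φ k))) atTop
      (𝓝 ((1 - s * 0) • y + s • u)) := by
    apply Tendsto.add
    · apply Tendsto.smul_const
      apply tendsto_const_nhds.sub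
      exact (tendsto_inv_atTop_zero.comp hn').const_mul s
    · exact hu.const_smul s
  rw [mul_zero, sub_zero, one_smul] at h1
  apply hc.mem_of_tendsto h1
  filter_upwards [hn'.eventually_gt_atTop (s + 1)] with k hk
  have hpos : 0 < ‖x (φ k)‖ := by linarith
  rw [smul_smul]
  apply hconv hy (hx (φ k))
  · have : s * (‖x (φ k)‖)⁻¹ ≤ 1 := by
      rw [← div_eq_mul_inv, div_le_one hpos]; linarith
    linarith
  · positivity
  · ring

lemma sum_abs_le_norm (γ x : Fin (n + 1) → ℝ) :
    |∑ i, γ i * x i| ≤ (∑ i, |γ i|) * ‖x‖ := by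
  refine (Finset.abs_sum_le_sum_abs _ _).trans ?_
  rw [Finset.sum_mul]
  refine Finset.sum_le_sum (fun i _ => ?_)
  rw [abs_mul]
  exact mul_le_mul_of_nonneg_left (norm_le_pi_norm x i) (abs_nonneg _)

/-- A closed convex set whose recession cone is the orthant is good. -/
lemma good_of_rec {W : Set (Fin (n + 1) → ℝ)} (hc : IsClosed W) (hconv : Convex ℝ W)
    (hrec : recCone W = {d | ∀ i, 0 ≤ d i}) : Good W where
  closed := hc
  convex := hconv
  nonempty := by
    by_contra h
    rw [not_nonempty_iff_eq_empty] at h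
    have h1 : (fun _ => (-1 : ℝ)) ∈ recCone W := by
      intro x hx; rw [h] at hx; exact absurd hx (notMem_empty _)
    rw [hrec] at h1
    have := h1 0
    norm_num at this
  up := by
    intro x hx k hk
    have h1 : k ∈ recCone W := by rw [hrec]; exact hk
    have := h1 x hx 1 zero_le_one
    simpa using this
  bdd := by
    intro γ hγ
    by_contra hcon
    push Not at hcon
    choose x hxW hx using fun k : ℕ => hcon (-(k : ℝ))
    -- norms tend to infinity
    set G : ℝ := ∑ i, |γ i| with hG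
    have hGpos : 0 < G := by
      apply Finset.sum_pos (fun i _ => abs_pos.mpr (hγ i).ne') Finset.univ_nonempty
    have hn1 : ∀ k : ℕ, (k : ℝ) / G ≤ ‖x k‖ := by
      intro k
      rw [div_le_iff₀ hGpos]
      have h1 := sum_abs_le_norm γ (x k)
      have h2 := hx k
      have h3 := neg_abs_le (∑ i, γ i * x k i)
      linarith [mul_comm G ‖x k‖]
    have hnorm : Tendsto (fun k => ‖x k‖) atTop atTop := by
      apply tendsto_atTop_mono hn1
      exact tendsto_natCast_atTop_atTop.atTop_div_const hGpos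
    have hpos : ∀ k, x (k + 1) ≠ 0 := by
      intro k h
      have h1 := hx (k + 1)
      rw [h] at h1
      simp only [Pi.zero_apply, mul_zero, Finset.sum_const_zero] at h1
      push_cast at h1
      have : (0 : ℝ) ≤ k := by positivity
      linarith
    -- normalised sequence
    have hmem : ∀ k, (‖x (k + 1)‖)⁻¹ • x (k + 1) ∈ Metric.sphere (0 : Fin (n + 1) → ℝ) 1 := by
      intro k
      rw [mem_sphere_zero_iff_norm, norm_smul, norm_inv, norm_norm]
      exact inv_mul_cancel₀ (norm_ne_zero_iff.mpr (hpos k))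
    obtain ⟨u, hu, φ, hφ, hlim⟩ := (isCompact_sphere (0 : Fin (n + 1) → ℝ) 1).tendsto_subseq hmem
    have hrecu := recession_limit (x := fun k => x (k + 1)) hc hconv (fun k => hxW _)
      (hnorm.comp (tendsto_add_atTop_nat 1)) hφ hlim
    have hu0 : ∀ i, 0 ≤ u i := by
      have : u ∈ recCone W := hrecu
      rw [hrec] at this
      exact this
    -- but the functional is nonpositive at u
    have h1 : ∑ i, γ i * u i ≤ 0 := by
      have hcont : Tendsto (fun k => ∑ i, γ i * ((‖x (φ k + 1)‖)⁻¹ • x (φ k + 1)) i) atTop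
          (𝓝 (∑ i, γ i * u i)) := by
        have hc' : Continuous (fun z : Fin (n + 1) → ℝ => ∑ i, γ i * z i) := by fun_prop
        exact (hc'.tendsto u).comp hlim
      apply le_of_tendsto hcont
      filter_upwards with k
      have e : ∑ i, γ i * ((‖x (φ k + 1)‖)⁻¹ • x (φ k + 1)) i =
          (‖x (φ k + 1)‖)⁻¹ * ∑ i, γ i * x (φ k + 1) i := by
        rw [Finset.mul_sum]
        exact Finset.sum_congr rfl (fun i _ => by simp only [Pi.smul_apply, smul_eq_mul]; ring)
      rw [e]
      apply mul_nonpos_of_nonneg_of_nonpos (by positivity)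
      have := hx (φ k + 1)
      have h0 : (0 : ℝ) ≤ ((φ k + 1 : ℕ) : ℝ) := by positivity
      linarith
    have h2 : u = 0 := by
      have h3 : ∀ i ∈ Finset.univ, 0 ≤ γ i * u i := fun i _ => mul_nonneg (hγ i).le (hu0 i)
      have h4 : ∑ i, γ i * u i = 0 := le_antisymm h1 (Finset.sum_nonneg h3)
      rw [Finset.sum_eq_zero_iff_of_nonneg h3] at h4
      ext i
      have := h4 i (Finset.mem_univ i)
      rcases mul_eq_zero.mp this with h | h
      · exact absurd h (hγ i).ne'
      · simpa using h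
    rw [h2] at hu
    simp at hu

lemma coordSet_recCone (L : (Eu n) ≃ₗ[ℝ] (Fin (n + 1) → ℝ)) (Ω : Set (Eu n))
    (hrec : recCone Ω = {d | ∀ i, 0 ≤ L d i}) :
    recCone (coordSet L Ω) = {d | ∀ i, 0 ≤ d i} := by
  ext d
  constructor
  · intro h
    have h1 : L.symm d ∈ recCone Ω := by
      intro x hx s hs
      have := h (L x) (by rw [mem_coordSet_apply]; exact hx) s hs
      change L.symm (L x + s • d) ∈ Ω at this
      simpa using this
    rw [hrec] at h1
    intro i
    have := h1 i
    simpa using this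
  · intro h
    have h1 : L.symm d ∈ recCone Ω := by
      rw [hrec]; intro i; simpa using h i
    intro x hx s hs
    have := h1 (L.symm x) hx s hs
    change L.symm (x + s • d) ∈ Ω
    simpa using this

lemma coordSet_closed (L : (Eu n) ≃ₗ[ℝ] (Fin (n + 1) → ℝ)) {Ω : Set (Eu n)}
    (h : IsClosed Ω) : IsClosed (coordSet L Ω) := h.preimage (cont_Lsymm L)

lemma coordSet_convex (L : (Eu n) ≃ₗ[ℝ] (Fin (n + 1) → ℝ)) {Ω : Set (Eu n)}
    (h : Convex ℝ Ω) : Convex ℝ (coordSet L Ω) :=
  h.linear_preimage L.symm.toLinearMap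

/-- The functional defining the sections. -/
noncomputable def func (L : (Eu n) ≃ₗ[ℝ] (Fin (n + 1) → ℝ)) (α : Fin (n + 1) → ℝ) :
    (Eu n) →ₗ[ℝ] ℝ :=
  { toFun := fun x => ∑ i, α i * L x i
    map_add' := fun x y => by
      simp only [map_add, Pi.add_apply, mul_add, Finset.sum_add_distrib]
    map_smul' := fun c x => by
      simp only [map_smul, Pi.smul_apply, smul_eq_mul, RingHom.id_apply, Finset.mul_sum]
      exact Finset.sum_congr rfl (fun i _ => by ring) }

lemma func_apply (L : (Eu n) ≃ₗ[ℝ] (Fin (n + 1) → ℝ)) (α : Fin (n + 1) → ℝ) (x : Eu n) :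
    func L α x = ∑ i, α i * L x i := rfl

lemma finrank_ker_func (L : (Eu n) ≃ₗ[ℝ] (Fin (n + 1) → ℝ)) {α : Fin (n + 1) → ℝ}
    (hα : ∀ i, 0 < α i) : Module.finrank ℝ (LinearMap.ker (func L α)) = n := by
  classical
  have hsurj : LinearMap.range (func L α) = ⊤ := by
    rw [LinearMap.range_eq_top]
    intro r
    refine ⟨L.symm (Pi.single 0 (r / α 0)), ?_⟩
    rw [func_apply]
    simp only [LinearEquiv.apply_symm_apply, Pi.single_apply, mul_ite, mul_zero,
      Finset.sum_ite_eq', Finset.mem_univ, if_true]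
    have := (hα 0).ne'
    field_simp
  have h1 := LinearMap.finrank_range_add_finrank_ker (func L α)
  rw [hsurj, finrank_top, Module.finrank_self] at h1
  have h2 : Module.finrank ℝ (Eu n) = n + 1 := by simp
  omega

lemma slice_eq (L : (Eu n) ≃ₗ[ℝ] (Fin (n + 1) → ℝ)) (Ω : Set (Eu n)) (α : Fin (n + 1) → ℝ)
    (x : Eu n) : slice Ω (LinearMap.ker (func L α)) x =
      {y | L y ∈ coordSet L Ω ∧ ∑ i, α i * L y i = ∑ i, α i * L x i} := by
  ext y
  simp only [slice, mem_ofPred_eq, LinearMap.mem_ker, map_sub, mem_coordSet_apply, func_apply]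
  constructor
  · rintro ⟨h1, h2⟩; exact ⟨h1, by linarith⟩
  · rintro ⟨h1, h2⟩; exact ⟨h1, by linarith⟩

lemma slice_bounded (L : (Eu n) ≃ₗ[ℝ] (Fin (n + 1) → ℝ)) {Ω : Set (Eu n)} {α : Fin (n + 1) → ℝ}
    (hW : Good (coordSet L Ω)) (hα : ∀ i, 0 < α i) (x : Eu n) :
    Bornology.IsBounded (slice Ω (LinearMap.ker (func L α)) x) := by
  rw [slice_eq]
  have h1 := hW.cap_bounded hα (∑ i, α i * L x i)
  have hcomp : IsCompact (cap (coordSet L Ω) α (∑ i, α i * L x i)) :=
    Metric.isCompact_of_isClosed_isBounded (hW.cap_closed _) h1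
  have h2 := (hcomp.image (cont_Lsymm L)).isBounded
  apply h2.subset
  intro y hy
  exact ⟨L y, ⟨hy.1, hy.2.le⟩, by simp⟩

lemma exists_interior_of_V_pos {W : Set (Fin (n + 1) → ℝ)} (hW : Good W) {α : Fin (n + 1) → ℝ}
    (hα : ∀ i, 0 < α i) {t : ℝ} (h : 0 < V W α t) :
    ∃ x ∈ interior W, ∑ i, α i * x i = t := by
  obtain ⟨x, hx, hxt⟩ := Good.exists_mem_lt_of_V_pos hα h
  set S : ℝ := ∑ i, α i with hS
  have hSpos : 0 < S := Finset.sum_pos (fun i _ => hα i) Finset.univ_nonempty
  set r : ℝ := (t - ∑ i, α i * x i) / S with hr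
  have hrpos : 0 < r := div_pos (by linarith) hSpos
  refine ⟨fun i => x i + r, ?_, ?_⟩
  · rw [mem_interior]
    refine ⟨Set.pi Set.univ (fun i => Set.Ioi (x i)), ?_, ?_, ?_⟩
    · intro z hz
      rw [Set.mem_univ_pi] at hz
      have := hW.up x hx (fun i => z i - x i) (fun i => by
        have := hz i; rw [mem_Ioi] at this; linarith)
      convert this using 1
      ext i; simp
    · exact isOpen_set_pi Set.finite_univ (fun i _ => isOpen_Ioi)
    · rw [Set.mem_univ_pi]
      intro i
      rw [mem_Ioi]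
      linarith
  · have h2 : ∑ i, α i * (x i + r) = ∑ i, α i * x i + S * r := by
      rw [hS, Finset.sum_mul, ← Finset.sum_add_distrib]
      exact Finset.sum_congr rfl (fun i _ => by ring)
    have h3 : S * r = t - ∑ i, α i * x i := by
      rw [hr]; field_simp
    rw [h2, h3]; ring

lemma shadow_pos {W : Set (Fin (n + 1) → ℝ)} (hW : Good W) {a : Fin n → ℝ}
    (ha : ∀ i, 0 < a i) {t : ℝ} (h : 0 < V W (one_cons a) t) :
    volume (shadow W (one_cons a) t) ≠ 0 := by
  obtain ⟨x, hx, hxt⟩ := Good.exists_mem_lt_of_V_pos (one_cons_pos ha) h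
  rw [sum_one_cons] at hxt
  set U : Set (Fin n → ℝ) := {y | (∀ i, x i.succ < y i) ∧ x 0 + ∑ i, a i * y i < t} with hU
  have hUo : IsOpen U := by
    have : U = (Set.pi Set.univ (fun i : Fin n => Set.Ioi (x i.succ))) ∩
        {y | x 0 + ∑ i, a i * y i < t} := by
      ext y
      simp only [hU, mem_ofPred_eq, mem_inter_iff, Set.mem_univ_pi, mem_Ioi]
    rw [this]
    exact (isOpen_set_pi Set.finite_univ (fun i _ => isOpen_Ioi)).inter
      (isOpen_lt (by fun_prop) continuous_const)
  have hUne : U.Nonempty := by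
    set S : ℝ := ∑ i, a i with hS
    have hS0 : 0 ≤ S := Finset.sum_nonneg (fun i _ => (ha i).le)
    set r : ℝ := (t - (x 0 + ∑ i : Fin n, a i * x i.succ)) / (S + 1) with hr
    have hr0 : 0 < r := div_pos (by linarith) (by linarith)
    refine ⟨fun i => x i.succ + r, fun i => by simp only; linarith, ?_⟩
    have h2 : ∑ i : Fin n, a i * (x i.succ + r) = ∑ i : Fin n, a i * x i.succ + S * r := by
      rw [hS, Finset.sum_mul, ← Finset.sum_add_distrib]
      exact Finset.sum_congr rfl (fun i _ => by ring)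
    rw [h2]
    have h3 : (S + 1) * r = t - (x 0 + ∑ i : Fin n, a i * x i.succ) := by
      rw [hr]; field_simp
    nlinarith
  have hUsub : U ⊆ shadow W (one_cons a) t := by
    rintro y ⟨h1, h2⟩
    rw [mem_shadow_one_cons]
    have := hW.up x hx (Fin.cons (t - ∑ i, a i * y i - x 0) (fun i => y i - x i.succ)) (by
      intro i
      refine Fin.cases ?_ (fun j => ?_) i
      · simp only [Fin.cons_zero]; linarith
      · simp only [Fin.cons_succ]; linarith [h1 j])
    convert this using 1
    ext i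
    refine Fin.cases ?_ (fun j => ?_) i
    · simp
    · simp
  exact ((hUo.measure_pos volume hUne).trans_le (measure_mono hUsub)).ne'

/-- The SCCP gives collinearity in coordinates. -/
theorem collinear_of_sccp (hH : Stmts.Haus) (L : (Eu n) ≃ₗ[ℝ] (Fin (n + 1) → ℝ)) {Ω : Set (Eu n)}
    (hW : Good (coordSet L Ω)) (hS : SCCP n Ω) : Collinear (coordSet L Ω) := by
  intro a ha
  set α : Fin (n + 1) → ℝ := one_cons a with hα
  have hαpos : ∀ i, 0 < α i := one_cons_pos ha
  obtain ⟨p, d, hd, hline⟩ := hS (LinearMap.ker (func L α)) (finrank_ker_func L hαpos)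
    (slice_bounded L hW hαpos)
  -- the centroid of the section at level `t`
  have key : ∀ t, 0 < V (coordSet L Ω) α t → ∃ s : ℝ,
      (Fin.cons (t - ∑ i : Fin n, a i * (⨍ y in shadow (coordSet L Ω) α t, y) i)
        (⨍ y in shadow (coordSet L Ω) α t, y) : Fin (n + 1) → ℝ) = L p + s • L d := by
    intro t ht
    obtain ⟨x, hx, hxt⟩ := exists_interior_of_V_pos hW hαpos ht
    have hne : (slice (interior Ω) (LinearMap.ker (func L α)) (L.symm x)).Nonempty := by
      refine ⟨L.symm x, ?_, by simp⟩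
      rw [mem_interior] at hx ⊢
      obtain ⟨U, hU1, hU2, hU3⟩ := hx
      refine ⟨L ⁻¹' U, fun z hz => ?_, hU2.preimage (cont_L L), ?_⟩
      · have := hU1 hz
        rw [mem_coordSet_apply] at this
        exact this
      · simpa using hU3
    obtain ⟨s, hs⟩ := hline _ hne
    refine ⟨s, ?_⟩
    have h1 := hH n L (coordSet L Ω) α t (by simp [hα, one_cons])
      (hW.shadow_closed a t).measurableSet (hW.shadow_bounded ha t) (shadow_pos hW ha ht)
    rw [slice_eq] at hs
    simp only [LinearEquiv.apply_symm_apply, hxt] at hs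
    rw [h1] at hs
    have h2 := congrArg L hs
    rw [LinearEquiv.apply_symm_apply, map_add, map_smul] at h2
    rw [← h2]
    simp only [hα, one_cons, Fin.cons_zero, Fin.cons_succ, div_one]
  -- the functional is nonzero on `d`
  have hval : ∀ t, 0 < V (coordSet L Ω) α t → ∀ s : ℝ,
      (Fin.cons (t - ∑ i : Fin n, a i * (⨍ y in shadow (coordSet L Ω) α t, y) i)
        (⨍ y in shadow (coordSet L Ω) α t, y) : Fin (n + 1) → ℝ) = L p + s • L d →
      t = ∑ i, α i * L p i + s * ∑ i, α i * L d i := by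
    intro t ht s hs
    have h1 : ∑ i, α i * (Fin.cons (t - ∑ i : Fin n, a i *
        (⨍ y in shadow (coordSet L Ω) α t, y) i)
        (⨍ y in shadow (coordSet L Ω) α t, y) : Fin (n + 1) → ℝ) i = t := by
      rw [hα, sum_one_cons]
      simp
    rw [hs] at h1
    rw [← h1]
    simp only [Pi.add_apply, Pi.smul_apply, smul_eq_mul, mul_add, Finset.sum_add_distrib,
      Finset.mul_sum]
    congr 1
    exact Finset.sum_congr rfl (fun i _ => by ring)
  have hdne : ∑ i, α i * L d i ≠ 0 := by
    intro hzero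
    obtain ⟨t, ht⟩ := hW.V_unbounded hαpos 1
    have ht1 : 0 < V (coordSet L Ω) α t := by linarith
    have ht2 : 0 < V (coordSet L Ω) α (t + 1) :=
      ht1.trans_le (hW.V_mono hαpos (by linarith))
    obtain ⟨s1, hs1⟩ := key t ht1
    obtain ⟨s2, hs2⟩ := key (t + 1) ht2
    have e1 := hval t ht1 s1 hs1
    have e2 := hval (t + 1) ht2 s2 hs2
    rw [hzero] at e1 e2
    linarith
  set D : ℝ := ∑ i, α i * L d i with hD
  set P : ℝ := ∑ i, α i * L p i with hP
  refine ⟨fun i => L p i.succ - P / D * L d i.succ, fun i => L d i.succ / D, fun t ht i => ?_⟩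
  obtain ⟨s, hs⟩ := key t ht
  have e := hval t ht s hs
  have hs' : s = (t - P) / D := by rw [e]; field_simp; ring
  have hmi : (⨍ y in shadow (coordSet L Ω) α t, y) i = L p i.succ + s * L d i.succ := by
    have := congrFun hs i.succ
    simp only [Fin.cons_succ, Pi.add_apply, Pi.smul_apply, smul_eq_mul] at this
    exact this
  have hvol0 : volume.real (shadow (coordSet L Ω) α t) ≠ 0 := by
    rw [measureReal_def]
    exact ENNReal.toReal_ne_zero.mpr ⟨shadow_pos hW ha ht, (hW.shadow_lt_top ha t).ne⟩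
  have hint : IntegrableOn (fun y : Fin n → ℝ => y) (shadow (coordSet L Ω) α t) :=
    continuous_id.continuousOn.integrableOn_compact
      (Metric.isCompact_of_isClosed_isBounded (hW.shadow_closed a t) (hW.shadow_bounded ha t))
  have hcomp : ∫ y in shadow (coordSet L Ω) α t, y i =
      (∫ y in shadow (coordSet L Ω) α t, y) i := by
    have := (ContinuousLinearMap.proj (R := ℝ) (φ := fun _ : Fin n => ℝ) i).integral_comp_comm hint
    simpa using this
  rw [setAverage_eq] at hmi
  simp only [Pi.smul_apply, smul_eq_mul] at hmi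
  rw [← hcomp] at hmi
  change ∫ y in shadow (coordSet L Ω) α t, y i = _
  have h3 : ∫ y in shadow (coordSet L Ω) α t, y i =
      volume.real (shadow (coordSet L Ω) α t) * (L p i.succ + s * L d i.succ) := by
    rw [← hmi]
    field_simp
  rw [h3, hs']
  congr 1
  field_simp
  ring

/-- Main theorem, one direction, in coordinates. -/
theorem classify_of_sccp (hH : Stmts.Haus) (hn : 1 ≤ n) (L : (Eu n) ≃ₗ[ℝ] (Fin (n + 1) → ℝ))
    {Ω : Set (Eu n)} (hclosed : IsClosed Ω) (hconv : StrictConvex ℝ Ω)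
    (hrec : recCone Ω = {d | ∀ i, 0 ≤ L d i}) (hS : SCCP n Ω) :
    ∃ (o : Eu n) (c : ℝ), 0 < c ∧
      Ω = {x | (∀ i, 0 ≤ L (x - o) i) ∧ c ≤ ∏ i, L (x - o) i} := by
  classical
  have hW : Good (coordSet L Ω) := good_of_rec (coordSet_closed L hclosed)
    (coordSet_convex L hconv.convex) (coordSet_recCone L Ω hrec)
  have hA := hW.affEq (collinear_of_sccp hH L hW hS)
  obtain ⟨d, c, hc, hWc⟩ := hW.classify hn hA
  have hΩ : Ω = {x | (∀ i, 0 ≤ L (x - L.symm d) i) ∧ c ≤ ∏ i, L (x - L.symm d) i} := by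
    ext x
    rw [← mem_coordSet_apply L, hWc]
    simp
  refine ⟨L.symm d, c, ?_, hΩ⟩
  rcases hc.eq_or_lt with h0 | h0
  · exfalso
    subst h0
    have hmem : ∀ y : Fin (n + 1) → ℝ, (∀ i, 0 ≤ y i) → L.symm (d + y) ∈ Ω := by
      intro y hy
      rw [hΩ]
      constructor
      · intro i; simpa using hy i
      · apply Finset.prod_nonneg
        intro i _; simpa using hy i
    have hmem' : ∀ y : Fin (n + 1) → ℝ, L.symm (d + y) ∈ Ω → ∀ i, 0 ≤ y i := by
      intro y hy i
      rw [hΩ] at hy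
      have := hy.1 i
      simpa using this
    set i1 : Fin (n + 1) := ⟨1, by omega⟩ with hi1
    have hi10 : (0 : Fin (n + 1)) ≠ i1 := by
      intro h
      have := congrArg Fin.val h
      simp [hi1] at this
    set e1 : Fin (n + 1) → ℝ := Pi.single i1 1 with he1
    have he1nn : ∀ i, 0 ≤ e1 i := by
      intro i; simp only [he1, Pi.single_apply]; split_ifs <;> norm_num
    have hx := hmem 0 (fun i => le_rfl)
    have hy := hmem e1 he1nn
    have hne : L.symm (d + 0) ≠ L.symm (d + e1) := by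
      intro h
      have h1 := L.symm.injective h
      have h2 := congrFun h1 i1
      simp [he1] at h2
    have hint := hconv hx hy hne (a := 1 / 2) (b := 1 / 2) (by norm_num) (by norm_num)
      (by norm_num)
    have hmid : (1 / 2 : ℝ) • L.symm (d + 0) + (1 / 2 : ℝ) • L.symm (d + e1) =
        L.symm (d + (1 / 2 : ℝ) • e1) := by
      rw [← map_smul, ← map_smul, ← map_add]
      congr 1
      ext i
      simp only [Pi.add_apply, Pi.smul_apply, smul_eq_mul, Pi.zero_apply]
      ring
    rw [hmid] at hint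
    -- approach along `-e_0`
    have hcont : Tendsto (fun ε : ℝ => L.symm (d + ((1 / 2 : ℝ) • e1 - ε • Pi.single 0 1)))
        (𝓝[>] 0) (𝓝 (L.symm (d + ((1 / 2 : ℝ) • e1 - (0 : ℝ) • Pi.single 0 1)))) := by
      apply Tendsto.mono_left _ nhdsWithin_le_nhds
      apply Continuous.tendsto
      apply (cont_Lsymm L).comp
      fun_prop
    rw [zero_smul, sub_zero] at hcont
    have hev := hcont.eventually (isOpen_interior.mem_nhds hint)
    obtain ⟨ε, hε1, hε2⟩ := (hev.and self_mem_nhdsWithin).exists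
    have h3 := hmem' _ (interior_subset hε1) 0
    have hε2' : 0 < ε := hε2
    simp only [Pi.sub_apply, Pi.smul_apply, smul_eq_mul, he1, Pi.single_apply, hi10, if_false,
      mul_zero, if_true, mul_one] at h3
    linarith
  · exact h0

end Pool.Agent.H30.Sccp
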